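import Mathlib

/-!
# Twisted group algebras `A ⋊_alg ℤ` (finitely supported functions with twisted convolution)
-/

noncomputable section

namespace H309LP

/-- An action of `ℤ` on a commutative `ℂ`-algebra `A` by algebra endomorphisms. -/
structure ZAct (A : Type) [CommRing A] [Algebra ℂ A] where
  /-- the `n`-th power of the automorphism -/
  act : ℤ → (A →ₐ[ℂ] A)
  act_zero : ∀ f, act 0 f = f
  act_add : ∀ m n f, act (m + n) f = act m (act n f)

variable {A : Type} [CommRing A] [Algebra ℂ A]

/-- The finitely supported functions `a : ℤ → A`. -/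
def Tw (_φ : ZAct A) : Type := ℤ →₀ A

namespace Tw

variable (φ : ZAct A)

instance : AddCommGroup (Tw φ) := inferInstanceAs (AddCommGroup (ℤ →₀ A))
instance : Module ℂ (Tw φ) := inferInstanceAs (Module ℂ (ℤ →₀ A))

/-- the element `f δ_n` -/
def single (n : ℤ) (f : A) : Tw φ := Finsupp.single n f

variable {φ}

/-- the value `a(n) ∈ A` -/
def coef (a : Tw φ) (n : ℤ) : A := (show ℤ →₀ A from a) n

/-- the finite set of `n` with `a(n) ≠ 0` -/
def supp (a : Tw φ) : Finset ℤ := (show ℤ →₀ A from a).support

variable (φ)

/-- The (biadditive) product, given by `(f δ_k) (g δ_l) = f α^k(g) δ_{k+l}`. -/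
def mulHom : (ℤ →₀ A) →+ (ℤ →₀ A) →+ (ℤ →₀ A) :=
  Finsupp.liftAddHom fun k =>
    { toFun := fun f => Finsupp.liftAddHom fun l =>
        { toFun := fun g => Finsupp.single (k + l) (f * φ.act k g)
          map_zero' := by simp
          map_add' := fun g g' => by
            rw [map_add, mul_add, Finsupp.single_add] }
      map_zero' := by
        refine Finsupp.addHom_ext fun l g => ?_
        simp
      map_add' := fun f f' => by
        refine Finsupp.addHom_ext fun l g => ?_
        simp [add_mul, Finsupp.single_add] }

lemma mulHom_single (k l : ℤ) (f g : A) :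
    mulHom φ (Finsupp.single k f) (Finsupp.single l g)
      = Finsupp.single (k + l) (f * φ.act k g) := by
  simp [mulHom]

lemma mulHom_assoc (a b c : ℤ →₀ A) :
    mulHom φ (mulHom φ a b) c = mulHom φ a (mulHom φ b c) := by
  induction a using Finsupp.induction_linear with
  | zero => simp
  | add a a' ha ha' => simp [map_add, ha, ha']
  | single k f =>
    induction b using Finsupp.induction_linear with
    | zero => simp
    | add b b' hb hb' => simp [map_add, hb, hb']
    | single l g =>
      induction c using Finsupp.induction_linear with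
      | zero => simp
      | add c c' hc hc' => rw [map_add, map_add, map_add, hc, hc']
      | single m e =>
        simp only [mulHom_single, map_mul, ← φ.act_add, add_assoc, mul_assoc]

lemma mulHom_one_left (a : ℤ →₀ A) : mulHom φ (Finsupp.single 0 1) a = a := by
  induction a using Finsupp.induction_linear with
  | zero => simp
  | add a a' ha ha' => rw [map_add, ha, ha']
  | single k f => rw [mulHom_single]; simp [φ.act_zero]

lemma mulHom_one_right (a : ℤ →₀ A) : mulHom φ a (Finsupp.single 0 1) = a := by
  induction a using Finsupp.induction_linear with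
  | zero => simp
  | add a a' ha ha' => rw [map_add, AddMonoidHom.add_apply, ha, ha']
  | single k f => rw [mulHom_single]; simp

instance : Ring (Tw φ) :=
  { (inferInstance : AddCommGroup (Tw φ)) with
    mul := fun a b => mulHom φ a b
    one := Finsupp.single 0 1
    left_distrib := fun a b c => map_add (mulHom φ a) b c
    right_distrib := fun a b c => DFunLike.congr_fun (map_add (mulHom φ) a b) c
    zero_mul := fun a => DFunLike.congr_fun (map_zero (mulHom φ)) a
    mul_zero := fun a => map_zero (mulHom φ a)
    mul_assoc := mulHom_assoc φ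
    one_mul := mulHom_one_left φ
    mul_one := mulHom_one_right φ }

lemma mul_def (a b : Tw φ) : a * b = mulHom φ a b := rfl

lemma one_def : (1 : Tw φ) = single φ 0 1 := rfl

lemma single_mul_single (k l : ℤ) (f g : A) :
    single φ k f * single φ l g = single φ (k + l) (f * φ.act k g) :=
  mulHom_single φ k l f g

lemma smul_single (c : ℂ) (k : ℤ) (f : A) : c • single φ k f = single φ k (c • f) :=
  Finsupp.smul_single c k f

lemma single_add (k : ℤ) (f g : A) :
    single φ k (f + g) = single φ k f + single φ k g := Finsupp.single_add k f g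

@[simp] lemma single_zero (k : ℤ) : single φ k 0 = 0 := Finsupp.single_zero k

@[elab_as_elim]
lemma induct {P : Tw φ → Prop} (a : Tw φ) (h0 : P 0) (hadd : ∀ a b, P a → P b → P (a + b))
    (hs : ∀ k f, P (single φ k f)) : P a :=
  Finsupp.induction_linear (motive := P) a h0 hadd hs

lemma smul_mul_aux (c : ℂ) (a b : Tw φ) : (c • a) * b = c • (a * b) := by
  induction a using Tw.induct with
  | h0 => rw [smul_zero, zero_mul, smul_zero]
  | hadd a a' ha ha' => rw [smul_add, add_mul, add_mul, smul_add, ha, ha']
  | hs k f =>
    induction b using Tw.induct with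
    | h0 => rw [mul_zero, mul_zero, smul_zero]
    | hadd b b' hb hb' => rw [mul_add, mul_add, smul_add, hb, hb']
    | hs l g => rw [smul_single, single_mul_single, single_mul_single, smul_single, smul_mul_assoc]

lemma mul_smul_aux (c : ℂ) (a b : Tw φ) : a * (c • b) = c • (a * b) := by
  induction a using Tw.induct with
  | h0 => rw [zero_mul, zero_mul, smul_zero]
  | hadd a a' ha ha' => rw [add_mul, add_mul, smul_add, ha, ha']
  | hs k f =>
    induction b using Tw.induct with
    | h0 => rw [smul_zero, mul_zero, smul_zero]
    | hadd b b' hb hb' => rw [smul_add, mul_add, mul_add, smul_add, hb, hb']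
    | hs l g =>
      rw [smul_single, single_mul_single, single_mul_single, smul_single, map_smul,
        mul_smul_comm]

instance : Algebra ℂ (Tw φ) := Algebra.ofModule (smul_mul_aux φ) (mul_smul_aux φ)

variable {φ}

lemma sum_single (a : Tw φ) : a = ∑ n ∈ a.supp, single φ n (a.coef n) :=
  (Finsupp.sum_single (show ℤ →₀ A from a)).symm

lemma coef_single (k : ℤ) (f : A) (n : ℤ) :
    (single φ k f).coef n = if k = n then f else 0 := by
  unfold coef single
  exact Finsupp.single_apply

lemma coef_add (a b : Tw φ) (n : ℤ) : (a + b).coef n = a.coef n + b.coef n := rfl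
@[simp] lemma coef_zero (n : ℤ) : (0 : Tw φ).coef n = 0 := rfl

lemma coef_eq_zero_of_not_mem (a : Tw φ) {n : ℤ} (hn : n ∉ a.supp) : a.coef n = 0 :=
  Finsupp.notMem_support_iff.1 hn

/-- the product is the twisted convolution `(a b)(n) = ∑_k a(k) α^k(b(n - k))`. -/
lemma coef_mul (a b : Tw φ) (n : ℤ) :
    (a * b).coef n = ∑ k ∈ a.supp, a.coef k * φ.act k (b.coef (n - k)) := by
  have key : ∀ (s : Finset ℤ) (a b : Tw φ), a.supp ⊆ s →
      (a * b).coef n = ∑ k ∈ s, a.coef k * φ.act k (b.coef (n - k)) := by
    intro s a b hs
    have h1 : a = ∑ k ∈ s, single φ k (a.coef k) := by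
      conv_lhs => rw [sum_single a]
      refine Finset.sum_subset hs fun k _ hk => ?_
      rw [coef_eq_zero_of_not_mem a hk, single_zero]
    have h2 : ∀ (t : Finset ℤ) (F : ℤ → Tw φ), (∑ k ∈ t, F k).coef n = ∑ k ∈ t, (F k).coef n := by
      intro t F
      induction t using Finset.induction_on with
      | empty => simp
      | insert k t hk ih => rw [Finset.sum_insert hk, Finset.sum_insert hk, coef_add, ih]
    conv_lhs => rw [h1, Finset.sum_mul, h2]
    refine Finset.sum_congr rfl fun k _ => ?_
    generalize a.coef k = f
    induction b using Tw.induct with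
    | h0 => simp
    | hadd b b' hb hb' =>
      rw [mul_add, coef_add, hb, hb', coef_add, map_add, mul_add]
    | hs l g =>
      rw [single_mul_single, coef_single, coef_single]
      by_cases hl : k + l = n
      · rw [if_pos hl, if_pos (by omega)]
      · rw [if_neg hl, if_neg (by omega)]; simp
  exact key _ a b (Finset.Subset.refl _)

/-- Integrated form: `∑_n π(a(n)) v^n`. -/
def lift {B : Type} [Ring B] [Algebra ℂ B] (π : A →ₐ[ℂ] B) (v : ℤ → B) (hv0 : v 0 = 1)
    (hvadd : ∀ m n, v (m + n) = v m * v n) (hcov : ∀ n f, v n * π f = π (φ.act n f) * v n) :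
    Tw φ →ₐ[ℂ] B :=
  let F : Tw φ →ₗ[ℂ] B :=
    { toFun := fun a => ∑ n ∈ a.supp, π (a.coef n) * v n
      map_add' := fun a b => by
        exact Finsupp.sum_add_index' (f := (show ℤ →₀ A from a)) (g := (show ℤ →₀ A from b))
          (h := fun n f => π f * v n) (by simp) (by intro n f g; rw [map_add, add_mul])
      map_smul' := fun c a => by
        have := Finsupp.sum_smul_index' (b := c) (g := (show ℤ →₀ A from a))
          (h := fun n f => π f * v n) (by simp)
        refine this.trans ?_
        simp only [map_smul, smul_mul_assoc, Finsupp.sum, ← Finset.smul_sum]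
        rfl }
  have hF : ∀ n f, F (single φ n f) = π f * v n := fun n f =>
    Finsupp.sum_single_index (h := fun n f => π f * v n) (by simp)
  AlgHom.ofLinearMap F (by rw [one_def, hF, map_one, hv0, mul_one]) (by
    intro a b
    induction a using Tw.induct with
    | h0 => rw [zero_mul, map_zero, zero_mul]
    | hadd a a' ha ha' => rw [add_mul, map_add, map_add, add_mul, ha, ha']
    | hs k f =>
      induction b using Tw.induct with
      | h0 => rw [mul_zero, map_zero, mul_zero]
      | hadd b b' hb hb' => rw [mul_add, map_add, map_add, mul_add, hb, hb']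
      | hs l g =>
        rw [single_mul_single, hF, hF, hF, map_mul, hvadd]
        calc π f * π (φ.act k g) * (v k * v l) = π f * (π (φ.act k g) * v k) * v l := by
              simp only [mul_assoc]
          _ = π f * (v k * π g) * v l := by rw [hcov]
          _ = π f * v k * (π g * v l) := by simp only [mul_assoc])

lemma lift_apply {B : Type} [Ring B] [Algebra ℂ B] (π : A →ₐ[ℂ] B) (v : ℤ → B) (hv0 : v 0 = 1)
    (hvadd : ∀ m n, v (m + n) = v m * v n) (hcov : ∀ n f, v n * π f = π (φ.act n f) * v n)
    (a : Tw φ) : lift π v hv0 hvadd hcov a = ∑ n ∈ a.supp, π (a.coef n) * v n := rfl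

end Tw

end H309LP
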