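import Mathlib
import Pool.Agent.H309LP.Tw

/-!
# `L^p` crossed products by a homeomorphism

Definitions: contractive covariant representations of `(ℤ, X, h)` on `L^p`-spaces, regular
representations, the full and the reduced `L^p` operator crossed products
`F^p(ℤ, X, h)` and `F^p_r(ℤ, X, h)`.
-/

open MeasureTheory ENNReal

noncomputable section

namespace H309LP

variable {X : Type} [TopologicalSpace X]

/-- The action of `ℤ` on `C(X)` by the powers of `α`, `α(f) = f ∘ h⁻¹`;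
thus `α^n(f) = f ∘ h^{-n}`. -/
def alpha (h : X ≃ₜ X) : ZAct C(X, ℂ) where
  act n := ContinuousMap.compRightAlgHom ℂ ℂ ((h ^ (-n) : X ≃ₜ X) : C(X, X))
  act_zero f := by
    ext x
    change f ((h ^ (-(0 : ℤ)) : X ≃ₜ X) x) = f x
    rw [neg_zero, zpow_zero]; rfl
  act_add m n f := by
    ext x
    change f ((h ^ (-(m + n)) : X ≃ₜ X) x) = f ((h ^ (-n) : X ≃ₜ X) ((h ^ (-m) : X ≃ₜ X) x))
    rw [show -(m + n) = -n + -m by ring, zpow_add]; rfl

@[simp] lemma alpha_apply (h : X ≃ₜ X) (n : ℤ) (f : C(X, ℂ)) (x : X) :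
    (alpha h).act n f x = f ((h ^ (-n) : X ≃ₜ X) x) := rfl

/-- `C_c(ℤ, C(X), α)`, with its product
`(a b)(n) = ∑_k a(k) α^k(b(n - k))` (see `Tw.coef_mul`). -/
abbrev Cc (h : X ≃ₜ X) : Type := Tw (alpha h)

variable [CompactSpace X]

/-- A nondegenerate contractive representation of `C(X)` on a Banach space `E`. -/
structure CRep (X : Type) [TopologicalSpace X] [CompactSpace X]
    (E : Type) [NormedAddCommGroup E] [NormedSpace ℂ E] where
  /-- the homomorphism `C(X) → B(E)` -/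
  π : C(X, ℂ) →ₙₐ[ℂ] (E →L[ℂ] E)
  contractive : ∀ f, ‖π f‖ ≤ ‖f‖
  nondegenerate : Dense (Submodule.span ℂ {ξ : E | ∃ f η, π f η = ξ} : Set E)

/-- A contractive covariant representation `(π, v)` on a Banach space `E`: `π` is a
nondegenerate contractive representation of `C(X)`, `v` is an invertible isometry, and
`v π(f) v⁻¹ = π(α(f))`. -/
structure CovRep (h : X ≃ₜ X) (E : Type) [NormedAddCommGroup E] [NormedSpace ℂ E]
    extends CRep X E where
  /-- the invertible isometry -/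
  v : E ≃ₗᵢ[ℂ] E
  covariant : ∀ f ξ, v (π f (v.symm ξ)) = π ((alpha h).act 1 f) ξ

section
variable {E : Type} [NormedAddCommGroup E] [NormedSpace ℂ E]

/-- the operator `v^n` -/
def zop (v : E ≃ₗᵢ[ℂ] E) (n : ℤ) : E →L[ℂ] E :=
  ((v ^ n : E ≃ₗᵢ[ℂ] E).toLinearIsometry).toContinuousLinearMap

lemma zop_apply (v : E ≃ₗᵢ[ℂ] E) (n : ℤ) (ξ : E) : zop v n ξ = (v ^ n : E ≃ₗᵢ[ℂ] E) ξ := rfl

@[simp] lemma norm_zop (v : E ≃ₗᵢ[ℂ] E) (n : ℤ) (ξ : E) : ‖zop v n ξ‖ = ‖ξ‖ := by
  rw [zop_apply]; exact LinearIsometryEquiv.norm_map _ _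

lemma zop_zero (v : E ≃ₗᵢ[ℂ] E) : zop v 0 = 1 := by
  ext ξ; rw [zop_apply, zpow_zero]; rfl

lemma zop_add (v : E ≃ₗᵢ[ℂ] E) (m n : ℤ) : zop v (m + n) = zop v m * zop v n := by
  ext ξ; rw [zop_apply, zpow_add]; rfl

lemma CRep.map_one (R : CRep X E) : R.π 1 = 1 := by
  have h1 : ∀ ξ ∈ (Submodule.span ℂ {ξ : E | ∃ f η, R.π f η = ξ} : Set E),
      R.π 1 ξ = ξ := by
    intro ξ hξ
    refine Submodule.span_induction (p := fun ξ _ => R.π 1 ξ = ξ) ?_ ?_ ?_ ?_ hξ
    · rintro _ ⟨f, η, rfl⟩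
      have : R.π (1 * f) η = R.π 1 (R.π f η) := by rw [_root_.map_mul]; rfl
      rw [one_mul] at this
      exact this.symm
    · simp
    · intro x y _ _ hx hy; rw [map_add, hx, hy]
    · intro c x _ hx; rw [map_smul, hx]
  ext ξ
  have hcl : IsClosed {ξ : E | R.π 1 ξ = ξ} := isClosed_eq (R.π 1).continuous continuous_id
  have h2 : closure (Submodule.span ℂ {ξ : E | ∃ f η, R.π f η = ξ} : Set E)
      ⊆ {ξ : E | R.π 1 ξ = ξ} := closure_minimal h1 hcl
  have h3 : ξ ∈ closure (Submodule.span ℂ {ξ : E | ∃ f η, R.π f η = ξ} : Set E) :=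
    R.nondegenerate ξ
  exact h2 h3

/-- the representation as a unital algebra homomorphism -/
def CRep.alg (R : CRep X E) : C(X, ℂ) →ₐ[ℂ] (E →L[ℂ] E) :=
  AlgHom.ofLinearMap
    { toFun := R.π, map_add' := map_add R.π, map_smul' := fun c f => map_smul R.π c f }
    R.map_one (map_mul R.π)

@[simp] lemma CRep.alg_apply (R : CRep X E) (f : C(X, ℂ)) : R.alg f = R.π f := rfl

/-- construct a nondegenerate representation from a unital one -/
def CRep.ofAlgHom (π : C(X, ℂ) →ₐ[ℂ] (E →L[ℂ] E)) (hπ : ∀ f, ‖π f‖ ≤ ‖f‖) : CRep X E where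
  π := (π : C(X, ℂ) →ₙₐ[ℂ] (E →L[ℂ] E))
  contractive := hπ
  nondegenerate := by
    have : (Submodule.span ℂ {ξ : E | ∃ f η, (π : C(X, ℂ) →ₙₐ[ℂ] (E →L[ℂ] E)) f η = ξ} : Set E)
        = Set.univ := by
      refine Set.eq_univ_of_forall fun ξ => Submodule.subset_span ⟨1, ξ, ?_⟩
      change π 1 ξ = ξ
      rw [_root_.map_one]; rfl
    rw [this]; exact dense_univ

@[simp] lemma CRep.ofAlgHom_apply (π : C(X, ℂ) →ₐ[ℂ] (E →L[ℂ] E)) (hπ : ∀ f, ‖π f‖ ≤ ‖f‖)
    (f : C(X, ℂ)) : (CRep.ofAlgHom π hπ).π f = π f := rfl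

variable {h : X ≃ₜ X}

lemma CovRep.cov_one (R : CovRep h E) (f : C(X, ℂ)) (ξ : E) :
    R.v (R.π f ξ) = R.π ((alpha h).act 1 f) (R.v ξ) := by
  have := R.covariant f (R.v ξ)
  rwa [LinearIsometryEquiv.symm_apply_apply] at this

lemma CovRep.cov_neg_one (R : CovRep h E) (f : C(X, ℂ)) (ξ : E) :
    R.v.symm (R.π f ξ) = R.π ((alpha h).act (-1) f) (R.v.symm ξ) := by
  rw [LinearIsometryEquiv.symm_apply_eq, R.cov_one, ← (alpha h).act_add,
    show (1 : ℤ) + -1 = 0 by norm_num, (alpha h).act_zero, LinearIsometryEquiv.apply_symm_apply]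

lemma CovRep.cov (R : CovRep h E) (n : ℤ) (f : C(X, ℂ)) :
    zop R.v n * R.alg f = R.alg ((alpha h).act n f) * zop R.v n := by
  induction n using Int.induction_on with
  | zero => rw [zop_zero, (alpha h).act_zero, one_mul, mul_one]
  | succ n ih =>
    rw [add_comm, zop_add, mul_assoc, ih, (alpha h).act_add, ← mul_assoc, ← mul_assoc]
    congr 1
    ext ξ
    change (R.v ^ (1 : ℤ) : E ≃ₗᵢ[ℂ] E) (R.π _ ξ) = R.π _ ((R.v ^ (1 : ℤ) : E ≃ₗᵢ[ℂ] E) ξ)
    rw [zpow_one, R.cov_one]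
  | pred n ih =>
    rw [show (-(n : ℤ) - 1) = -1 + -(n : ℤ) by ring, zop_add, mul_assoc, ih, (alpha h).act_add,
      ← mul_assoc, ← mul_assoc]
    congr 1
    ext ξ
    change (R.v ^ (-1 : ℤ) : E ≃ₗᵢ[ℂ] E) (R.π _ ξ) = R.π _ ((R.v ^ (-1 : ℤ) : E ≃ₗᵢ[ℂ] E) ξ)
    rw [zpow_neg_one]
    exact R.cov_neg_one _ ξ

/-- The integrated form `a ↦ ∑_n π(a(n)) v^n` of a covariant representation. -/
def CovRep.int (R : CovRep h E) : Cc h →ₐ[ℂ] (E →L[ℂ] E) :=
  Tw.lift R.alg (zop R.v) (zop_zero R.v) (zop_add R.v) R.cov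

lemma CovRep.int_apply (R : CovRep h E) (a : Cc h) :
    R.int a = ∑ n ∈ a.supp, R.π (a.coef n) * zop R.v n := rfl

end

/-! ### Norms coming from families of covariant representations -/

/-- A Banach space together with a contractive covariant representation on it. -/
structure SomeRep (h : X ≃ₜ X) where
  /-- the Banach space -/
  E : Type
  [i1 : NormedAddCommGroup E]
  [i2 : NormedSpace ℂ E]
  /-- the covariant representation -/
  rep : CovRep h E

attribute [instance] SomeRep.i1 SomeRep.i2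

variable {h : X ≃ₜ X}

lemma CovRep.norm_int_le {E : Type} [NormedAddCommGroup E] [NormedSpace ℂ E] (R : CovRep h E)
    (a : Cc h) : ‖R.int a‖ ≤ ∑ n ∈ a.supp, ‖a.coef n‖ := by
  rw [R.int_apply]
  refine (norm_sum_le _ _).trans (Finset.sum_le_sum fun n _ => ?_)
  refine ContinuousLinearMap.opNorm_le_bound _ (norm_nonneg _) fun ξ => ?_
  change ‖R.π (a.coef n) (zop R.v n ξ)‖ ≤ _
  refine ((R.π (a.coef n)).le_opNorm _).trans ?_
  rw [norm_zop]
  exact mul_le_mul_of_nonneg_right (R.contractive _) (norm_nonneg _)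

/-- The seminorm `a ↦ sup_i ‖∑_n π_i(a(n)) v_i^n‖` given by a family of covariant
representations. -/
def famNorm {ι : Type 1} (F : ι → SomeRep h) (a : Cc h) : ℝ := ⨆ i, ‖(F i).rep.int a‖

section fam
variable {ι : Type 1} (F : ι → SomeRep h)

lemma famNorm_bdd (a : Cc h) : BddAbove (Set.range fun i => ‖(F i).rep.int a‖) :=
  ⟨_, by rintro _ ⟨i, rfl⟩; exact (F i).rep.norm_int_le a⟩

lemma le_famNorm (a : Cc h) (i : ι) : ‖(F i).rep.int a‖ ≤ famNorm F a :=
  le_ciSup (famNorm_bdd F a) i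

lemma famNorm_nonneg (a : Cc h) : 0 ≤ famNorm F a :=
  Real.iSup_nonneg fun _ => norm_nonneg _

lemma famNorm_le {a : Cc h} {M : ℝ} (hM : 0 ≤ M) (H : ∀ i, ‖(F i).rep.int a‖ ≤ M) :
    famNorm F a ≤ M := Real.iSup_le H hM

/-- `famNorm` as a ring seminorm. -/
def famSeminorm : RingSeminorm (Cc h) where
  toFun := famNorm F
  map_zero' := by
    refine le_antisymm (famNorm_le F le_rfl fun i => ?_) (famNorm_nonneg F _)
    rw [map_zero, norm_zero]
  add_le' a b := by
    refine famNorm_le F (add_nonneg (famNorm_nonneg F _) (famNorm_nonneg F _)) fun i => ?_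
    rw [map_add]
    exact (norm_add_le _ _).trans (add_le_add (le_famNorm F a i) (le_famNorm F b i))
  neg' a := by
    change famNorm F (-a) = famNorm F a
    unfold famNorm
    simp only [map_neg, norm_neg]
  mul_le' a b := by
    refine famNorm_le F (mul_nonneg (famNorm_nonneg F _) (famNorm_nonneg F _)) fun i => ?_
    rw [map_mul]
    exact (norm_mul_le _ _).trans
      (mul_le_mul (le_famNorm F a i) (le_famNorm F b i) (norm_nonneg _) (famNorm_nonneg F _))

/-- `C_c(ℤ, C(X), α)` equipped with the seminorm of a family of covariant representations. -/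
def NCc (_F : ι → SomeRep h) : Type := Cc h

instance : SeminormedRing (NCc F) := (famSeminorm F).toSeminormedRing
instance : Algebra ℂ (NCc F) := inferInstanceAs (Algebra ℂ (Cc h))

lemma NCc.norm_def (a : NCc F) : ‖a‖ = famNorm F a := rfl

instance : NormedAlgebra ℂ (NCc F) where
  norm_smul_le c a := by
    rw [NCc.norm_def, NCc.norm_def]
    refine famNorm_le F (mul_nonneg (norm_nonneg _) (famNorm_nonneg F _)) fun i => ?_
    have : (F i).rep.int (c • (show Cc h from a)) = c • (F i).rep.int a := map_smul _ _ _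
    change ‖(F i).rep.int (c • (show Cc h from a))‖ ≤ _
    rw [this, norm_smul]
    exact mul_le_mul_of_nonneg_left (le_famNorm F a i) (norm_nonneg _)

/-- The completion of `C_c(ℤ, C(X), α)` in the norm `sup_i ‖∑_n π_i(a(n)) v_i^n‖`. -/
abbrev Compl (F : ι → SomeRep h) : Type := UniformSpace.Completion (NCc F)

end fam

/-! ### The full crossed product -/

variable (p : ℝ≥0∞) [Fact (1 ≤ p)]

/-- A contractive covariant representation on `L^p(Ω, μ)` with `μ` `σ`-finite. -/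
structure LpCovRep (h : X ≃ₜ X) where
  /-- the measure space -/
  Ω : Type
  [mΩ : MeasurableSpace Ω]
  /-- the measure -/
  μ : Measure Ω
  [sf : SigmaFinite μ]
  /-- the representation -/
  rep : CovRep h (Lp ℂ p μ)

attribute [instance] LpCovRep.mΩ LpCovRep.sf

/-- the family of all contractive covariant representations on `L^p`-spaces -/
def fullFam (h : X ≃ₜ X) (R : LpCovRep p h) : SomeRep h where
  E := Lp ℂ p R.μ
  rep := R.rep

/-- `F^p(ℤ, X, h)`. -/
abbrev FullCP (h : X ≃ₜ X) : Type := Compl (fullFam p h)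

/-! ### Regular representations and the reduced crossed product -/

section regular

variable {E : Type} [NormedAddCommGroup E] [NormedSpace ℂ E]

omit [NormedSpace ℂ E] in
lemma memlp_comp_equiv (σ : ℤ ≃ ℤ) {f : ℤ → E} (hf : Memℓp f p) :
    Memℓp (fun n => f (σ n)) p := by
  obtain (rfl | rfl | hp) := p.trichotomy
  · rw [memℓp_zero_iff] at hf ⊢
    exact hf.preimage σ.injective.injOn
  · rw [memℓp_infty_iff] at hf ⊢
    obtain ⟨C, hC⟩ := hf
    exact ⟨C, by rintro _ ⟨n, rfl⟩; exact hC ⟨σ n, rfl⟩⟩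
  · rw [memℓp_gen_iff hp] at hf ⊢
    exact (σ.summable_iff (f := fun n => ‖f n‖ ^ p.toReal)).2 hf

omit [NormedSpace ℂ E] in
lemma norm_comp_equiv (σ : ℤ ≃ ℤ) (f : lp (fun _ : ℤ => E) p) :
    ‖(⟨fun n => f (σ n), memlp_comp_equiv p σ (lp.memℓp f)⟩ : lp (fun _ : ℤ => E) p)‖ = ‖f‖ := by
  obtain (rfl | rfl | hp) := p.trichotomy
  · exact absurd (Fact.out : (1 : ℝ≥0∞) ≤ 0) (by simp)
  · rw [lp.norm_eq_ciSup, lp.norm_eq_ciSup]
    exact σ.iSup_comp (g := fun n => ‖f n‖)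
  · rw [lp.norm_eq_tsum_rpow hp, lp.norm_eq_tsum_rpow hp]
    congr 1
    exact σ.tsum_eq (fun n => ‖f n‖ ^ p.toReal)

/-- the bilateral shift `(v ξ)(n) = ξ(n - 1)` on `ℓ^p(ℤ, E)` -/
def shift : lp (fun _ : ℤ => E) p ≃ₗᵢ[ℂ] lp (fun _ : ℤ => E) p where
  toFun ξ := ⟨fun n => ξ ((Equiv.subRight (1 : ℤ)) n),
    memlp_comp_equiv p (Equiv.subRight (1 : ℤ)) (lp.memℓp ξ)⟩
  invFun ξ := ⟨fun n => ξ ((Equiv.addRight (1 : ℤ)) n),
    memlp_comp_equiv p (Equiv.addRight (1 : ℤ)) (lp.memℓp ξ)⟩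
  left_inv ξ := by
    ext n; change ξ (n + 1 - 1) = ξ n; rw [add_sub_cancel_right]
  right_inv ξ := by
    ext n; change ξ (n - 1 + 1) = ξ n; rw [sub_add_cancel]
  map_add' ξ η := rfl
  map_smul' c ξ := rfl
  norm_map' ξ := norm_comp_equiv p (Equiv.subRight (1 : ℤ)) ξ

@[simp] lemma shift_apply (ξ : lp (fun _ : ℤ => E) p) (n : ℤ) : shift p ξ n = ξ (n - 1) := rfl
@[simp] lemma shift_symm_apply (ξ : lp (fun _ : ℤ => E) p) (n : ℤ) :
    (shift p).symm ξ n = ξ (n + 1) := rfl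

lemma norm_act_le (h : X ≃ₜ X) (n : ℤ) (f : C(X, ℂ)) : ‖(alpha h).act n f‖ ≤ ‖f‖ := by
  rw [ContinuousMap.norm_le _ (norm_nonneg _)]
  intro x
  exact f.norm_coe_le_norm _

/-- the diagonal representation `(π(f) ξ)(n) = π₀(α^{-n}(f)) ξ(n)` of `C(X)` on `ℓ^p(ℤ, E)` -/
def regPi (h : X ≃ₜ X) (R : CRep X E) :
    C(X, ℂ) →ₐ[ℂ] (lp (fun _ : ℤ => E) p →L[ℂ] lp (fun _ : ℤ => E) p) :=
  AlgHom.ofLinearMap
    { toFun := fun f => lp.mapCLM p (fun n : ℤ => R.π ((alpha h).act (-n) f)) (norm_nonneg f)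
        (fun n => (R.contractive _).trans (norm_act_le h _ f))
      map_add' := fun f g => by
        ext ξ n
        change R.π ((alpha h).act (-n) (f + g)) (ξ n)
          = R.π ((alpha h).act (-n) f) (ξ n) + R.π ((alpha h).act (-n) g) (ξ n)
        rw [map_add, map_add]; rfl
      map_smul' := fun c f => by
        ext ξ n
        change R.π ((alpha h).act (-n) (c • f)) (ξ n) = c • R.π ((alpha h).act (-n) f) (ξ n)
        rw [map_smul, map_smul]; rfl }
    (by
      ext ξ n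
      change R.π ((alpha h).act (-n) 1) (ξ n) = ξ n
      rw [map_one, R.map_one]; rfl)
    (fun f g => by
      ext ξ n
      change R.π ((alpha h).act (-n) (f * g)) (ξ n)
        = R.π ((alpha h).act (-n) f) (R.π ((alpha h).act (-n) g) (ξ n))
      rw [map_mul, map_mul]; rfl)

lemma regPi_apply (h : X ≃ₜ X) (R : CRep X E) (f : C(X, ℂ)) (ξ : lp (fun _ : ℤ => E) p) (n : ℤ) :
    regPi p h R f ξ n = R.π ((alpha h).act (-n) f) (ξ n) := rfl

/-- The regular covariant representation on `ℓ^p(ℤ, E)` associated with a nondegenerate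
contractive representation `π₀` of `C(X)` on `E`:
`(π(f) ξ)(n) = π₀(α^{-n}(f)) ξ(n)`, `(v ξ)(n) = ξ(n - 1)`. -/
def regular (h : X ≃ₜ X) (R : CRep X E) : CovRep h (lp (fun _ : ℤ => E) p) where
  toCRep := CRep.ofAlgHom (regPi p h R) (fun f => lp.norm_mapCLM_le p
    (fun n : ℤ => R.π ((alpha h).act (-n) f)) (norm_nonneg f)
    (fun n => (R.contractive _).trans (norm_act_le h _ f)))
  v := shift p
  covariant f ξ := by
    ext n
    change R.π ((alpha h).act (-(n - 1)) f) (ξ (n - 1 + 1))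
      = R.π ((alpha h).act (-n) ((alpha h).act 1 f)) (ξ n)
    rw [← (alpha h).act_add, sub_add_cancel, show -(n - 1) = -n + 1 by ring]

end regular

/-- A nondegenerate contractive representation of `C(X)` on `L^p(Ω, μ)`, `μ` `σ`-finite. -/
structure LpRep (X : Type) [TopologicalSpace X] [CompactSpace X] where
  /-- the measure space -/
  Ω : Type
  [mΩ : MeasurableSpace Ω]
  /-- the measure -/
  μ : Measure Ω
  [sf : SigmaFinite μ]
  /-- the representation -/
  rep : CRep X (Lp ℂ p μ)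

attribute [instance] LpRep.mΩ LpRep.sf

/-- the family of all regular representations -/
def redFam (h : X ≃ₜ X) (R : LpRep p X) : SomeRep h where
  E := lp (fun _ : ℤ => Lp ℂ p R.μ) p
  rep := regular p h R.rep

/-- `F^p_r(ℤ, X, h)`. -/
abbrev RedCP (h : X ≃ₜ X) : Type := Compl (redFam p h)

end H309LP

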