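import Mathlib

/-!
# The gliding hump in `ℓ^p`
-/

open ENNReal Filter Topology

namespace H309LP

/-- `ℓ^p(ℤ)` -/
noncomputable abbrev Ell (p : ℝ≥0∞) := lp (fun _ : ℤ => ℂ) p

variable {p : ℝ≥0∞} [hp1 : Fact (1 ≤ p)]

lemma one_le_toReal (hp : p ≠ ∞) : 1 ≤ p.toReal := by
  have := ENNReal.toReal_mono hp hp1.out
  simpa using this

lemma finite_part (hp : p ≠ ∞) (x y : Ell p) (s : Finset ℤ) :
    ‖(∑ i ∈ s, lp.single p i (x i)) + y‖ ^ p.toReal - ‖y‖ ^ p.toReal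
      = ∑ i ∈ s, (‖x i + y i‖ ^ p.toReal - ‖y i‖ ^ p.toReal) := by
  have hq : 0 < p.toReal := by linarith [one_le_toReal hp]
  set xs : Ell p := ∑ i ∈ s, lp.single p i (x i) with hxs
  have hxi : ∀ i ∈ s, xs i = x i := by
    intro i hi
    rw [hxs, lp.coeFn_sum, Finset.sum_apply, Finset.sum_eq_single i]
    · exact lp.single_apply_self _ _ _
    · intro j _ hj
      exact lp.single_apply_ne _ _ _ hj.symm
    · intro h; exact absurd hi h
  have h1 := lp.norm_compl_sum_single hq (xs + y) s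
  have h2 := lp.norm_compl_sum_single hq y s
  have h3 : (xs + y) - ∑ i ∈ s, lp.single p i ((xs + y) i)
      = y - ∑ i ∈ s, lp.single p i (y i) := by
    have : ∑ i ∈ s, lp.single (E := fun _ : ℤ => ℂ) p i ((xs + y) i)
        = xs + ∑ i ∈ s, lp.single p i (y i) := by
      rw [hxs, ← Finset.sum_add_distrib]
      refine Finset.sum_congr rfl fun i hi => ?_
      rw [← lp.single_add]
      congr 1
      change xs i + y i = _
      rw [hxi i hi]
    rw [this]; abel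
  rw [h3, h2] at h1
  have h4 : ∑ i ∈ s, ‖(xs + y) i‖ ^ p.toReal = ∑ i ∈ s, ‖x i + y i‖ ^ p.toReal := by
    refine Finset.sum_congr rfl fun i hi => ?_
    change ‖xs i + y i‖ ^ p.toReal = _
    rw [hxi i hi]
  rw [h4] at h1
  rw [Finset.sum_sub_distrib]
  linarith

/-- Brezis–Lieb in `ℓ^p`. -/
lemma brezisLieb (hp : p ≠ ∞) (x : Ell p) (y : ℕ → Ell p) (D : ℝ) (hD : ∀ k, ‖y k‖ ≤ D)
    (hy : ∀ c : ℤ, Tendsto (fun k => y k c) atTop (𝓝 0)) :
    Tendsto (fun k => ‖x + y k‖ ^ p.toReal - ‖y k‖ ^ p.toReal) atTop (𝓝 (‖x‖ ^ p.toReal)) := by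
  have hq : 0 < p.toReal := by linarith [one_le_toReal hp]
  have hD0 : 0 ≤ D := (norm_nonneg _).trans (hD 0)
  have huc : UniformContinuousOn (fun t : ℝ => t ^ p.toReal) (Set.Icc 0 (‖x‖ + 1 + D)) :=
    isCompact_Icc.uniformContinuousOn_of_continuous
      (Real.continuous_rpow_const hq.le).continuousOn
  rw [Metric.tendsto_atTop]
  intro ε hε
  obtain ⟨δ, hδ, hδε⟩ := Metric.uniformContinuousOn_iff.1 huc (ε / 3) (by positivity)
  have hsum := (lp.hasSum_single hp x)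
  obtain ⟨s, hs⟩ := (Metric.tendsto_atTop.1 hsum) (min δ 1) (lt_min hδ one_pos)
  have hs' : ‖(∑ i ∈ s, lp.single p i (x i)) - x‖ < min δ 1 := by
    have := hs s le_rfl
    rwa [dist_eq_norm] at this
  set xs : Ell p := ∑ i ∈ s, lp.single p i (x i) with hxs
  have hxsn : ‖xs‖ ≤ ‖x‖ + 1 := by
    have : ‖xs‖ ≤ ‖x‖ + ‖xs - x‖ := by
      calc ‖xs‖ = ‖x + (xs - x)‖ := by congr 1; abel
        _ ≤ _ := norm_add_le _ _
    linarith [hs'.trans_le (min_le_right _ _)]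
  have hlim : Tendsto (fun k => ‖xs + y k‖ ^ p.toReal - ‖y k‖ ^ p.toReal) atTop
      (𝓝 (‖xs‖ ^ p.toReal)) := by
    have h1 : ∀ k, ‖xs + y k‖ ^ p.toReal - ‖y k‖ ^ p.toReal
        = ∑ i ∈ s, (‖x i + y k i‖ ^ p.toReal - ‖y k i‖ ^ p.toReal) := fun k =>
      finite_part hp x (y k) s
    simp_rw [h1]
    have h2 : ‖xs‖ ^ p.toReal = ∑ i ∈ s, (‖x i + 0‖ ^ p.toReal - ‖(0 : ℂ)‖ ^ p.toReal) := by
      rw [hxs, lp.norm_sum_single hq]
      refine Finset.sum_congr rfl fun i _ => ?_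
      rw [add_zero, norm_zero, Real.zero_rpow hq.ne', sub_zero]
    rw [h2]
    refine tendsto_finsetSum _ fun i _ => ?_
    have hc : Continuous fun z : ℂ => ‖x i + z‖ ^ p.toReal - ‖z‖ ^ p.toReal := by
      refine Continuous.sub ?_ ?_
      · exact (Real.continuous_rpow_const hq.le).comp (by fun_prop)
      · exact (Real.continuous_rpow_const hq.le).comp (by fun_prop)
    exact (hc.tendsto 0).comp (hy i)
  obtain ⟨K, hK⟩ := (Metric.tendsto_atTop.1 hlim) (ε / 3) (by positivity)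
  refine ⟨K, fun k hk => ?_⟩
  have e1 := hK k hk
  have e2 : dist (‖x + y k‖ ^ p.toReal) (‖xs + y k‖ ^ p.toReal) < ε / 3 := by
    refine hδε _ ⟨norm_nonneg _, ?_⟩ _ ⟨norm_nonneg _, ?_⟩ ?_
    · linarith [norm_add_le x (y k), hD k]
    · linarith [norm_add_le xs (y k), hD k]
    · rw [Real.dist_eq]
      have : |‖x + y k‖ - ‖xs + y k‖| ≤ ‖(x + y k) - (xs + y k)‖ := abs_norm_sub_norm_le _ _
      rw [add_sub_add_right_eq_sub, norm_sub_rev] at this
      exact this.trans_lt (hs'.trans_le (min_le_left _ _))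
  have e3 : dist (‖x‖ ^ p.toReal) (‖xs‖ ^ p.toReal) < ε / 3 := by
    refine hδε _ ⟨norm_nonneg _, ?_⟩ _ ⟨norm_nonneg _, ?_⟩ ?_
    · linarith
    · linarith
    · rw [Real.dist_eq]
      have : |‖x‖ - ‖xs‖| ≤ ‖x - xs‖ := abs_norm_sub_norm_le _ _
      rw [norm_sub_rev] at this
      exact this.trans_lt (hs'.trans_le (min_le_left _ _))
  rw [Real.dist_eq] at e1 e2 e3 ⊢
  rw [abs_lt] at e1 e2 e3 ⊢
  constructor <;> linarith [e1.1, e1.2, e2.1, e2.2, e3.1, e3.2]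

/-- Almost additivity of `‖·‖^p` along a suitable selection. -/
lemma select (hp : p ≠ ∞) (y : ℕ → ℕ → Ell p) (D : ℝ) (h2 : ∀ i k, ‖y i k‖ ≤ D)
    (h3 : ∀ i (c : ℤ), Tendsto (fun k => y i k c) atTop (𝓝 0)) (N : ℕ) :
    ∀ ε > 0, ∃ κ : ℕ → ℕ, (∀ i j, i < j → j < N → κ i < κ j) ∧
      |‖∑ i ∈ Finset.range N, y i (κ i)‖ ^ p.toReal
        - ∑ i ∈ Finset.range N, ‖y i (κ i)‖ ^ p.toReal| ≤ ε := by
  have hq : 0 < p.toReal := by linarith [one_le_toReal hp]
  induction N with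
  | zero =>
    intro ε hε
    refine ⟨fun _ => 0, by simp, ?_⟩
    simp [Real.zero_rpow hq.ne', hε.le]
  | succ N ih =>
    intro ε hε
    obtain ⟨κ, hκ, hκε⟩ := ih (ε / 2) (by positivity)
    set S := ∑ i ∈ Finset.range N, y i (κ i) with hS
    have hbl := brezisLieb hp S (y N) D (h2 N) (h3 N)
    obtain ⟨K, hK⟩ := (Metric.tendsto_atTop.1 hbl) (ε / 2) (by positivity)
    set k := K + (∑ i ∈ Finset.range N, (κ i + 1)) with hk
    have hkK : K ≤ k := by omega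
    have hkκ : ∀ i < N, κ i < k := by
      intro i hi
      have : κ i + 1 ≤ ∑ i ∈ Finset.range N, (κ i + 1) :=
        Finset.single_le_sum (f := fun i => κ i + 1) (fun _ _ => Nat.zero_le _)
          (Finset.mem_range.2 hi)
      omega
    have hupd : ∀ i < N, Function.update κ N k i = κ i := fun i hi =>
      Function.update_of_ne (by omega) _ _
    refine ⟨Function.update κ N k, ?_, ?_⟩
    · intro i j hij hj
      rcases Nat.lt_succ_iff_lt_or_eq.1 hj with hj' | rfl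
      · rw [hupd i (by omega), hupd j hj']; exact hκ i j hij hj'
      · rw [hupd i hij, Function.update_self]; exact hkκ i hij
    · rw [Finset.sum_range_succ, Finset.sum_range_succ, Function.update_self]
      have e1 : ∑ i ∈ Finset.range N, y i (Function.update κ N k i) = S :=
        Finset.sum_congr rfl fun i hi => by rw [hupd i (Finset.mem_range.1 hi)]
      have e2 : ∑ i ∈ Finset.range N, ‖y i (Function.update κ N k i)‖ ^ p.toReal
          = ∑ i ∈ Finset.range N, ‖y i (κ i)‖ ^ p.toReal :=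
        Finset.sum_congr rfl fun i hi => by rw [hupd i (Finset.mem_range.1 hi)]
      rw [e1, e2]
      have e3 := (hK k hkK).le
      rw [Real.dist_eq] at e3
      rw [abs_le] at e3 hκε ⊢
      constructor <;> linarith [e3.1, e3.2, hκε.1, hκε.2]

/-- The gliding hump. -/
lemma glidingHump (hp : p ≠ ∞) (y : ℕ → ℕ → Ell p) (δ D : ℝ) (hδ : 0 < δ)
    (h1 : ∀ i k, δ ≤ ‖y i k‖) (h2 : ∀ i k, ‖y i k‖ ≤ D)
    (h3 : ∀ i (c : ℤ), Tendsto (fun k => y i k c) atTop (𝓝 0)) (N : ℕ) :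
    ∃ κ : ℕ → ℕ, (∀ i j, i < j → j < N → κ i < κ j) ∧
      (δ / 2) ^ p.toReal * N ≤ ‖∑ i ∈ Finset.range N, y i (κ i)‖ ^ p.toReal ∧
      ‖∑ i ∈ Finset.range N, y i (κ i)‖ ^ p.toReal ≤ (2 * D) ^ p.toReal * N := by
  have hq1 := one_le_toReal hp
  have hq : 0 < p.toReal := by linarith
  rcases Nat.eq_zero_or_pos N with rfl | hN
  · exact ⟨fun _ => 0, by simp, by simp [Real.zero_rpow hq.ne'], by simp [Real.zero_rpow hq.ne']⟩
  have hδq : 0 < δ ^ p.toReal := Real.rpow_pos_of_pos hδ _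
  have hδD : δ ≤ D := (h1 0 0).trans (h2 0 0)
  have hD : 0 < D := hδ.trans_le hδD
  have hDq : δ ^ p.toReal ≤ D ^ p.toReal := Real.rpow_le_rpow hδ.le hδD hq.le
  obtain ⟨κ, hκ, hκε⟩ := select hp y D h2 h3 N (δ ^ p.toReal / 2) (by positivity)
  refine ⟨κ, hκ, ?_, ?_⟩
  · have e1 : (N : ℝ) * δ ^ p.toReal ≤ ∑ i ∈ Finset.range N, ‖y i (κ i)‖ ^ p.toReal := by
      have := Finset.card_nsmul_le_sum (Finset.range N) (fun i => ‖y i (κ i)‖ ^ p.toReal)
        (δ ^ p.toReal) (fun i _ => Real.rpow_le_rpow hδ.le (h1 i _) hq.le)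
      simpa using this
    have e2 : (δ / 2) ^ p.toReal ≤ δ ^ p.toReal / 2 := by
      rw [Real.div_rpow hδ.le (by norm_num)]
      refine div_le_div_of_nonneg_left hδq.le (by norm_num) ?_
      calc (2 : ℝ) = 2 ^ (1 : ℝ) := by norm_num
        _ ≤ 2 ^ p.toReal := Real.rpow_le_rpow_of_exponent_le (by norm_num) hq1
    have hN1 : (1 : ℝ) ≤ N := by exact_mod_cast hN
    rw [abs_le] at hκε
    nlinarith [hκε.1, hκε.2]
  · have e1 : ∑ i ∈ Finset.range N, ‖y i (κ i)‖ ^ p.toReal ≤ (N : ℝ) * D ^ p.toReal := by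
      have := Finset.sum_le_card_nsmul (Finset.range N) (fun i => ‖y i (κ i)‖ ^ p.toReal)
        (D ^ p.toReal) (fun i _ => Real.rpow_le_rpow (norm_nonneg _) (h2 i _) hq.le)
      simpa using this
    have e2 : 2 * D ^ p.toReal ≤ (2 * D) ^ p.toReal := by
      rw [Real.mul_rpow (by norm_num) hD.le]
      refine mul_le_mul_of_nonneg_right ?_ (Real.rpow_nonneg hD.le _)
      calc (2 : ℝ) = 2 ^ (1 : ℝ) := by norm_num
        _ ≤ 2 ^ p.toReal := Real.rpow_le_rpow_of_exponent_le (by norm_num) hq1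
    have hN1 : (1 : ℝ) ≤ N := by exact_mod_cast hN
    have hDq0 : 0 < D ^ p.toReal := Real.rpow_pos_of_pos hD _
    rw [abs_le] at hκε
    nlinarith [hκε.1, hκε.2]

end H309LP
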