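import Mathlib
import Pool.Agent.H309LP.Defs
import Pool.Agent.H309LP.GH

/-!
# Operators on `L^p`, `p ≠ 2`: isometries preserve disjointness; local operators
-/

open MeasureTheory ENNReal Filter Topology

noncomputable section

namespace H309LP

/-! ### A pointwise inequality -/

lemma strict_super {q A B : ℝ} (hq : 1 < q) (hA : 0 < A) (hB : 0 < B) :
    A ^ q + B ^ q < (A + B) ^ q := by
  have e : ∀ t : ℝ, 0 < t → t ^ q = t * t ^ (q - 1) := fun t ht => by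
    rw [show q = 1 + (q - 1) by ring, Real.rpow_add ht, Real.rpow_one]; ring_nf
  rw [e A hA, e B hB, e (A + B) (by positivity), add_mul]
  have h1 : A ^ (q - 1) < (A + B) ^ (q - 1) :=
    Real.rpow_lt_rpow hA.le (by linarith) (by linarith)
  have h2 : B ^ (q - 1) < (A + B) ^ (q - 1) :=
    Real.rpow_lt_rpow hB.le (by linarith) (by linarith)
  nlinarith

lemma strict_sub {q A B : ℝ} (hq : q < 1) (hA : 0 < A) (hB : 0 < B) :
    (A + B) ^ q < A ^ q + B ^ q := by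
  have e : ∀ t : ℝ, 0 < t → t ^ q = t * t ^ (q - 1) := fun t ht => by
    rw [show q = 1 + (q - 1) by ring, Real.rpow_add ht, Real.rpow_one]; ring_nf
  rw [e A hA, e B hB, e (A + B) (by positivity), add_mul]
  have h1 : (A + B) ^ (q - 1) < A ^ (q - 1) :=
    Real.rpow_lt_rpow_of_neg hA (by linarith) (by linarith)
  have h2 : (A + B) ^ (q - 1) < B ^ (q - 1) :=
    Real.rpow_lt_rpow_of_neg hB (by linarith) (by linarith)
  nlinarith

lemma norm_rpow_eq_sq (r : ℝ) (z : ℂ) : ‖z‖ ^ r = (‖z‖ ^ 2) ^ (r / 2) := by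
  rw [← Real.rpow_natCast, ← Real.rpow_mul (norm_nonneg _)]
  congr 1; push_cast; ring

lemma para (a b : ℂ) : ‖a + b‖ ^ 2 + ‖a - b‖ ^ 2 = 2 * (‖a‖ ^ 2 + ‖b‖ ^ 2) := by
  have := parallelogram_law_with_norm ℝ a b
  nlinarith [this]

/-- `D r a b = |a+b|^r + |a-b|^r - 2|a|^r - 2|b|^r` -/
def Dcl (r : ℝ) (a b : ℂ) : ℝ := ‖a + b‖ ^ r + ‖a - b‖ ^ r - 2 * (‖a‖ ^ r + ‖b‖ ^ r)

lemma Dcl_nonneg {r : ℝ} (hr : 2 < r) (a b : ℂ) : 0 ≤ Dcl r a b := by
  unfold Dcl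
  rw [norm_rpow_eq_sq r (a + b), norm_rpow_eq_sq r (a - b), norm_rpow_eq_sq r a,
    norm_rpow_eq_sq r b]
  have hq : 1 < r / 2 := by linarith
  have h1 := (convexOn_rpow hq.le).2 (Set.mem_Ici.2 (sq_nonneg ‖a + b‖))
    (Set.mem_Ici.2 (sq_nonneg ‖a - b‖)) (by norm_num : (0 : ℝ) ≤ 1 / 2)
    (by norm_num : (0 : ℝ) ≤ 1 / 2) (by norm_num)
  simp only [smul_eq_mul] at h1
  have h2 : 1 / 2 * ‖a + b‖ ^ 2 + 1 / 2 * ‖a - b‖ ^ 2 = ‖a‖ ^ 2 + ‖b‖ ^ 2 := by
    linarith [para a b]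
  rw [h2] at h1
  have h3 := Real.add_rpow_le_rpow_add (sq_nonneg ‖a‖) (sq_nonneg ‖b‖) hq.le
  linarith

lemma Dcl_pos {r : ℝ} (hr : 2 < r) {a b : ℂ} (ha : a ≠ 0) (hb : b ≠ 0) : 0 < Dcl r a b := by
  unfold Dcl
  rw [norm_rpow_eq_sq r (a + b), norm_rpow_eq_sq r (a - b), norm_rpow_eq_sq r a,
    norm_rpow_eq_sq r b]
  have hq : 1 < r / 2 := by linarith
  have h1 := (convexOn_rpow hq.le).2 (Set.mem_Ici.2 (sq_nonneg ‖a + b‖))
    (Set.mem_Ici.2 (sq_nonneg ‖a - b‖)) (by norm_num : (0 : ℝ) ≤ 1 / 2)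
    (by norm_num : (0 : ℝ) ≤ 1 / 2) (by norm_num)
  simp only [smul_eq_mul] at h1
  have h2 : 1 / 2 * ‖a + b‖ ^ 2 + 1 / 2 * ‖a - b‖ ^ 2 = ‖a‖ ^ 2 + ‖b‖ ^ 2 := by
    linarith [para a b]
  rw [h2] at h1
  have h3 := strict_super hq (pow_pos (norm_pos_iff.2 ha) 2) (pow_pos (norm_pos_iff.2 hb) 2)
  linarith

lemma Dcl_nonpos {r : ℝ} (hr0 : 0 < r) (hr : r < 2) (a b : ℂ) : Dcl r a b ≤ 0 := by
  by_cases ha : a = 0
  · subst ha; unfold Dcl; simp [Real.zero_rpow hr0.ne', two_mul]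
  by_cases hb : b = 0
  · subst hb; unfold Dcl; simp [Real.zero_rpow hr0.ne', two_mul]
  unfold Dcl
  rw [norm_rpow_eq_sq r (a + b), norm_rpow_eq_sq r (a - b), norm_rpow_eq_sq r a,
    norm_rpow_eq_sq r b]
  have hq : r / 2 < 1 := by linarith
  have h1 := (Real.concaveOn_rpow (p := r / 2) (by linarith) hq.le).2
    (Set.mem_Ici.2 (sq_nonneg ‖a + b‖))
    (Set.mem_Ici.2 (sq_nonneg ‖a - b‖)) (by norm_num : (0 : ℝ) ≤ 1 / 2)
    (by norm_num : (0 : ℝ) ≤ 1 / 2) (by norm_num)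
  simp only [smul_eq_mul] at h1
  have h2 : 1 / 2 * ‖a + b‖ ^ 2 + 1 / 2 * ‖a - b‖ ^ 2 = ‖a‖ ^ 2 + ‖b‖ ^ 2 := by
    linarith [para a b]
  rw [h2] at h1
  have h3 := strict_sub hq (pow_pos (norm_pos_iff.2 ha) 2) (pow_pos (norm_pos_iff.2 hb) 2)
  linarith

lemma Dcl_neg {r : ℝ} (hr0 : 0 < r) (hr : r < 2) {a b : ℂ} (ha : a ≠ 0) (hb : b ≠ 0) :
    Dcl r a b < 0 := by
  unfold Dcl
  rw [norm_rpow_eq_sq r (a + b), norm_rpow_eq_sq r (a - b), norm_rpow_eq_sq r a,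
    norm_rpow_eq_sq r b]
  have hq : r / 2 < 1 := by linarith
  have h1 := (Real.concaveOn_rpow (p := r / 2) (by linarith) hq.le).2
    (Set.mem_Ici.2 (sq_nonneg ‖a + b‖))
    (Set.mem_Ici.2 (sq_nonneg ‖a - b‖)) (by norm_num : (0 : ℝ) ≤ 1 / 2)
    (by norm_num : (0 : ℝ) ≤ 1 / 2) (by norm_num)
  simp only [smul_eq_mul] at h1
  have h2 : 1 / 2 * ‖a + b‖ ^ 2 + 1 / 2 * ‖a - b‖ ^ 2 = ‖a‖ ^ 2 + ‖b‖ ^ 2 := by
    linarith [para a b]
  rw [h2] at h1
  have h3 := strict_sub hq (pow_pos (norm_pos_iff.2 ha) 2) (pow_pos (norm_pos_iff.2 hb) 2)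
  linarith

/-! ### Norms in `L^p` -/

variable {Ω : Type} [MeasurableSpace Ω] {μ : Measure Ω} {p : ℝ≥0∞} [hp1 : Fact (1 ≤ p)]

lemma p_ne_zero : p ≠ 0 := fun h => by
  have := hp1.out; rw [h] at this; simp at this

lemma toReal_pos' (hp : p ≠ ∞) : 0 < p.toReal := by linarith [one_le_toReal hp]

lemma norm_rpow_eq (hp : p ≠ ∞) (f : Lp ℂ p μ) :
    ‖f‖ ^ p.toReal = ∫ x, ‖f x‖ ^ p.toReal ∂μ := by
  have hq := toReal_pos' hp
  have h0 : 0 ≤ ∫ x, ‖f x‖ ^ p.toReal ∂μ :=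
    integral_nonneg fun x => Real.rpow_nonneg (norm_nonneg _) _
  rw [Lp.norm_def, (Lp.memLp f).eLpNorm_eq_integral_rpow_norm p_ne_zero hp,
    ENNReal.toReal_ofReal (Real.rpow_nonneg h0 _), ← Real.rpow_mul h0, inv_mul_cancel₀ hq.ne',
    Real.rpow_one]

lemma integrable_rpow (hp : p ≠ ∞) (f : Lp ℂ p μ) :
    Integrable (fun x => ‖f x‖ ^ p.toReal) μ :=
  (Lp.memLp f).integrable_norm_rpow p_ne_zero hp

lemma norm_add_rpow_of_disj (hp : p ≠ ∞) {f g : Lp ℂ p μ} (h : ∀ᵐ x ∂μ, f x = 0 ∨ g x = 0) :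
    ‖f + g‖ ^ p.toReal = ‖f‖ ^ p.toReal + ‖g‖ ^ p.toReal := by
  have hq := toReal_pos' hp
  rw [norm_rpow_eq hp, norm_rpow_eq hp, norm_rpow_eq hp,
    ← integral_add (integrable_rpow hp f) (integrable_rpow hp g)]
  refine integral_congr_ae ?_
  filter_upwards [h, Lp.coeFn_add f g] with x hx hfg
  rw [hfg, Pi.add_apply]
  rcases hx with hx | hx <;> rw [hx] <;> simp [Real.zero_rpow hq.ne']

lemma norm_sub_rpow_of_disj (hp : p ≠ ∞) {f g : Lp ℂ p μ} (h : ∀ᵐ x ∂μ, f x = 0 ∨ g x = 0) :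
    ‖f - g‖ ^ p.toReal = ‖f‖ ^ p.toReal + ‖g‖ ^ p.toReal := by
  rw [sub_eq_add_neg, norm_add_rpow_of_disj hp, norm_neg]
  filter_upwards [h, Lp.coeFn_neg g] with x hx hg
  rw [hg, Pi.neg_apply, neg_eq_zero]; exact hx

/-- Isometries of `L^p`, `p ≠ 2`, preserve disjointness. -/
lemma isometry_disj (hp : p ≠ ∞) (hp2 : p ≠ 2) (U : Lp ℂ p μ →L[ℂ] Lp ℂ p μ)
    (hU : ∀ f, ‖U f‖ = ‖f‖) {f g : Lp ℂ p μ} (h : ∀ᵐ x ∂μ, f x = 0 ∨ g x = 0) :
    ∀ᵐ x ∂μ, U f x = 0 ∨ U g x = 0 := by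
  have hq := toReal_pos' hp
  have hr2 : p.toReal ≠ 2 := by
    intro h2
    apply hp2
    rw [← ENNReal.ofReal_toReal hp, h2]; simp
  set F := U f
  set G := U g
  have e1 : ‖F + G‖ ^ p.toReal + ‖F - G‖ ^ p.toReal
      = 2 * (‖F‖ ^ p.toReal + ‖G‖ ^ p.toReal) := by
    have h1 : ‖F + G‖ = ‖f + g‖ := by rw [← hU (f + g), map_add]
    have h2 : ‖F - G‖ = ‖f - g‖ := by rw [← hU (f - g), map_sub]
    rw [h1, h2, norm_add_rpow_of_disj hp h, norm_sub_rpow_of_disj hp h, hU, hU]; ring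
  have hint : Integrable (fun x => Dcl p.toReal (F x) (G x)) μ := by
    have i1 := integrable_rpow hp (F + G)
    have i2 := integrable_rpow hp (F - G)
    have i3 := integrable_rpow hp F
    have i4 := integrable_rpow hp G
    have i5 := (i1.add i2).sub ((i3.add i4).const_mul 2)
    refine i5.congr ?_
    filter_upwards [Lp.coeFn_add F G, Lp.coeFn_sub F G] with x h1 h2
    simp only [Pi.add_apply, Pi.sub_apply, h1, h2, Dcl]
  have hzero : ∫ x, Dcl p.toReal (F x) (G x) ∂μ = 0 := by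
    have i1 := integrable_rpow hp (F + G)
    have i2 := integrable_rpow hp (F - G)
    have i3 := integrable_rpow hp F
    have i4 := integrable_rpow hp G
    have : ∫ x, Dcl p.toReal (F x) (G x) ∂μ
        = ∫ x, ((‖(F + G : Lp ℂ p μ) x‖ ^ p.toReal + ‖(F - G : Lp ℂ p μ) x‖ ^ p.toReal)
          - 2 * (‖F x‖ ^ p.toReal + ‖G x‖ ^ p.toReal)) ∂μ := by
      refine integral_congr_ae ?_
      filter_upwards [Lp.coeFn_add F G, Lp.coeFn_sub F G] with x h1 h2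
      simp only [Pi.add_apply, Pi.sub_apply, h1, h2, Dcl]
    have s1 := integral_sub (i1.add i2) ((i3.add i4).const_mul 2)
    simp only [Pi.add_apply] at s1
    rw [this, s1, integral_add i1 i2,
      integral_const_mul, integral_add i3 i4, ← norm_rpow_eq hp, ← norm_rpow_eq hp,
      ← norm_rpow_eq hp, ← norm_rpow_eq hp, e1, sub_self]
  rcases lt_or_gt_of_ne hr2 with hlt | hgt
  · have hneg : ∫ x, -Dcl p.toReal (F x) (G x) ∂μ = 0 := by rw [integral_neg, hzero, neg_zero]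
    have := (integral_eq_zero_iff_of_nonneg
      (fun x => neg_nonneg.2 (Dcl_nonpos hq hlt (F x) (G x))) hint.neg).1 hneg
    filter_upwards [this] with x hx
    by_contra hcon
    push Not at hcon
    have := Dcl_neg hq hlt hcon.1 hcon.2
    simp only [Pi.zero_apply, neg_eq_zero] at hx
    exact absurd hx this.ne
  · have := (integral_eq_zero_iff_of_nonneg
      (fun x => Dcl_nonneg hgt (F x) (G x)) hint).1 hzero
    filter_upwards [this] with x hx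
    by_contra hcon
    push Not at hcon
    have := Dcl_pos hgt hcon.1 hcon.2
    simp only [Pi.zero_apply] at hx
    exact absurd hx this.ne'

/-! ### Local operators -/

/-- restriction of `f` to a measurable set, extended by zero -/
def res (E : Set Ω) (hE : MeasurableSet E) (f : Lp ℂ p μ) : Lp ℂ p μ :=
  ((Lp.memLp f).indicator hE).toLp

omit hp1 in
lemma res_coe (E : Set Ω) (hE : MeasurableSet E) (f : Lp ℂ p μ) :
    res E hE f =ᵐ[μ] E.indicator f := MemLp.coeFn_toLp _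

/-- An operator is local if `f = 0` on `E` implies `T f = 0` on `E`. -/
def IsLocal (T : Lp ℂ p μ →L[ℂ] Lp ℂ p μ) : Prop :=
  ∀ E : Set Ω, MeasurableSet E → ∀ f : Lp ℂ p μ, (∀ᵐ x ∂μ, x ∈ E → f x = 0) →
    ∀ᵐ x ∂μ, x ∈ E → T f x = 0

lemma IsLocal.add {T S : Lp ℂ p μ →L[ℂ] Lp ℂ p μ} (hT : IsLocal T) (hS : IsLocal S) :
    IsLocal (T + S) := by
  intro E hE f hf
  filter_upwards [hT E hE f hf, hS E hE f hf, Lp.coeFn_add (T f) (S f)] with x h1 h2 h3 hx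
  change (T f + S f : Lp ℂ p μ) x = 0
  rw [h3, Pi.add_apply, h1 hx, h2 hx, add_zero]

lemma IsLocal.smul {T : Lp ℂ p μ →L[ℂ] Lp ℂ p μ} (hT : IsLocal T) (c : ℂ) :
    IsLocal (c • T) := by
  intro E hE f hf
  filter_upwards [hT E hE f hf, Lp.coeFn_smul c (T f)] with x h1 h3 hx
  change (c • T f : Lp ℂ p μ) x = 0
  rw [h3, Pi.smul_apply, h1 hx, smul_zero]

lemma isLocal_of_isometry (hp : p ≠ ∞) (hp2 : p ≠ 2) (U : Lp ℂ p μ →L[ℂ] Lp ℂ p μ)
    (hU : ∀ f, ‖U f‖ = ‖f‖) (hU1 : ‖U - 1‖ < 1) : IsLocal U := by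
  intro E hE f hf
  have hmeas : MeasurableSet {x | U f x ≠ 0} := by
    have := (Lp.stronglyMeasurable (U f)).measurable
    exact (measurableSet_eq_fun this measurable_const).compl
  set G : Set Ω := E ∩ {x | U f x ≠ 0} with hG
  have hGm : MeasurableSet G := hE.inter hmeas
  set k := res G hGm (U f) with hk
  have hkc := res_coe G hGm (U f)
  have hdisj : ∀ᵐ x ∂μ, k x = 0 ∨ f x = 0 := by
    filter_upwards [hkc, hf] with x h1 h2
    by_cases hx : x ∈ G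
    · exact Or.inr (h2 hx.1)
    · left; rw [h1, Set.indicator_of_notMem hx]
  have h1 := isometry_disj hp hp2 U hU hdisj
  have h2 : ‖k‖ ≤ ‖(U - 1) k‖ := by
    refine Lp.norm_le_norm_of_ae_le ?_
    have e : (U - 1) k = U k - k := rfl
    rw [e]
    filter_upwards [h1, hkc, Lp.coeFn_sub (U k) k] with x h1 h2 h3
    rw [h3, Pi.sub_apply]
    by_cases hx : x ∈ G
    · have : U k x = 0 := h1.resolve_right hx.2
      rw [this, zero_sub, norm_neg]
    · rw [h2, Set.indicator_of_notMem hx, norm_zero]; exact norm_nonneg _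
  have h3 : ‖k‖ ≤ ‖U - 1‖ * ‖k‖ := h2.trans ((U - 1).le_opNorm k)
  have h4 : ‖k‖ = 0 := by
    by_contra hne
    have : 0 < ‖k‖ := lt_of_le_of_ne (norm_nonneg _) (Ne.symm hne)
    nlinarith
  have h5 : k = 0 := norm_eq_zero.1 h4
  have h6 : k =ᵐ[μ] 0 := by rw [h5]; exact Lp.coeFn_zero _ _ _
  filter_upwards [hkc, h6] with x h7 h8 hx
  by_contra hne
  have hxG : x ∈ G := ⟨hx, hne⟩
  rw [h7, Set.indicator_of_mem hxG] at h8
  exact hne h8

lemma IsLocal.bound (hp : p ≠ ∞) {T : Lp ℂ p μ →L[ℂ] Lp ℂ p μ} (hT : IsLocal T)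
    (f : Lp ℂ p μ) : ∀ᵐ x ∂μ, ‖T f x‖ ≤ ‖T‖ * ‖f x‖ := by
  have hq := toReal_pos' hp
  have key : (fun x => ‖T f x‖ ^ p.toReal) ≤ᵐ[μ] fun x => ‖T‖ ^ p.toReal * ‖f x‖ ^ p.toReal := by
    refine ae_le_of_forall_setIntegral_le (integrable_rpow hp _)
      ((integrable_rpow hp f).const_mul _) fun s hs _ => ?_
    have hres := res_coe s hs f
    have hzero : ∀ᵐ x ∂μ, x ∈ s → (f - res s hs f : Lp ℂ p μ) x = 0 := by
      filter_upwards [Lp.coeFn_sub f (res s hs f), hres] with x h1 h2 hx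
      rw [h1, Pi.sub_apply, h2, Set.indicator_of_mem hx, sub_self]
    have hloc := hT s hs _ hzero
    have hTs : ∀ᵐ x ∂μ, x ∈ s → T f x = T (res s hs f) x := by
      rw [map_sub] at hloc
      filter_upwards [hloc, Lp.coeFn_sub (T f) (T (res s hs f))] with x h1 h2 hx
      have := h1 hx
      rw [h2, Pi.sub_apply, sub_eq_zero] at this
      exact this
    calc ∫ x in s, ‖T f x‖ ^ p.toReal ∂μ
        = ∫ x in s, ‖T (res s hs f) x‖ ^ p.toReal ∂μ := by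
          refine setIntegral_congr_ae hs ?_
          filter_upwards [hTs] with x hx hxs
          rw [hx hxs]
      _ ≤ ∫ x, ‖T (res s hs f) x‖ ^ p.toReal ∂μ :=
          setIntegral_le_integral (integrable_rpow hp _)
            (Eventually.of_forall fun x => Real.rpow_nonneg (norm_nonneg _) _)
      _ = ‖T (res s hs f)‖ ^ p.toReal := (norm_rpow_eq hp _).symm
      _ ≤ (‖T‖ * ‖res s hs f‖) ^ p.toReal :=
          Real.rpow_le_rpow (norm_nonneg _) (T.le_opNorm _) hq.le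
      _ = ‖T‖ ^ p.toReal * ‖res s hs f‖ ^ p.toReal :=
          Real.mul_rpow (norm_nonneg _) (norm_nonneg _)
      _ = ‖T‖ ^ p.toReal * ∫ x, ‖res s hs f x‖ ^ p.toReal ∂μ := by rw [norm_rpow_eq hp]
      _ = ‖T‖ ^ p.toReal * ∫ x in s, ‖f x‖ ^ p.toReal ∂μ := by
          congr 1
          rw [← integral_indicator hs]
          refine integral_congr_ae ?_
          filter_upwards [hres] with x h2
          rw [h2]
          by_cases hx : x ∈ s
          · rw [Set.indicator_of_mem hx, Set.indicator_of_mem hx]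
          · rw [Set.indicator_of_notMem hx, Set.indicator_of_notMem hx, norm_zero,
              Real.zero_rpow hq.ne']
      _ = ∫ x in s, ‖T‖ ^ p.toReal * ‖f x‖ ^ p.toReal ∂μ := by rw [integral_const_mul]
  filter_upwards [key] with x hx
  rw [← Real.mul_rpow (norm_nonneg _) (norm_nonneg _)] at hx
  exact (Real.rpow_le_rpow_iff (norm_nonneg _) (by positivity) hq).1 hx

/-- A local operator is a multiplication operator. -/
lemma IsLocal.mul_comm' (hp : p ≠ ∞) {T : Lp ℂ p μ →L[ℂ] Lp ℂ p μ} (hT : IsLocal T)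
    (ξ η : Lp ℂ p μ) : ∀ᵐ x ∂μ, η x * T ξ x = ξ x * T η x := by
  have h1 : ∀ᵐ x ∂μ, ∀ n : ℕ,
      ‖T ξ x - TopologicalSpace.denseSeq ℂ n * T η x‖
        ≤ ‖T‖ * ‖ξ x - TopologicalSpace.denseSeq ℂ n * η x‖ := by
    rw [ae_all_iff]
    intro n
    set q := TopologicalSpace.denseSeq ℂ n
    have e : T (ξ - q • η) = T ξ - q • T η := by rw [map_sub, map_smul]
    filter_upwards [hT.bound hp (ξ - q • η), Lp.coeFn_sub ξ (q • η), Lp.coeFn_smul q η,
      Lp.coeFn_sub (T ξ) (q • T η), Lp.coeFn_smul q (T η)] with x h1 h2 h3 h4 h5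
    rw [e, h4, Pi.sub_apply, h5, Pi.smul_apply, h2, Pi.sub_apply, h3, Pi.smul_apply] at h1
    exact h1
  filter_upwards [h1, hT.bound hp η] with x hx hη
  have h2 : ∀ q : ℂ, ‖T ξ x - q * T η x‖ ≤ ‖T‖ * ‖ξ x - q * η x‖ := by
    have hcl : IsClosed {q : ℂ | ‖T ξ x - q * T η x‖ ≤ ‖T‖ * ‖ξ x - q * η x‖} :=
      isClosed_le (by fun_prop) (by fun_prop)
    intro q
    have hd : q ∈ closure (Set.range (TopologicalSpace.denseSeq ℂ)) :=
      TopologicalSpace.denseRange_denseSeq ℂ q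
    exact closure_minimal (by rintro _ ⟨n, rfl⟩; exact hx n) hcl hd
  by_cases h0 : η x = 0
  · rw [h0, norm_zero, mul_zero] at hη
    have : T η x = 0 := norm_le_zero_iff.1 hη
    rw [h0, this, zero_mul, mul_zero]
  · have := h2 (ξ x / η x)
    rw [div_mul_cancel₀ _ h0, sub_self, norm_zero, mul_zero, norm_le_zero_iff, sub_eq_zero] at this
    rw [this]; field_simp

end H309LP
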