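import Mathlib
import Pool.Agent.H309LP.Local

/-!
# Contractive representations of `C(X)` on `L^p`, `p ≠ 2`, act by multiplication operators
-/

open MeasureTheory ENNReal Filter Topology

noncomputable section

namespace H309LP

variable {X : Type} [TopologicalSpace X] [CompactSpace X]

/-! ### Unimodular functions -/

lemma CRep.isometry_of_unitary {E : Type} [NormedAddCommGroup E] [NormedSpace ℂ E]
    (R : CRep X E) {u w : C(X, ℂ)} (hu : ‖u‖ ≤ 1) (hw : ‖w‖ ≤ 1) (huw : w * u = 1) (ξ : E) :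
    ‖R.π u ξ‖ = ‖ξ‖ := by
  refine le_antisymm ?_ ?_
  · calc ‖R.π u ξ‖ ≤ ‖R.π u‖ * ‖ξ‖ := (R.π u).le_opNorm ξ
      _ ≤ 1 * ‖ξ‖ := mul_le_mul_of_nonneg_right ((R.contractive u).trans hu) (norm_nonneg _)
      _ = ‖ξ‖ := one_mul _
  · have e : R.π w (R.π u ξ) = ξ := by
      have : R.π (w * u) ξ = R.π w (R.π u ξ) := by rw [map_mul]; rfl
      rw [← this, huw, R.map_one]; rfl
    calc ‖ξ‖ = ‖R.π w (R.π u ξ)‖ := by rw [e]
      _ ≤ ‖R.π w‖ * ‖R.π u ξ‖ := (R.π w).le_opNorm _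
      _ ≤ 1 * ‖R.π u ξ‖ := mul_le_mul_of_nonneg_right ((R.contractive w).trans hw) (norm_nonneg _)
      _ = _ := one_mul _

/-- For real `g` with `|g| ≤ 1/2`, the unimodular function `√(1-g²) - i g`. -/
def uni (g : C(X, ℝ)) : C(X, ℂ) :=
  ⟨fun x => (Real.sqrt (1 - g x ^ 2) : ℂ) - (g x : ℂ) * Complex.I, by
    have := g.continuous
    fun_prop⟩

lemma uni_apply (g : C(X, ℝ)) (x : X) :
    uni g x = (Real.sqrt (1 - g x ^ 2) : ℂ) - (g x : ℂ) * Complex.I := rfl

lemma normSq_uni {g : C(X, ℝ)} (hg : ∀ x, |g x| ≤ 1 / 2) (x : X) : ‖uni g x‖ ^ 2 = 1 := by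
  have h1 : 0 ≤ 1 - g x ^ 2 := by nlinarith [sq_abs (g x), hg x, abs_nonneg (g x)]
  rw [← Complex.normSq_eq_norm_sq, uni_apply, Complex.normSq_apply]
  simp
  nlinarith [Real.mul_self_sqrt h1]

lemma norm_uni {g : C(X, ℝ)} (hg : ∀ x, |g x| ≤ 1 / 2) (x : X) : ‖uni g x‖ = 1 := by
  have := normSq_uni hg x
  nlinarith [norm_nonneg (uni g x), sq_nonneg (‖uni g x‖ - 1)]

lemma norm_uni_le {g : C(X, ℝ)} (hg : ∀ x, |g x| ≤ 1 / 2) : ‖uni g‖ ≤ 1 := by
  rw [ContinuousMap.norm_le _ zero_le_one]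
  exact fun x => (norm_uni hg x).le

lemma star_uni_mul {g : C(X, ℝ)} (hg : ∀ x, |g x| ≤ 1 / 2) : star (uni g) * uni g = 1 := by
  ext x
  rw [ContinuousMap.mul_apply, ContinuousMap.star_apply, ContinuousMap.one_apply]
  have : star (uni g x) * uni g x = (Complex.normSq (uni g x) : ℂ) := by
    rw [Complex.normSq_eq_conj_mul_self]; rfl
  rw [this, Complex.normSq_eq_norm_sq, normSq_uni hg x]; simp

lemma uni_mul_star {g : C(X, ℝ)} (hg : ∀ x, |g x| ≤ 1 / 2) : uni g * star (uni g) = 1 := by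
  rw [mul_comm, star_uni_mul hg]

lemma norm_uni_sub_one {g : C(X, ℝ)} (hg : ∀ x, |g x| ≤ 1 / 2) : ‖uni g - 1‖ < 1 := by
  refine lt_of_le_of_lt ((ContinuousMap.norm_le _ (by norm_num : (0 : ℝ) ≤ 2 / 3)).2 ?_)
    (by norm_num)
  intro x
  have h1 : 0 ≤ 1 - g x ^ 2 := by nlinarith [sq_abs (g x), hg x, abs_nonneg (g x)]
  have h2 : ‖(uni g - 1) x‖ ^ 2 ≤ (2 / 3) ^ 2 := by
    rw [← Complex.normSq_eq_norm_sq, ContinuousMap.sub_apply, ContinuousMap.one_apply, uni_apply,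
      Complex.normSq_apply]
    simp
    have h3 := Real.mul_self_sqrt h1
    have h4 : 7 / 9 ≤ Real.sqrt (1 - g x ^ 2) := by
      apply Real.le_sqrt_of_sq_le
      nlinarith [sq_abs (g x), hg x, abs_nonneg (g x)]
    nlinarith
  exact abs_le_of_sq_le_sq' h2 (by norm_num) |>.2

lemma norm_star_uni_sub_one {g : C(X, ℝ)} (hg : ∀ x, |g x| ≤ 1 / 2) : ‖star (uni g) - 1‖ < 1 := by
  have : star (uni g) - 1 = star (uni g - 1) := by rw [star_sub, star_one]
  rw [this, norm_star]; exact norm_uni_sub_one hg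

/-- the complexification of a real function -/
def cplx (g : C(X, ℝ)) : C(X, ℂ) := ⟨fun x => (g x : ℂ), by
  have := g.continuous
  fun_prop⟩

@[simp] lemma cplx_apply (g : C(X, ℝ)) (x : X) : cplx g x = (g x : ℂ) := rfl

lemma cplx_eq (g : C(X, ℝ)) :
    cplx g = (1 / (2 * Complex.I)) • (star (uni g) - uni g) := by
  ext x
  rw [ContinuousMap.smul_apply, ContinuousMap.sub_apply, ContinuousMap.star_apply, uni_apply]
  have : star ((Real.sqrt (1 - g x ^ 2) : ℂ) - (g x : ℂ) * Complex.I)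
      = (Real.sqrt (1 - g x ^ 2) : ℂ) + (g x : ℂ) * Complex.I := by
    simp
  rw [this, cplx_apply, smul_eq_mul]
  field_simp
  ring

/-- Every `f ∈ C(X)` is `c (g₁ + i g₂)` with `|g_i| ≤ 1/2` real. -/
lemma exists_decomp (f : C(X, ℂ)) : ∃ (c : ℝ) (g₁ g₂ : C(X, ℝ)), (∀ x, |g₁ x| ≤ 1 / 2) ∧
    (∀ x, |g₂ x| ≤ 1 / 2) ∧ f = (c : ℂ) • (cplx g₁ + Complex.I • cplx g₂) := by
  set M : ℝ := 2 * (‖f‖ + 1) with hM
  have hM0 : 0 < M := by positivity
  have hfc := f.continuous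
  refine ⟨M, ⟨fun x => (f x).re / M, by fun_prop⟩, ⟨fun x => (f x).im / M, by fun_prop⟩,
    fun x => ?_, fun x => ?_, ?_⟩
  · change |(f x).re / M| ≤ 1 / 2
    rw [abs_div, abs_of_pos hM0, div_le_iff₀ hM0, hM]
    have := (Complex.abs_re_le_norm (f x)).trans (f.norm_coe_le_norm x)
    linarith
  · change |(f x).im / M| ≤ 1 / 2
    rw [abs_div, abs_of_pos hM0, div_le_iff₀ hM0, hM]
    have := (Complex.abs_im_le_norm (f x)).trans (f.norm_coe_le_norm x)
    linarith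
  · ext x
    change f x = (M : ℂ) * (((f x).re / M : ℝ) + Complex.I * ((f x).im / M : ℝ))
    have hMc : (M : ℂ) ≠ 0 := by exact_mod_cast hM0.ne'
    push_cast
    conv_lhs => rw [← Complex.re_add_im (f x)]
    field_simp

variable {Ω : Type} [MeasurableSpace Ω] {μ : Measure Ω} {p : ℝ≥0∞} [hp1 : Fact (1 ≤ p)]

lemma CRep.isLocal_cplx (hp : p ≠ ∞) (hp2 : p ≠ 2) (R : CRep X (Lp ℂ p μ)) {g : C(X, ℝ)}
    (hg : ∀ x, |g x| ≤ 1 / 2) : IsLocal (R.π (cplx g)) := by
  have hs : ‖star (uni g)‖ ≤ 1 := by rw [norm_star]; exact norm_uni_le hg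
  have e : ∀ w : C(X, ℂ), R.π w - 1 = R.π (w - 1) := fun w => by rw [map_sub, R.map_one]
  have h1 : IsLocal (R.π (uni g)) := by
    refine isLocal_of_isometry hp hp2 _
      (fun f => R.isometry_of_unitary (norm_uni_le hg) hs (star_uni_mul hg) f) ?_
    rw [e]; exact (R.contractive _).trans_lt (norm_uni_sub_one hg)
  have h2 : IsLocal (R.π (star (uni g))) := by
    refine isLocal_of_isometry hp hp2 _
      (fun f => R.isometry_of_unitary hs (norm_uni_le hg) (uni_mul_star hg) f) ?_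
    rw [e]; exact (R.contractive _).trans_lt (norm_star_uni_sub_one hg)
  rw [cplx_eq, map_smul, map_sub, sub_eq_add_neg, ← neg_one_smul ℂ (R.π (uni g))]
  exact (h2.add (h1.smul _)).smul _

lemma CRep.isLocal (hp : p ≠ ∞) (hp2 : p ≠ 2) (R : CRep X (Lp ℂ p μ)) (f : C(X, ℂ)) :
    IsLocal (R.π f) := by
  obtain ⟨c, g₁, g₂, h1, h2, rfl⟩ := exists_decomp f
  rw [map_smul, map_add, map_smul]
  exact ((R.isLocal_cplx hp hp2 h1).add ((R.isLocal_cplx hp hp2 h2).smul _)).smul _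

/-- a nowhere vanishing element of `L^p` -/
lemma exists_nonvanishing [SigmaFinite μ] (hp : p ≠ ∞) :
    ∃ k : Lp ℂ p μ, ∀ᵐ x ∂μ, k x ≠ 0 := by
  have hq := toReal_pos' hp
  obtain ⟨g, hg, hgm, hgi⟩ := exists_pos_lintegral_lt_of_sigmaFinite μ (ε := 1) one_ne_zero
  set k : Ω → ℂ := fun x => (((g x : ℝ) ^ (1 / p.toReal) : ℝ) : ℂ) with hk
  have hkm : Measurable k := by
    refine Complex.measurable_ofReal.comp ?_
    exact (hgm.coe_nnreal_real).pow_const _
  have hmem : MemLp k p μ := by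
    refine ⟨hkm.aestronglyMeasurable, ?_⟩
    rw [eLpNorm_eq_lintegral_rpow_enorm_toReal p_ne_zero hp]
    refine ENNReal.rpow_lt_top_of_nonneg (by positivity) ?_
    have : ∀ x, ‖k x‖ₑ ^ p.toReal = (g x : ℝ≥0∞) := by
      intro x
      rw [← ofReal_norm, ENNReal.ofReal_rpow_of_nonneg (norm_nonneg _) hq.le]
      have : ‖k x‖ = (g x : ℝ) ^ (1 / p.toReal) := by
        rw [hk]; simp only [Complex.norm_real, Real.norm_eq_abs]
        exact abs_of_nonneg (Real.rpow_nonneg (NNReal.coe_nonneg _) _)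
      rw [this, ← Real.rpow_mul (NNReal.coe_nonneg _), one_div, inv_mul_cancel₀ hq.ne',
        Real.rpow_one]
      simp
    simp_rw [this]
    exact (hgi.trans one_lt_top).ne
  refine ⟨hmem.toLp, ?_⟩
  filter_upwards [hmem.coeFn_toLp] with x hx
  rw [hx, hk]
  simp only [ne_eq, Complex.ofReal_eq_zero]
  exact (Real.rpow_pos_of_pos (by exact_mod_cast hg x) _).ne'

/-- The multiplication model of a representation of `C(X)` on `L^p(Ω, μ)`, `p ≠ 2`. -/
structure MulModel (R : CRep X (Lp ℂ p μ)) where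
  /-- the multiplier of `f` -/
  m : C(X, ℂ) → Ω → ℂ
  apply : ∀ f ξ, ∀ᵐ x ∂μ, R.π f ξ x = m f x * ξ x
  bound : ∀ f, ∀ᵐ x ∂μ, ‖m f x‖ ≤ ‖f‖
  mul : ∀ f g, ∀ᵐ x ∂μ, m (f * g) x = m f x * m g x
  add : ∀ f g, ∀ᵐ x ∂μ, m (f + g) x = m f x + m g x
  smul : ∀ (c : ℂ) f, ∀ᵐ x ∂μ, m (c • f) x = c * m f x
  one : ∀ᵐ x ∂μ, m 1 x = 1

/-- every contractive representation on `L^p`, `p ≠ 2`, has a multiplication model -/
def CRep.model [SigmaFinite μ] (hp : p ≠ ∞) (hp2 : p ≠ 2) (R : CRep X (Lp ℂ p μ)) :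
    MulModel R :=
  let k := (exists_nonvanishing (μ := μ) hp).choose
  have hk : ∀ᵐ x ∂μ, k x ≠ 0 := (exists_nonvanishing (μ := μ) hp).choose_spec
  have happ : ∀ f ξ, ∀ᵐ x ∂μ, R.π f ξ x = R.π f k x / k x * ξ x := fun f ξ => by
    filter_upwards [hk, (R.isLocal hp hp2 f).mul_comm' hp ξ k] with x h1 h2
    field_simp
    rw [mul_comm, h2, mul_comm]
  { m := fun f x => R.π f k x / k x
    apply := happ
    bound := fun f => by
      filter_upwards [hk, (R.isLocal hp hp2 f).bound hp k] with x h1 h2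
      rw [norm_div, div_le_iff₀ (norm_pos_iff.2 h1)]
      exact h2.trans (mul_le_mul_of_nonneg_right (R.contractive f) (norm_nonneg _))
    mul := fun f g => by
      filter_upwards [hk, happ f (R.π g k)] with x h1 h2
      have : R.π (f * g) k = R.π f (R.π g k) := by rw [map_mul]; rfl
      rw [this, h2]; ring
    add := fun f g => by
      have : R.π (f + g) k = R.π f k + R.π g k := by rw [map_add]; rfl
      filter_upwards [Lp.coeFn_add (R.π f k) (R.π g k)] with x h1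
      rw [this, h1, Pi.add_apply]; ring
    smul := fun c f => by
      have : R.π (c • f) k = c • R.π f k := by rw [map_smul]; rfl
      filter_upwards [Lp.coeFn_smul c (R.π f k)] with x h1
      rw [this, h1, Pi.smul_apply, smul_eq_mul]; ring
    one := by
      have : R.π 1 k = k := by rw [R.map_one]; rfl
      filter_upwards [hk] with x h1
      rw [this, div_self h1] }

namespace MulModel

variable {R : CRep X (Lp ℂ p μ)} (M : MulModel R)

lemma sub (f g : C(X, ℂ)) : ∀ᵐ x ∂μ, M.m (f - g) x = M.m f x - M.m g x := by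
  have e : f - g = f + (-1 : ℂ) • g := by rw [neg_one_smul]; abel
  rw [e]
  filter_upwards [M.add f ((-1 : ℂ) • g), M.smul (-1) g] with x h1 h2
  rw [h1, h2]; ring

lemma star_uni {g : C(X, ℝ)} (hg : ∀ x, |g x| ≤ 1 / 2) :
    ∀ᵐ x ∂μ, M.m (star (uni g)) x = star (M.m (uni g) x) := by
  filter_upwards [M.bound (uni g), M.bound (star (uni g)), M.mul (star (uni g)) (uni g), M.one]
    with x h1 h2 h3 h4
  rw [star_uni_mul hg, h4] at h3
  rw [norm_star] at h2
  have h5 := h1.trans (norm_uni_le hg)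
  have h6 := h2.trans (norm_uni_le hg)
  set a := M.m (uni g) x
  set b := M.m (star (uni g)) x
  have h7 : ‖b‖ * ‖a‖ = 1 := by rw [← norm_mul, ← h3, norm_one]
  have h8 : ‖a‖ = 1 := by nlinarith [norm_nonneg a, norm_nonneg b]
  have h9 : star a * a = 1 := by
    have : star a * a = (Complex.normSq a : ℂ) := by
      rw [Complex.normSq_eq_conj_mul_self]; rfl
    rw [this, Complex.normSq_eq_norm_sq, h8]; simp
  have ha : a ≠ 0 := by intro h0; rw [h0, norm_zero] at h8; norm_num at h8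
  exact mul_right_cancel₀ ha (by rw [h9, ← h3])

lemma real_cplx {g : C(X, ℝ)} (hg : ∀ x, |g x| ≤ 1 / 2) :
    ∀ᵐ x ∂μ, star (M.m (cplx g) x) = M.m (cplx g) x := by
  rw [cplx_eq]
  filter_upwards [M.star_uni hg, M.smul (1 / (2 * Complex.I)) (star (uni g) - uni g),
    M.sub (star (uni g)) (uni g)] with x h1 h2 h3
  rw [h2, h3, h1]
  simp only [one_div, mul_inv_rev, Complex.inv_I, star_mul', star_sub, star_star]
  simp
  ring

/-- the model is a `*`-representation -/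
lemma star (f : C(X, ℂ)) : ∀ᵐ x ∂μ, M.m (Star.star f) x = Star.star (M.m f x) := by
  obtain ⟨c, g₁, g₂, h1, h2, rfl⟩ := exists_decomp f
  have e : Star.star ((c : ℂ) • (cplx g₁ + Complex.I • cplx g₂))
      = (c : ℂ) • (cplx g₁ + (-Complex.I) • cplx g₂) := by
    ext x
    simp
  rw [e]
  filter_upwards [M.real_cplx h1, M.real_cplx h2, M.smul (c : ℂ) (cplx g₁ + Complex.I • cplx g₂),
    M.smul (c : ℂ) (cplx g₁ + (-Complex.I) • cplx g₂), M.add (cplx g₁) (Complex.I • cplx g₂),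
    M.add (cplx g₁) ((-Complex.I) • cplx g₂), M.smul Complex.I (cplx g₂),
    M.smul (-Complex.I) (cplx g₂)] with x a1 a2 a3 a4 a5 a6 a7 a8
  rw [a3, a4, a5, a6, a7, a8, star_mul', star_add, star_mul', a1, a2]
  simp

end MulModel

end H309LP
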