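import Mathlib
import Pool.Agent.H309LP.Model

/-!
# Disintegration: the norm on `L^p(Ω, μ)`, `p ≠ 2`, is controlled by point evaluations
-/

open MeasureTheory ENNReal Filter Topology

noncomputable section

namespace H309LP

variable {X : Type} [TopologicalSpace X] [CompactSpace X]
variable {Ω : Type} [MeasurableSpace Ω] {μ : Measure Ω} {p : ℝ≥0∞} [hp1 : Fact (1 ≤ p)]

/-- `∑_i (f_i - z_i) (f_i - z_i)^*` -/
def Gf {n : ℕ} (f : Fin n → C(X, ℂ)) (z : Fin n → ℂ) : C(X, ℂ) :=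
  ∑ i, (f i - z i • (1 : C(X, ℂ))) * star (f i - z i • (1 : C(X, ℂ)))

lemma mul_star_eq (w : ℂ) : w * star w = ((‖w‖ ^ 2 : ℝ) : ℂ) := by
  rw [mul_comm, ← Complex.normSq_eq_norm_sq, Complex.normSq_eq_conj_mul_self]; rfl

omit [CompactSpace X] in
lemma Gf_apply {n : ℕ} (f : Fin n → C(X, ℂ)) (z : Fin n → ℂ) (x : X) :
    Gf f z x = ((∑ i, ‖f i x - z i‖ ^ 2 : ℝ) : ℂ) := by
  unfold Gf
  rw [ContinuousMap.sum_apply]
  push_cast
  refine Finset.sum_congr rfl fun i _ => ?_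
  change (f i x - z i • (1 : ℂ)) * star (f i x - z i • (1 : ℂ)) = _
  rw [smul_eq_mul, mul_one, mul_star_eq]
  push_cast; rfl

lemma MulModel.sum {R : CRep X (Lp ℂ p μ)} (M : MulModel R) {n : ℕ} (g : Fin n → C(X, ℂ)) :
    ∀ᵐ ω ∂μ, M.m (∑ i, g i) ω = ∑ i, M.m (g i) ω := by
  classical
  have : ∀ s : Finset (Fin n), ∀ᵐ ω ∂μ, M.m (∑ i ∈ s, g i) ω = ∑ i ∈ s, M.m (g i) ω := by
    intro s
    induction s using Finset.induction_on with
    | empty =>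
      filter_upwards [M.smul 0 0] with ω h
      simpa using h
    | insert a s ha ih =>
      rw [Finset.sum_insert ha]
      filter_upwards [ih, M.add (g a) (∑ i ∈ s, g i)] with ω h1 h2
      rw [h2, h1, Finset.sum_insert ha]
  exact this _

lemma MulModel.Gf_eq {R : CRep X (Lp ℂ p μ)} (M : MulModel R) {n : ℕ} (f : Fin n → C(X, ℂ))
    (z : Fin n → ℂ) :
    ∀ᵐ ω ∂μ, M.m (Gf f z) ω = ((∑ i, ‖M.m (f i) ω - z i‖ ^ 2 : ℝ) : ℂ) := by
  have h1 : ∀ i, ∀ᵐ ω ∂μ, M.m ((f i - z i • (1 : C(X, ℂ))) * Star.star (f i - z i • (1 : C(X, ℂ)))) ω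
      = ((‖M.m (f i) ω - z i‖ ^ 2 : ℝ) : ℂ) := by
    intro i
    filter_upwards [M.mul (f i - z i • (1 : C(X, ℂ))) (Star.star (f i - z i • (1 : C(X, ℂ)))),
      M.star (f i - z i • (1 : C(X, ℂ))), M.sub (f i) (z i • (1 : C(X, ℂ))),
      M.smul (z i) 1, M.one] with ω a1 a2 a3 a4 a5
    rw [a1, a2, a3, a4, a5, mul_one, mul_star_eq]
  have h2 := ae_all_iff.2 h1
  filter_upwards [h2, M.sum fun i => (f i - z i • (1 : C(X, ℂ))) * Star.star (f i - z i • (1 : C(X, ℂ)))]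
    with ω a1 a2
  unfold Gf
  rw [a2]
  push_cast
  refine Finset.sum_congr rfl fun i _ => ?_
  rw [a1 i]; push_cast; rfl

/-- lower bound for the multiplier of a function bounded below -/
lemma MulModel.lower {R : CRep X (Lp ℂ p μ)} (M : MulModel R) (G : C(X, ℂ)) {c : ℝ} (hc : 0 < c)
    (hG : ∀ x, c ≤ ‖G x‖) : ∀ᵐ ω ∂μ, c ≤ ‖M.m G ω‖ := by
  have hne : ∀ x, G x ≠ 0 := fun x h0 => by
    have := hG x; rw [h0, norm_zero] at this; linarith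
  set H : C(X, ℂ) := ⟨fun x => (G x)⁻¹, G.continuous.inv₀ hne⟩ with hH
  have hHn : ‖H‖ ≤ c⁻¹ := by
    rw [ContinuousMap.norm_le _ (by positivity)]
    intro x
    change ‖(G x)⁻¹‖ ≤ c⁻¹
    rw [norm_inv]
    exact inv_anti₀ hc (hG x)
  have hGH : G * H = 1 := by
    ext x; exact mul_inv_cancel₀ (hne x)
  filter_upwards [M.mul G H, M.one, M.bound H] with ω h1 h2 h3
  rw [hGH, h2] at h1
  have h4 : ‖M.m G ω‖ * ‖M.m H ω‖ = 1 := by rw [← norm_mul, ← h1, norm_one]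
  have h5 := h3.trans hHn
  have h6 : 0 ≤ ‖M.m G ω‖ := norm_nonneg _
  have h7 : ‖M.m G ω‖ * ‖M.m H ω‖ ≤ ‖M.m G ω‖ * c⁻¹ := mul_le_mul_of_nonneg_left h5 h6
  rw [h4, ← div_eq_mul_inv, le_div_iff₀ hc, one_mul] at h7
  exact h7

/-- For finitely many functions, almost every `ω` is represented by a point of `X`. -/
lemma MulModel.point [Nonempty X] {R : CRep X (Lp ℂ p μ)} (M : MulModel R) {n : ℕ}
    (f : Fin n → C(X, ℂ)) : ∀ᵐ ω ∂μ, ∃ x : X, ∀ i, M.m (f i) ω = f i x := by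
  set z := TopologicalSpace.denseSeq (Fin n → ℂ) with hz
  have h1 : ∀ᵐ ω ∂μ, ∀ j, M.m (Gf f (z j)) ω = ((∑ i, ‖M.m (f i) ω - z j i‖ ^ 2 : ℝ) : ℂ) :=
    ae_all_iff.2 fun j => M.Gf_eq f (z j)
  have h2 : ∀ᵐ ω ∂μ, ∀ j : ℕ, ∀ k : ℕ, (∀ x, 1 / ((k : ℝ) + 1) ≤ ‖Gf f (z j) x‖) →
      1 / ((k : ℝ) + 1) ≤ ‖M.m (Gf f (z j)) ω‖ := by
    rw [ae_all_iff]; intro j
    rw [ae_all_iff]; intro k
    by_cases hk : ∀ x, 1 / ((k : ℝ) + 1) ≤ ‖Gf f (z j) x‖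
    · filter_upwards [M.lower (Gf f (z j)) (by positivity) hk] with ω hω _
      exact hω
    · exact Eventually.of_forall fun ω h => absurd h hk
  filter_upwards [h1, h2] with ω a1 a2
  by_contra hcon
  push Not at hcon
  set w : Fin n → ℂ := fun i => M.m (f i) ω with hw
  -- the function `H(x) = ∑ |f_i(x) - w_i|²` is positive
  have hHc : Continuous fun x : X => ∑ i, ‖f i x - w i‖ ^ 2 := by
    refine continuous_finsetSum _ fun i _ => ?_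
    have := (f i).continuous
    fun_prop
  obtain ⟨x₀, -, hx₀⟩ := isCompact_univ.exists_isMinOn Set.univ_nonempty hHc.continuousOn
  have hpos : 0 < ∑ i, ‖f i x₀ - w i‖ ^ 2 := by
    obtain ⟨i, hi⟩ := hcon x₀
    refine Finset.sum_pos' (fun j _ => sq_nonneg _) ⟨i, Finset.mem_univ _, ?_⟩
    refine pow_pos (norm_pos_iff.2 ?_) 2
    rw [sub_ne_zero]; exact fun h => hi h.symm
  set c₀ := ∑ i, ‖f i x₀ - w i‖ ^ 2 with hc₀
  obtain ⟨k, hk⟩ := exists_nat_one_div_lt (show 0 < c₀ / 4 by positivity)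
  -- choose `z_j` close to `w`
  have hcont : Continuous fun z : Fin n → ℂ => ∑ i, ‖w i - z i‖ ^ 2 := by
    refine continuous_finsetSum _ fun i _ => ?_
    fun_prop
  have hopen : IsOpen {z : Fin n → ℂ | ∑ i, ‖w i - z i‖ ^ 2 < 1 / ((k : ℝ) + 1)} :=
    isOpen_lt hcont continuous_const
  have hne : {z : Fin n → ℂ | ∑ i, ‖w i - z i‖ ^ 2 < 1 / ((k : ℝ) + 1)}.Nonempty := by
    refine ⟨w, ?_⟩
    simp only [Set.mem_ofPred_eq, sub_self, norm_zero]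
    simp; positivity
  obtain ⟨j, hj⟩ := (TopologicalSpace.denseRange_denseSeq (Fin n → ℂ)).exists_mem_open hopen hne
  simp only [Set.mem_ofPred_eq] at hj
  have hlow : ∀ x, 1 / ((k : ℝ) + 1) ≤ ‖Gf f (z j) x‖ := by
    intro x
    rw [Gf_apply, Complex.norm_real, Real.norm_eq_abs,
      abs_of_nonneg (Finset.sum_nonneg fun i _ => sq_nonneg _)]
    have e1 : ∑ i, ‖f i x - w i‖ ^ 2
        ≤ 2 * ∑ i, ‖f i x - z j i‖ ^ 2 + 2 * ∑ i, ‖w i - z j i‖ ^ 2 := by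
      rw [Finset.mul_sum, Finset.mul_sum, ← Finset.sum_add_distrib]
      refine Finset.sum_le_sum fun i _ => ?_
      have := norm_sub_le (f i x - z j i) (w i - z j i)
      rw [sub_sub_sub_cancel_right] at this
      nlinarith [norm_nonneg (f i x - w i), norm_nonneg (f i x - z j i), norm_nonneg (w i - z j i),
        sq_nonneg (‖f i x - z j i‖ - ‖w i - z j i‖)]
    have e2 : c₀ ≤ ∑ i, ‖f i x - w i‖ ^ 2 := hx₀ (Set.mem_univ x)
    linarith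
  have h3 := a2 j k hlow
  rw [a1 j, Complex.norm_real, Real.norm_eq_abs,
    abs_of_nonneg (Finset.sum_nonneg fun i _ => sq_nonneg _)] at h3
  linarith

/-- version for a finite set of functions -/
lemma MulModel.point' [Nonempty X] {R : CRep X (Lp ℂ p μ)} (M : MulModel R)
    (S : Finset C(X, ℂ)) : ∀ᵐ ω ∂μ, ∃ x : X, ∀ f ∈ S, M.m f ω = f x := by
  filter_upwards [M.point fun i : Fin S.card => (S.equivFin.symm i : C(X, ℂ))] with ω ⟨x, hx⟩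
  refine ⟨x, fun f hf => ?_⟩
  have := hx (S.equivFin ⟨f, hf⟩)
  simpa using this

/-! ### The pointwise operator inequality -/

variable {h : X ≃ₜ X}

/-- `∑_{m ∈ F} |∑_k a_k(h^m x) ζ_{m-k}|^r ≤ M^r ∑_{n ∈ F'} |ζ_n|^r`
for all `ζ` and all finite `F`, `F' ⊇ F - supp a`. -/
def FS (r : ℝ) (a : Cc h) (M : ℝ) (x : X) : Prop :=
  ∀ (ζ : ℤ → ℂ) (F F' : Finset ℤ), (∀ m ∈ F, ∀ k ∈ a.supp, m - k ∈ F') →
    ∑ m ∈ F, ‖∑ k ∈ a.supp, (alpha h).act (-m) (a.coef k) x * ζ (m - k)‖ ^ r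
      ≤ M ^ r * ∑ n ∈ F', ‖ζ n‖ ^ r

omit hp1 in
lemma Lp_coe_sum {ι : Type} (s : Finset ι) (F : ι → Lp ℂ p μ) :
    ∀ᵐ ω ∂μ, (∑ i ∈ s, F i : Lp ℂ p μ) ω = ∑ i ∈ s, F i ω := by
  classical
  induction s using Finset.induction_on with
  | empty =>
    filter_upwards [Lp.coeFn_zero ℂ p μ] with ω h
    simpa using h
  | insert a s ha ih =>
    rw [Finset.sum_insert ha]
    filter_upwards [ih, Lp.coeFn_add (F a) (∑ i ∈ s, F i)] with ω h1 h2
    rw [h2, Pi.add_apply, h1, Finset.sum_insert ha]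

/-- the vector valued version of the operator inequality -/
lemma vector_ineq [Nonempty X] [SigmaFinite μ] (hp : p ≠ ∞) (hp2 : p ≠ 2)
    (R : CRep X (Lp ℂ p μ)) (a : Cc h) {M : ℝ} (hFS : ∀ x, FS p.toReal a M x)
    (ζ : ℤ → Lp ℂ p μ) (F F' : Finset ℤ) (hF : ∀ m ∈ F, ∀ k ∈ a.supp, m - k ∈ F') :
    ∑ m ∈ F, ‖∑ k ∈ a.supp, R.π ((alpha h).act (-m) (a.coef k)) (ζ (m - k))‖ ^ p.toReal
      ≤ M ^ p.toReal * ∑ n ∈ F', ‖ζ n‖ ^ p.toReal := by
  classical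
  have Mo := R.model hp hp2
  set S : Finset C(X, ℂ) :=
    (F ×ˢ a.supp).image fun q => (alpha h).act (-q.1) (a.coef q.2) with hS
  have e1 : ∀ m : ℤ, ∀ᵐ ω ∂μ,
      (∑ k ∈ a.supp, R.π ((alpha h).act (-m) (a.coef k)) (ζ (m - k)) : Lp ℂ p μ) ω
        = ∑ k ∈ a.supp, Mo.m ((alpha h).act (-m) (a.coef k)) ω * ζ (m - k) ω := by
    intro m
    have h1 : ∀ᵐ ω ∂μ, ∀ k : ℤ, R.π ((alpha h).act (-m) (a.coef k)) (ζ (m - k)) ω
        = Mo.m ((alpha h).act (-m) (a.coef k)) ω * ζ (m - k) ω :=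
      ae_all_iff.2 fun k => Mo.apply _ _
    filter_upwards [h1, Lp_coe_sum a.supp
      fun k => R.π ((alpha h).act (-m) (a.coef k)) (ζ (m - k))] with ω h2 h3
    rw [h3]
    exact Finset.sum_congr rfl fun k _ => h2 k
  have e2 : ∀ᵐ ω ∂μ, ∑ m ∈ F,
      ‖(∑ k ∈ a.supp, R.π ((alpha h).act (-m) (a.coef k)) (ζ (m - k)) : Lp ℂ p μ) ω‖ ^ p.toReal
        ≤ M ^ p.toReal * ∑ n ∈ F', ‖ζ n ω‖ ^ p.toReal := by
    filter_upwards [ae_all_iff.2 e1, Mo.point' S] with ω h1 ⟨x, hx⟩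
    have := hFS x (fun n => ζ n ω) F F' hF
    refine le_trans (le_of_eq ?_) this
    refine Finset.sum_congr rfl fun m hm => ?_
    rw [h1 m]
    congr 2
    refine Finset.sum_congr rfl fun k hk => ?_
    rw [hx _ (Finset.mem_image.2 ⟨(m, k), Finset.mem_product.2 ⟨hm, hk⟩, rfl⟩)]
  calc ∑ m ∈ F, ‖∑ k ∈ a.supp, R.π ((alpha h).act (-m) (a.coef k)) (ζ (m - k))‖ ^ p.toReal
      = ∑ m ∈ F, ∫ ω, ‖(∑ k ∈ a.supp, R.π ((alpha h).act (-m) (a.coef k)) (ζ (m - k)) :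
          Lp ℂ p μ) ω‖ ^ p.toReal ∂μ :=
        Finset.sum_congr rfl fun m _ => norm_rpow_eq hp _
    _ = ∫ ω, ∑ m ∈ F, ‖(∑ k ∈ a.supp, R.π ((alpha h).act (-m) (a.coef k)) (ζ (m - k)) :
          Lp ℂ p μ) ω‖ ^ p.toReal ∂μ :=
        (integral_finsetSum _ fun m _ => integrable_rpow hp _).symm
    _ ≤ ∫ ω, M ^ p.toReal * ∑ n ∈ F', ‖ζ n ω‖ ^ p.toReal ∂μ := by
        refine integral_mono_ae (integrable_finsetSum _ fun m _ => integrable_rpow hp _)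
          ((integrable_finsetSum _ fun m _ => integrable_rpow hp _).const_mul _) e2
    _ = M ^ p.toReal * ∑ n ∈ F', ‖ζ n‖ ^ p.toReal := by
        rw [integral_const_mul, integral_finsetSum _ fun m _ => integrable_rpow hp _]
        congr 1
        exact Finset.sum_congr rfl fun n _ => (norm_rpow_eq hp _).symm

end H309LP
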