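import Mathlib
import Pool.Agent.H309LP.Points

/-!
# Point representations are norming for `F^p(ℤ, X, h)` and `F^p_r(ℤ, X, h)`, `p ≠ 2`
-/

open MeasureTheory ENNReal Filter Topology

noncomputable section

namespace H309LP

variable {X : Type} [TopologicalSpace X] [CompactSpace X] {h : X ≃ₜ X}
variable {Ω : Type} [MeasurableSpace Ω] {μ : Measure Ω} {p : ℝ≥0∞} [hp1 : Fact (1 ≤ p)]

/-- a natural number bounding the support -/
def suppBound (a : Cc h) : ℕ := ∑ k ∈ a.supp, k.natAbs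

omit [CompactSpace X] in
lemma natAbs_le_suppBound (a : Cc h) {k : ℤ} (hk : k ∈ a.supp) : k.natAbs ≤ suppBound a :=
  Finset.single_le_sum (f := fun k : ℤ => k.natAbs) (fun _ _ => Nat.zero_le _) hk

lemma int_shifted {E : Type} [NormedAddCommGroup E] [NormedSpace ℂ E] (R : CovRep h E)
    (a : Cc h) (m : ℤ) (ξ : E) :
    zop R.v (-m) (R.int a ξ)
      = ∑ k ∈ a.supp, R.π ((alpha h).act (-m) (a.coef k)) (zop R.v (-(m - k)) ξ) := by
  rw [R.int_apply]
  have e1 : (∑ n ∈ a.supp, R.π (a.coef n) * zop R.v n) ξ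
      = ∑ n ∈ a.supp, R.π (a.coef n) (zop R.v n ξ) := by
    rw [_root_.sum_apply]; rfl
  rw [e1, map_sum]
  refine Finset.sum_congr rfl fun k _ => ?_
  have e2 := congrArg (fun T : E →L[ℂ] E => T (zop R.v k ξ)) (R.cov (-m) (a.coef k))
  have e3 : zop R.v (-m) (R.π (a.coef k) (zop R.v k ξ))
      = R.π ((alpha h).act (-m) (a.coef k)) (zop R.v (-m) (zop R.v k ξ)) := e2
  rw [e3]
  congr 1
  have e4 := congrArg (fun T : E →L[ℂ] E => T ξ) (zop_add R.v (-m) k)
  have e5 : zop R.v (-m + k) ξ = zop R.v (-m) (zop R.v k ξ) := e4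
  rw [← e5]; congr 2; ring

lemma growth_aux {s t : ℝ} (K : ℕ) (H : ∀ N : ℕ, (N : ℝ) * t ≤ ((N : ℝ) + 2 * K) * s) : t ≤ s := by
  by_contra hcon
  push Not at hcon
  have hpos : 0 < t - s := by linarith
  obtain ⟨N, hN⟩ := exists_nat_gt (2 * (K : ℝ) * s / (t - s))
  rw [div_lt_iff₀ hpos] at hN
  have := H N
  nlinarith

/-- The Følner argument: any covariant representation on `L^p(μ)` is controlled by points. -/
lemma full_le [Nonempty X] [SigmaFinite μ] (hp : p ≠ ∞) (hp2 : p ≠ 2)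
    (R : CovRep h (Lp ℂ p μ)) (a : Cc h) {M : ℝ} (hM : 0 ≤ M)
    (hFS : ∀ x, FS p.toReal a M x) : ‖R.int a‖ ≤ M := by
  have hq := toReal_pos' hp
  refine ContinuousLinearMap.opNorm_le_bound _ hM fun ξ => ?_
  set K := suppBound a with hK
  have key : ‖R.int a ξ‖ ^ p.toReal ≤ M ^ p.toReal * ‖ξ‖ ^ p.toReal := by
    refine growth_aux K fun N => ?_
    have h1 := vector_ineq hp hp2 R.toCRep a hFS (fun n => zop R.v (-n) ξ)
      (Finset.Ico 0 (N : ℤ)) (Finset.Ico (-(K : ℤ)) (N + K)) (by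
        intro m hm k hk
        have := natAbs_le_suppBound a hk
        rw [Finset.mem_Ico] at hm ⊢
        omega)
    have h2 : ∑ m ∈ Finset.Ico 0 (N : ℤ),
        ‖∑ k ∈ a.supp, R.π ((alpha h).act (-m) (a.coef k)) (zop R.v (-(m - k)) ξ)‖ ^ p.toReal
        = (N : ℝ) * ‖R.int a ξ‖ ^ p.toReal := by
      rw [Finset.sum_congr rfl fun m _ => by rw [← int_shifted R a m ξ, norm_zop]]
      rw [Finset.sum_const, Int.card_Ico, nsmul_eq_mul]
      simp
    have h3 : ∑ n ∈ Finset.Ico (-(K : ℤ)) (N + K), ‖zop R.v (-n) ξ‖ ^ p.toReal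
        = ((N : ℝ) + 2 * K) * ‖ξ‖ ^ p.toReal := by
      rw [Finset.sum_congr rfl fun n _ => by rw [norm_zop]]
      rw [Finset.sum_const, Int.card_Ico, nsmul_eq_mul]
      congr 1
      have : ((N : ℤ) + K - -(K : ℤ)).toNat = N + 2 * K := by omega
      rw [this]; push_cast; ring
    have h4 : (N : ℝ) * ‖R.int a ξ‖ ^ p.toReal
        ≤ M ^ p.toReal * (((N : ℝ) + 2 * K) * ‖ξ‖ ^ p.toReal) := by
      rw [← h2, ← h3]; exact h1
    linarith
  rw [← Real.mul_rpow hM (norm_nonneg _)] at key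
  exact (Real.rpow_le_rpow_iff (norm_nonneg _) (by positivity) hq).1 key

lemma zop_shift {E : Type} [NormedAddCommGroup E] [NormedSpace ℂ E] (k : ℤ)
    (ξ : lp (fun _ : ℤ => E) p) (m : ℤ) : zop (shift p (E := E)) k ξ m = ξ (m - k) := by
  induction k using Int.induction_on generalizing m with
  | zero => rw [zop_zero, sub_zero]; rfl
  | succ n ih =>
    rw [add_comm, zop_add]
    change zop (shift p) 1 (zop (shift p) n ξ) m = _
    have : ∀ η : lp (fun _ : ℤ => E) p, zop (shift p) 1 η m = η (m - 1) := fun η => by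
      rw [zop_apply, zpow_one]; rfl
    rw [this, ih, show m - 1 - (n : ℤ) = m - (1 + n) by ring]
  | pred n ih =>
    rw [show (-(n : ℤ) - 1) = -1 + -(n : ℤ) by ring, zop_add]
    change zop (shift p) (-1) (zop (shift p) (-n) ξ) m = _
    have : ∀ η : lp (fun _ : ℤ => E) p, zop (shift p) (-1) η m = η (m + 1) := fun η => by
      rw [zop_apply, zpow_neg_one]; rfl
    rw [this, ih, show m + 1 - -(n : ℤ) = m - (-1 + -(n : ℤ)) by ring]

omit hp1 in
lemma lp_sum_apply {E : Type} [NormedAddCommGroup E] {ι : Type} (s : Finset ι)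
    (F : ι → lp (fun _ : ℤ => E) p) (m : ℤ) : (∑ i ∈ s, F i : lp (fun _ : ℤ => E) p) m
      = ∑ i ∈ s, F i m := by
  rw [lp.coeFn_sum, Finset.sum_apply]

lemma regular_int_apply {E : Type} [NormedAddCommGroup E] [NormedSpace ℂ E] (R : CRep X E)
    (a : Cc h) (ξ : lp (fun _ : ℤ => E) p) (m : ℤ) :
    (regular p h R).int a ξ m
      = ∑ k ∈ a.supp, R.π ((alpha h).act (-m) (a.coef k)) (ξ (m - k)) := by
  rw [CovRep.int_apply]
  have e1 : (∑ n ∈ a.supp, (regular p h R).π (a.coef n) * zop (regular p h R).v n) ξ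
      = ∑ n ∈ a.supp, (regular p h R).π (a.coef n) (zop (regular p h R).v n ξ) := by
    rw [_root_.sum_apply]; rfl
  rw [e1, lp_sum_apply]
  refine Finset.sum_congr rfl fun k _ => ?_
  change R.π ((alpha h).act (-m) (a.coef k)) (zop (shift p) k ξ m) = _
  rw [zop_shift]

/-- the regular representations are controlled by points -/
lemma red_le [Nonempty X] [SigmaFinite μ] (hp : p ≠ ∞) (hp2 : p ≠ 2)
    (R : CRep X (Lp ℂ p μ)) (a : Cc h) {M : ℝ} (hM : 0 ≤ M)
    (hFS : ∀ x, FS p.toReal a M x) : ‖(regular p h R).int a‖ ≤ M := by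
  classical
  have hq := toReal_pos' hp
  refine ContinuousLinearMap.opNorm_le_bound _ hM fun ξ => ?_
  refine lp.norm_le_of_forall_sum_le hq (by positivity) fun F => ?_
  set F' : Finset ℤ := (F ×ˢ a.supp).image fun q => q.1 - q.2
  have h1 := vector_ineq hp hp2 R a hFS (fun n => ξ n) F F' (by
    intro m hm k hk
    exact Finset.mem_image.2 ⟨(m, k), Finset.mem_product.2 ⟨hm, hk⟩, rfl⟩)
  calc ∑ m ∈ F, ‖(regular p h R).int a ξ m‖ ^ p.toReal
      = ∑ m ∈ F, ‖∑ k ∈ a.supp, R.π ((alpha h).act (-m) (a.coef k)) (ξ (m - k))‖ ^ p.toReal :=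
        Finset.sum_congr rfl fun m _ => by rw [regular_int_apply]
    _ ≤ M ^ p.toReal * ∑ n ∈ F', ‖ξ n‖ ^ p.toReal := h1
    _ ≤ M ^ p.toReal * ‖ξ‖ ^ p.toReal :=
        mul_le_mul_of_nonneg_left (lp.sum_rpow_le_norm_rpow hq ξ F')
          (Real.rpow_nonneg hM _)
    _ = (M * ‖ξ‖) ^ p.toReal := (Real.mul_rpow hM (norm_nonneg _)).symm

/-- A bound for a regular representation built on a point evaluation gives `FS`. -/
lemma FS_of_regular {E : Type} [NormedAddCommGroup E] [NormedSpace ℂ E] (hp : p ≠ ∞)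
    (R : CRep X E) (x : X) (e : E) (he : ‖e‖ = 1) (hR : ∀ f, R.π f e = f x • e)
    (a : Cc h) {M : ℝ} (hM : 0 ≤ M) (hn : ‖(regular p h R).int a‖ ≤ M) :
    FS p.toReal a M x := by
  classical
  have hq := toReal_pos' hp
  intro ζ F F' hF
  set ξ : lp (fun _ : ℤ => E) p := ∑ n ∈ F', lp.single p n (ζ n • e) with hξ
  have hξn : ∀ n ∈ F', ξ n = ζ n • e := by
    intro n hn
    rw [hξ, lp_sum_apply, Finset.sum_eq_single n]
    · exact lp.single_apply_self _ _ _
    · intro j _ hj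
      exact lp.single_apply_ne _ _ _ hj.symm
    · intro h; exact absurd hn h
  have hnorm : ‖ξ‖ ^ p.toReal = ∑ n ∈ F', ‖ζ n‖ ^ p.toReal := by
    have := lp.norm_sum_single (E := fun _ : ℤ => E) (p := p) hq (fun n => ζ n • e) F'
    rw [hξ, this]
    refine Finset.sum_congr rfl fun n _ => ?_
    rw [norm_smul, he, mul_one]
  calc ∑ m ∈ F, ‖∑ k ∈ a.supp, (alpha h).act (-m) (a.coef k) x * ζ (m - k)‖ ^ p.toReal
      = ∑ m ∈ F, ‖(regular p h R).int a ξ m‖ ^ p.toReal := by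
        refine Finset.sum_congr rfl fun m hm => ?_
        rw [regular_int_apply]
        have : ∑ k ∈ a.supp, R.π ((alpha h).act (-m) (a.coef k)) (ξ (m - k))
            = (∑ k ∈ a.supp, (alpha h).act (-m) (a.coef k) x * ζ (m - k)) • e := by
          rw [Finset.sum_smul]
          refine Finset.sum_congr rfl fun k hk => ?_
          rw [hξn _ (hF m hm k hk), map_smul, hR, smul_smul, mul_comm]
        rw [this, norm_smul, he, mul_one]
    _ ≤ ‖(regular p h R).int a ξ‖ ^ p.toReal := lp.sum_rpow_le_norm_rpow hq _ F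
    _ ≤ (M * ‖ξ‖) ^ p.toReal :=
        Real.rpow_le_rpow (norm_nonneg _)
          (((regular p h R).int a).le_of_opNorm_le hn ξ) hq.le
    _ = M ^ p.toReal * ∑ n ∈ F', ‖ζ n‖ ^ p.toReal := by
        rw [Real.mul_rpow hM (norm_nonneg _), hnorm]

/-- The representation `f ↦ f(x) 1` on `E`. -/
def scalarRep (x : X) (E : Type) [NormedAddCommGroup E] [NormedSpace ℂ E] : CRep X E :=
  CRep.ofAlgHom ((Algebra.ofId ℂ (E →L[ℂ] E)).comp (ContinuousMap.evalAlgHom ℂ ℂ x)) (by
    intro f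
    change ‖algebraMap ℂ (E →L[ℂ] E) (f x)‖ ≤ ‖f‖
    rw [Algebra.algebraMap_eq_smul_one, norm_smul]
    calc ‖f x‖ * ‖(1 : E →L[ℂ] E)‖ ≤ ‖f x‖ * 1 :=
          mul_le_mul_of_nonneg_left ContinuousLinearMap.norm_id_le (norm_nonneg _)
      _ ≤ ‖f‖ := by rw [mul_one]; exact f.norm_coe_le_norm x)

lemma scalarRep_apply (x : X) (E : Type) [NormedAddCommGroup E] [NormedSpace ℂ E] (f : C(X, ℂ))
    (e : E) : (scalarRep x E).π f e = f x • e := rfl

/-! ### Transport of representations -/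

/-- transport of a covariant representation along an isometric isomorphism -/
def CovRep.transport {E E' : Type} [NormedAddCommGroup E] [NormedSpace ℂ E]
    [NormedAddCommGroup E'] [NormedSpace ℂ E'] (Φ : E ≃ₗᵢ[ℂ] E') (R : CovRep h E) :
    CovRep h E' where
  toCRep := CRep.ofAlgHom
    (AlgHom.ofLinearMap
      { toFun := fun f => (Φ : E →L[ℂ] E') ∘L (R.π f) ∘L (Φ.symm : E' →L[ℂ] E)
        map_add' := fun f g => by ext ξ; simp
        map_smul' := fun c f => by ext ξ; simp }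
      (by ext ξ; simp [R.map_one])
      (fun f g => by ext ξ; simp))
    (by
      intro f
      refine ContinuousLinearMap.opNorm_le_bound _ (norm_nonneg _) fun ξ => ?_
      change ‖Φ (R.π f (Φ.symm ξ))‖ ≤ _
      rw [Φ.norm_map]
      refine ((R.π f).le_opNorm _).trans ?_
      rw [Φ.symm.norm_map]
      exact mul_le_mul_of_nonneg_right (R.contractive f) (norm_nonneg _))
  v := Φ.symm.trans (R.v.trans Φ)
  covariant f ξ := by
    change Φ (R.v (Φ.symm (Φ (R.π f (Φ.symm (Φ (R.v.symm (Φ.symm ξ)))))))) = Φ (R.π _ (Φ.symm ξ))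
    rw [Φ.symm_apply_apply, Φ.symm_apply_apply, R.covariant]

lemma transport_zop {E E' : Type} [NormedAddCommGroup E] [NormedSpace ℂ E]
    [NormedAddCommGroup E'] [NormedSpace ℂ E'] (Φ : E ≃ₗᵢ[ℂ] E') (R : CovRep h E) (n : ℤ)
    (ξ : E) : zop (R.transport Φ).v n (Φ ξ) = Φ (zop R.v n ξ) := by
  induction n using Int.induction_on generalizing ξ with
  | zero => rw [zop_zero, zop_zero]; rfl
  | succ n ih =>
    rw [zop_add, zop_add]
    change zop (R.transport Φ).v n (zop (R.transport Φ).v 1 (Φ ξ)) = Φ (zop R.v n (zop R.v 1 ξ))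
    have : zop (R.transport Φ).v 1 (Φ ξ) = Φ (zop R.v 1 ξ) := by
      rw [zop_apply, zop_apply, zpow_one, zpow_one]
      change Φ (R.v (Φ.symm (Φ ξ))) = _
      rw [Φ.symm_apply_apply]
    rw [this, ih]
  | pred n ih =>
    rw [show (-(n : ℤ) - 1) = -(n : ℤ) + -1 by ring, zop_add, zop_add]
    change zop (R.transport Φ).v (-n) (zop (R.transport Φ).v (-1) (Φ ξ))
      = Φ (zop R.v (-n) (zop R.v (-1) ξ))
    have : zop (R.transport Φ).v (-1) (Φ ξ) = Φ (zop R.v (-1) ξ) := by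
      rw [zop_apply, zop_apply, zpow_neg_one, zpow_neg_one]
      change Φ (R.v.symm (Φ.symm (Φ ξ))) = _
      rw [Φ.symm_apply_apply]; rfl
    rw [this, ih]

lemma transport_int {E E' : Type} [NormedAddCommGroup E] [NormedSpace ℂ E]
    [NormedAddCommGroup E'] [NormedSpace ℂ E'] (Φ : E ≃ₗᵢ[ℂ] E') (R : CovRep h E) (a : Cc h)
    (ξ : E) : (R.transport Φ).int a (Φ ξ) = Φ (R.int a ξ) := by
  rw [CovRep.int_apply, CovRep.int_apply, _root_.sum_apply,
    _root_.sum_apply, map_sum]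
  refine Finset.sum_congr rfl fun k _ => ?_
  change (R.transport Φ).π (a.coef k) (zop (R.transport Φ).v k (Φ ξ)) = Φ (R.π (a.coef k) _)
  rw [transport_zop]
  change Φ (R.π (a.coef k) (Φ.symm (Φ _))) = _
  rw [Φ.symm_apply_apply]; rfl

lemma norm_int_le_transport {E E' : Type} [NormedAddCommGroup E] [NormedSpace ℂ E]
    [NormedAddCommGroup E'] [NormedSpace ℂ E'] (Φ : E ≃ₗᵢ[ℂ] E') (R : CovRep h E) (a : Cc h) :
    ‖R.int a‖ ≤ ‖(R.transport Φ).int a‖ := by
  refine ContinuousLinearMap.opNorm_le_bound _ (norm_nonneg _) fun ξ => ?_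
  rw [← Φ.norm_map (R.int a ξ), ← transport_int]
  refine (((R.transport Φ).int a).le_opNorm _).trans ?_
  rw [Φ.norm_map]

end H309LP
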