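import Mathlib
import Pool.Agent.H309LP.Norming

/-!
# The point representations inside the full and the reduced family, and extension of
representations to the completions
-/

open MeasureTheory ENNReal Filter Topology

noncomputable section

namespace H309LP

variable {X : Type} [TopologicalSpace X] [CompactSpace X] {h : X ≃ₜ X}
variable {p : ℝ≥0∞} [hp1 : Fact (1 ≤ p)]

/-! ### `L^p` of the counting measure on `ℤ` is `ℓ^p(ℤ)` -/

lemma ae_count_all {P : ℤ → Prop} (H : ∀ᵐ n ∂(Measure.count : Measure ℤ), P n) (n : ℤ) : P n := by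
  rw [ae_iff] at H
  by_contra hn
  have h1 : Measure.count {n : ℤ | ¬ P n} ≠ 0 := by
    intro h0
    rw [Measure.count_eq_zero_iff] at h0
    have : n ∈ ({n : ℤ | ¬ P n} : Set ℤ) := hn
    rw [h0] at this; exact this
  exact h1 H

lemma count_summable (hp : p ≠ ∞) (f : Lp ℂ p (Measure.count : Measure ℤ)) :
    Summable fun n : ℤ => ‖f n‖ ^ p.toReal := by
  have := integrable_count_iff.1 (integrable_rpow hp f)
  refine this.congr fun n => ?_
  exact Real.norm_of_nonneg (Real.rpow_nonneg (norm_nonneg _) _)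

lemma count_norm (hp : p ≠ ∞) (f : Lp ℂ p (Measure.count : Measure ℤ)) :
    ‖f‖ ^ p.toReal = ∑' n : ℤ, ‖f n‖ ^ p.toReal := by
  rw [norm_rpow_eq hp, integral_countable (integrable_rpow hp f)]
  refine tsum_congr fun n => ?_
  rw [Measure.real, Measure.count_singleton]; simp

/-- the map `L^p(count) → ℓ^p(ℤ)` -/
def countToEll (hp : p ≠ ∞) : Lp ℂ p (Measure.count : Measure ℤ) →ₗᵢ[ℂ] Ell p where
  toFun f := ⟨fun n => f n, memℓp_gen (count_summable hp f)⟩
  map_add' f g := by
    ext n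
    exact ae_count_all (Lp.coeFn_add f g) n
  map_smul' c f := by
    ext n
    exact ae_count_all (Lp.coeFn_smul c f) n
  norm_map' f := by
    have hq := toReal_pos' hp
    have h1 := lp.norm_rpow_eq_tsum hq
      (⟨fun n => f n, memℓp_gen (count_summable hp f)⟩ : Ell p)
    have h2 := count_norm hp f
    have h3 : ‖(⟨fun n => f n, memℓp_gen (count_summable hp f)⟩ : Ell p)‖ ^ p.toReal
        = ‖f‖ ^ p.toReal := by rw [h1, h2]
    exact (Real.rpow_left_inj (norm_nonneg _) (norm_nonneg _) hq.ne').1 h3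

lemma countToEll_surj (hp : p ≠ ∞) : Function.Surjective (countToEll (p := p) hp) := by
  have hq := toReal_pos' hp
  intro ζ
  have hm : AEStronglyMeasurable (fun n : ℤ => ζ n) (Measure.count : Measure ℤ) :=
    (measurable_of_countable _).aestronglyMeasurable
  have hmem : MemLp (fun n : ℤ => ζ n) p (Measure.count : Measure ℤ) := by
    rw [← integrable_norm_rpow_iff hm p_ne_zero hp, integrable_count_iff]
    refine ((lp.memℓp ζ).summable hq).congr fun n => ?_
    exact (Real.norm_of_nonneg (Real.rpow_nonneg (norm_nonneg _) _)).symm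
  refine ⟨hmem.toLp, ?_⟩
  ext n
  exact ae_count_all hmem.coeFn_toLp n

/-- `L^p(ℤ, count) ≃ ℓ^p(ℤ)` -/
def countEquiv (hp : p ≠ ∞) : Lp ℂ p (Measure.count : Measure ℤ) ≃ₗᵢ[ℂ] Ell p :=
  LinearIsometryEquiv.ofSurjective (countToEll hp) (countToEll_surj hp)

/-- The point representation at `x` on `L^p(ℤ, count)`. -/
def pointFull (hp : p ≠ ∞) (h : X ≃ₜ X) (x : X) : LpCovRep p h where
  Ω := ℤ
  μ := Measure.count
  rep := (regular p h (scalarRep x ℂ)).transport (countEquiv hp).symm

/-! ### `L^p` of a one point space -/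

/-- evaluation on `L^p` of the Dirac measure -/
def diracEval (hp : p ≠ ∞) : Lp ℂ p (Measure.dirac () : Measure Unit) →ₗᵢ[ℂ] ℂ where
  toFun f := f ()
  map_add' f g := by
    have := Lp.coeFn_add f g
    rw [EventuallyEq, ae_dirac_eq] at this
    exact this
  map_smul' c f := by
    have := Lp.coeFn_smul c f
    rw [EventuallyEq, ae_dirac_eq] at this
    exact this
  norm_map' f := by
    have hq := toReal_pos' hp
    have h1 : ‖f‖ ^ p.toReal = ‖f ()‖ ^ p.toReal := by
      rw [norm_rpow_eq hp, integral_dirac]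
    exact ((Real.rpow_left_inj (norm_nonneg _) (norm_nonneg _) hq.ne').1 h1).symm

/-- the embedding `ℓ^p(ℤ, L^p(pt)) → ℓ^p(ℤ)` -/
def diracToEll (hp : p ≠ ∞) :
    lp (fun _ : ℤ => Lp ℂ p (Measure.dirac () : Measure Unit)) p →ₗᵢ[ℂ] Ell p where
  toLinearMap := (lp.mapCLM (K := 1) p
    (fun _ : ℤ => (diracEval (p := p) hp).toContinuousLinearMap)
    zero_le_one (fun _ => (diracEval hp).norm_toContinuousLinearMap_le)).toLinearMap
  norm_map' ξ := by
    refine le_antisymm ?_ ?_
    · refine lp.norm_mono p_ne_zero fun n => ?_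
      change ‖diracEval hp (ξ n)‖ ≤ _
      rw [(diracEval hp).norm_map]
    · refine lp.norm_mono p_ne_zero fun n => ?_
      change _ ≤ ‖diracEval hp (ξ n)‖
      rw [(diracEval hp).norm_map]

/-- The point evaluation at `x` on `L^p(pt)`. -/
def pointRed (x : X) : LpRep p X where
  Ω := Unit
  μ := Measure.dirac ()
  rep := scalarRep x _

/-! ### Extension to the completion -/

lemma exists_ext {ι : Type 1} (F : ι → SomeRep h) (i : ι) [CompleteSpace (F i).E] :
    ∃ ρ : Compl F →ₐ[ℂ] ((F i).E →L[ℂ] (F i).E), (∀ z, ‖ρ z‖ ≤ ‖z‖) ∧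
      ∀ a : NCc F, ρ (a : Compl F) = (F i).rep.int a := by
  set f : NCc F →+* ((F i).E →L[ℂ] (F i).E) := (F i).rep.int.toRingHom with hf
  have hfn : ∀ a : NCc F, ‖f a‖ ≤ 1 * ‖a‖ := fun a => by
    rw [one_mul]; exact le_famNorm F a i
  have hfc : Continuous f := AddMonoidHomClass.continuous_of_bound f 1 hfn
  set g := UniformSpace.Completion.extensionHom f hfc with hg
  have hgc : Continuous g := UniformSpace.Completion.continuous_extension
  have hga : ∀ a : NCc F, g (a : Compl F) = f a := fun a =>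
    UniformSpace.Completion.extensionHom_coe f hfc a
  have hgs : ∀ (c : ℂ) (z : Compl F), g (c • z) = c • g z := by
    intro c z
    induction z using UniformSpace.Completion.induction_on with
    | hp => exact isClosed_eq (hgc.comp (continuous_const_smul c)) (hgc.const_smul c)
    | ih a =>
      rw [← UniformSpace.Completion.coe_smul, hga, hga]
      exact map_smul (F i).rep.int c (show Cc h from a)
  refine ⟨AlgHom.ofLinearMap
    { toFun := g, map_add' := map_add g, map_smul' := hgs } (map_one g) (map_mul g), ?_, ?_⟩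
  · intro z
    change ‖g z‖ ≤ ‖z‖
    induction z using UniformSpace.Completion.induction_on with
    | hp => exact isClosed_le hgc.norm continuous_norm
    | ih a =>
      rw [hga, UniformSpace.Completion.norm_coe]
      have := hfn a
      rwa [one_mul] at this
  · intro a
    exact hga a

lemma exists_ext_ne_zero {ι : Type 1} (F : ι → SomeRep h) (S : Set ι)
    (hC : ∀ i ∈ S, CompleteSpace (F i).E)
    (hS : ∀ (a : Cc h) (M : ℝ), 0 ≤ M → (∀ i ∈ S, ‖(F i).rep.int a‖ ≤ M) → famNorm F a ≤ M)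
    (z : Compl F) (hz : z ≠ 0) :
    ∃ i ∈ S, ∃ ρ : Compl F →ₐ[ℂ] ((F i).E →L[ℂ] (F i).E), (∀ z, ‖ρ z‖ ≤ ‖z‖) ∧ ρ z ≠ 0 := by
  have hz0 : 0 < ‖z‖ := norm_pos_iff.2 hz
  obtain ⟨a, ha⟩ := UniformSpace.Completion.denseRange_coe.exists_dist_lt z
    (show 0 < ‖z‖ / 4 by positivity)
  rw [dist_eq_norm] at ha
  have h1 : ‖(a : Compl F)‖ = famNorm F a := UniformSpace.Completion.norm_coe a
  have h2 : 3 / 4 * ‖z‖ < famNorm F a := by
    rw [← h1]
    have := norm_sub_norm_le z (a : Compl F)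
    linarith
  have h3 : ∃ i ∈ S, ‖z‖ / 2 < ‖(F i).rep.int a‖ := by
    by_contra hcon
    push Not at hcon
    have := hS a (‖z‖ / 2) (by positivity) hcon
    linarith
  obtain ⟨i, hiS, hi⟩ := h3
  have := hC i hiS
  obtain ⟨ρ, hρn, hρa⟩ := exists_ext F i
  refine ⟨i, hiS, ρ, hρn, fun h0 => ?_⟩
  have h4 : ‖ρ (a : Compl F)‖ ≤ ‖z - a‖ := by
    have : ρ (a : Compl F) = -(ρ (z - a)) := by rw [map_sub, h0]; simp
    rw [this, norm_neg]; exact hρn _
  rw [hρa] at h4
  linarith

variable [Nonempty X]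

/-- For `p ≠ 2`, nonzero elements of `F^p(ℤ, X, h)` are seen on subspaces of `ℓ^p(ℤ)`. -/
lemma full_separates (hp : p ≠ ∞) (hp2 : p ≠ 2) (z : FullCP p h) (hz : z ≠ 0) :
    ∃ (E : Type) (_ : NormedAddCommGroup E) (_ : NormedSpace ℂ E) (_ : CompleteSpace E)
      (_ : E →ₗᵢ[ℂ] Ell p) (ρ : FullCP p h →ₐ[ℂ] (E →L[ℂ] E)), (∀ z, ‖ρ z‖ ≤ ‖z‖) ∧ ρ z ≠ 0 := by
  obtain ⟨i, ⟨x, rfl⟩, ρ, h1, h2⟩ := exists_ext_ne_zero (fullFam p h)
    (Set.range (pointFull hp h))
    (by
      rintro _ ⟨x, rfl⟩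
      change CompleteSpace (Lp ℂ p (Measure.count : Measure ℤ))
      infer_instance)
    (by
      intro a M hM hall
      refine famNorm_le _ hM fun R => ?_
      refine full_le hp hp2 R.rep a hM fun x => ?_
      have h1 := hall (pointFull hp h x) ⟨x, rfl⟩
      exact FS_of_regular hp (scalarRep x ℂ) x 1 norm_one (fun f => scalarRep_apply x ℂ f 1) a hM
        ((norm_int_le_transport (countEquiv hp).symm _ a).trans h1))
    z hz
  exact ⟨Lp ℂ p (Measure.count : Measure ℤ), inferInstance, inferInstance, inferInstance,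
    countToEll hp, ρ, h1, h2⟩

/-- For `p ≠ 2`, nonzero elements of `F^p_r(ℤ, X, h)` are seen on subspaces of `ℓ^p(ℤ)`. -/
lemma red_separates (hp : p ≠ ∞) (hp2 : p ≠ 2) (z : RedCP p h) (hz : z ≠ 0) :
    ∃ (E : Type) (_ : NormedAddCommGroup E) (_ : NormedSpace ℂ E) (_ : CompleteSpace E)
      (_ : E →ₗᵢ[ℂ] Ell p) (ρ : RedCP p h →ₐ[ℂ] (E →L[ℂ] E)), (∀ z, ‖ρ z‖ ≤ ‖z‖) ∧ ρ z ≠ 0 := by
  obtain ⟨i, ⟨x, rfl⟩, ρ, h1, h2⟩ := exists_ext_ne_zero (redFam p h)
    (Set.range (pointRed (p := p)))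
    (by
      rintro _ ⟨x, rfl⟩
      change CompleteSpace (lp (fun _ : ℤ => Lp ℂ p (Measure.dirac () : Measure Unit)) p)
      infer_instance)
    (by
      intro a M hM hall
      refine famNorm_le _ hM fun R => ?_
      refine red_le hp hp2 R.rep a hM fun x => ?_
      have h1 := hall (pointRed x) ⟨x, rfl⟩
      refine FS_of_regular hp (scalarRep x (Lp ℂ p (Measure.dirac () : Measure Unit))) x
        (Lp.const p _ 1) ?_ (fun f => scalarRep_apply x _ f _) a hM h1
      rw [Lp.norm_const' p _ _ p_ne_zero hp]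
      simp)
    z hz
  exact ⟨lp (fun _ : ℤ => Lp ℂ p (Measure.dirac () : Measure Unit)) p, inferInstance,
    inferInstance, inferInstance, diracToEll hp, ρ, h1, h2⟩

end H309LP
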