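import Mathlib
import Pool.Agent.H309LP.PointReps

/-!
# Norm bounds for columns and rows in the full crossed product
-/

open MeasureTheory ENNReal Filter Topology

noncomputable section

namespace H309LP

variable {X : Type} [TopologicalSpace X] [CompactSpace X] {h : X ≃ₜ X}

/-! ### Hilbert space representations are `*`-representations -/

section hilbert
variable {E : Type} [NormedAddCommGroup E] [InnerProductSpace ℂ E]

lemma CRep.inner_unitary (R : CRep X E) {u w : C(X, ℂ)} (hu : ‖u‖ ≤ 1) (hw : ‖w‖ ≤ 1)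
    (huw : w * u = 1) (ξ η : E) :
    inner ℂ (R.π u ξ) η = inner ℂ ξ (R.π w η) := by
  have hwu : u * w = 1 := by rw [mul_comm, huw]
  set U : E →ₗᵢ[ℂ] E := ⟨(R.π u).toLinearMap, fun ξ => R.isometry_of_unitary hu hw huw ξ⟩ with hU
  have h1 : R.π u (R.π w η) = η := by
    have : R.π (u * w) η = R.π u (R.π w η) := by rw [map_mul]; rfl
    rw [← this, hwu, R.map_one]; rfl
  have h2 : inner ℂ (U ξ) (U (R.π w η)) = inner ℂ ξ (R.π w η) := U.inner_map_map _ _
  have h3 : U (R.π w η) = η := h1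
  rw [h3] at h2
  exact h2

lemma CRep.inner_cplx (R : CRep X E) {g : C(X, ℝ)} (hg : ∀ x, |g x| ≤ 1 / 2) (ξ η : E) :
    inner ℂ (R.π (cplx g) ξ) η = inner ℂ ξ (R.π (cplx g) η) := by
  have hs : ‖star (uni g)‖ ≤ 1 := by rw [norm_star]; exact norm_uni_le hg
  have h1 := R.inner_unitary (norm_uni_le hg) hs (star_uni_mul hg) ξ η
  have h2 := R.inner_unitary hs (norm_uni_le hg) (uni_mul_star hg) ξ η
  have e : ∀ ξ : E, R.π (cplx g) ξ
      = (1 / (2 * Complex.I)) • (R.π (star (uni g)) ξ - R.π (uni g) ξ) := by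
    intro ξ
    rw [cplx_eq, map_smul, map_sub]; rfl
  rw [e, e, inner_smul_left, inner_smul_right, inner_sub_left, inner_sub_right, h1, h2]
  have : (starRingEnd ℂ) (1 / (2 * Complex.I)) = -(1 / (2 * Complex.I)) := by
    simp [map_ofNat]
  rw [this]; ring

lemma CRep.inner_star (R : CRep X E) (f : C(X, ℂ)) (ξ η : E) :
    inner ℂ (R.π f ξ) η = inner ℂ ξ (R.π (star f) η) := by
  obtain ⟨c, g₁, g₂, h1, h2, rfl⟩ := exists_decomp f
  have e : Star.star ((c : ℂ) • (cplx g₁ + Complex.I • cplx g₂))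
      = (c : ℂ) • (cplx g₁ + (-Complex.I) • cplx g₂) := by
    ext x
    simp
  rw [e]
  have e1 : ∀ (a : ℂ) (ξ : E), R.π ((c : ℂ) • (cplx g₁ + a • cplx g₂)) ξ
      = (c : ℂ) • (R.π (cplx g₁) ξ + a • R.π (cplx g₂) ξ) := by
    intro a ξ
    rw [map_smul, map_add, map_smul]; rfl
  rw [e1, e1, inner_smul_left, inner_smul_right, inner_add_left, inner_add_right, inner_smul_left,
    inner_smul_right, R.inner_cplx h1, R.inner_cplx h2]
  simp

lemma CRep.inner_zero (R : CRep X E) {f g : C(X, ℂ)} (hfg : f * g = 0) (ξ η : E) :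
    inner ℂ (R.π f ξ) (R.π g η) = 0 := by
  rw [R.inner_star]
  have h0 : star f * g = 0 := by
    ext x
    have := DFunLike.congr_fun hfg x
    rw [ContinuousMap.mul_apply, ContinuousMap.zero_apply, mul_eq_zero] at this
    rw [ContinuousMap.mul_apply, ContinuousMap.star_apply, ContinuousMap.zero_apply]
    rcases this with h | h <;> rw [h] <;> simp
  have : R.π (star f) (R.π g η) = R.π (star f * g) η := by rw [map_mul]; rfl
  rw [this, h0, map_zero]; simp

end hilbert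

/-! ### `p`-additivity for disjointly supported functions -/

variable {Ω : Type} [MeasurableSpace Ω] {μ : Measure Ω} {p : ℝ≥0∞} [hp1 : Fact (1 ≤ p)]

/-- For functions `q_i ∈ C(X)` with pairwise zero products, the vectors `π(q_i) ζ_i` are
`p`-orthogonal in `L^p(μ)`. -/
lemma CRep.p_additive [SigmaFinite μ] (hp : p ≠ ∞) (R : CRep X (Lp ℂ p μ)) (s : Finset ℤ)
    (q : ℤ → C(X, ℂ)) (hq : ∀ i ∈ s, ∀ j ∈ s, i ≠ j → q i * q j = 0) (ζ : ℤ → Lp ℂ p μ) :
    ‖∑ i ∈ s, R.π (q i) (ζ i)‖ ^ p.toReal = ∑ i ∈ s, ‖R.π (q i) (ζ i)‖ ^ p.toReal := by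
  classical
  have hr := toReal_pos' hp
  by_cases hp2 : p = 2
  · subst hp2
    have key : ‖∑ i ∈ s, R.π (q i) (ζ i)‖ ^ 2 = ∑ i ∈ s, ‖R.π (q i) (ζ i)‖ ^ 2 := by
      induction s using Finset.induction_on with
      | empty => simp
      | insert a s ha ih =>
        rw [Finset.sum_insert ha, Finset.sum_insert ha, ← ih fun i hi j hj =>
          hq i (Finset.mem_insert_of_mem hi) j (Finset.mem_insert_of_mem hj)]
        have h0 : inner ℂ (R.π (q a) (ζ a)) (∑ i ∈ s, R.π (q i) (ζ i)) = 0 := by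
          rw [inner_sum]
          refine Finset.sum_eq_zero fun i hi => ?_
          refine R.inner_zero (hq a (Finset.mem_insert_self _ _) i (Finset.mem_insert_of_mem hi)
            (fun h => ha (h ▸ hi))) _ _
        have := norm_add_sq_eq_norm_sq_add_norm_sq_of_inner_eq_zero _ _ h0
        rw [pow_two, pow_two, pow_two, this]
    have e : (2 : ℝ≥0∞).toReal = ((2 : ℕ) : ℝ) := by simp
    rw [e]
    simp only [Real.rpow_natCast]
    exact key
  · have Mo := R.model hp hp2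
    induction s using Finset.induction_on with
    | empty => simp [Real.zero_rpow hr.ne']
    | insert a s ha ih =>
      rw [Finset.sum_insert ha, Finset.sum_insert ha, ← ih fun i hi j hj =>
        hq i (Finset.mem_insert_of_mem hi) j (Finset.mem_insert_of_mem hj)]
      refine norm_add_rpow_of_disj hp ?_
      have h1 : ∀ᵐ x ∂μ, ∀ i : ℤ, R.π (q i) (ζ i) x = Mo.m (q i) x * ζ i x :=
        ae_all_iff.2 fun i => Mo.apply _ _
      have h2 : ∀ᵐ x ∂μ, ∀ i : ℤ, i ∈ s → Mo.m (q a) x * Mo.m (q i) x = 0 := by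
        rw [ae_all_iff]
        intro i
        by_cases hi : i ∈ s
        · filter_upwards [Mo.mul (q a) (q i), Mo.smul 0 0] with x hx h0 _
          rw [← hx, hq a (Finset.mem_insert_self _ _) i (Finset.mem_insert_of_mem hi)
            (fun h => ha (h ▸ hi))]
          simpa using h0
        · exact Eventually.of_forall fun x h => absurd h hi
      filter_upwards [h1, h2, Lp_coe_sum s fun i => R.π (q i) (ζ i)] with x a1 a2 a3
      by_cases h0 : Mo.m (q a) x = 0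
      · left; rw [a1, h0, zero_mul]
      · right
        rw [a3]
        refine Finset.sum_eq_zero fun i hi => ?_
        have := a2 i hi
        rw [mul_eq_zero, or_iff_right h0] at this
        rw [a1, this, zero_mul]

omit hp1 in
lemma norm_sum_disj_le (s : Finset ℤ) (q : ℤ → C(X, ℂ))
    (hq : ∀ i ∈ s, ∀ j ∈ s, i ≠ j → q i * q j = 0) (hn : ∀ i ∈ s, ‖q i‖ ≤ 1) :
    ‖∑ i ∈ s, q i‖ ≤ 1 := by
  rw [ContinuousMap.norm_le _ zero_le_one]
  intro x
  rw [ContinuousMap.sum_apply]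
  by_cases hx : ∃ i ∈ s, q i x ≠ 0
  · obtain ⟨i, hi, hne⟩ := hx
    rw [Finset.sum_eq_single i]
    · exact ((q i).norm_coe_le_norm x).trans (hn i hi)
    · intro j hj hji
      have := DFunLike.congr_fun (hq i hi j hj hji.symm) x
      rw [ContinuousMap.mul_apply, ContinuousMap.zero_apply, mul_eq_zero] at this
      exact this.resolve_left hne
    · intro h; exact absurd hi h
  · push Not at hx
    rw [Finset.sum_eq_zero hx, norm_zero]; exact zero_le_one

/-- the column `∑_{i ∈ I} q_i δ_i` -/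
def colE (h : X ≃ₜ X) (I : Finset ℤ) (q : ℤ → C(X, ℂ)) : Cc h :=
  ∑ i ∈ I, Tw.single (alpha h) i (q i)

/-- the row `∑_{i ∈ I} δ_{-i} q_i` -/
def rowE (h : X ≃ₜ X) (I : Finset ℤ) (q : ℤ → C(X, ℂ)) : Cc h :=
  ∑ i ∈ I, Tw.single (alpha h) (-i) ((alpha h).act (-i) (q i))

lemma CovRep.int_single {E : Type} [NormedAddCommGroup E] [NormedSpace ℂ E] (R : CovRep h E)
    (n : ℤ) (f : C(X, ℂ)) (ξ : E) :
    R.int (Tw.single (alpha h) n f) ξ = R.π f (zop R.v n ξ) := by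
  have e1 : R.int (Tw.single (alpha h) n f) = R.π f * zop R.v n := by
    rw [CovRep.int_apply]
    by_cases hf : f = 0
    · subst hf
      rw [Tw.single_zero, map_zero, zero_mul]
      refine Finset.sum_eq_zero fun k _ => ?_
      rw [Tw.coef_zero, map_zero, zero_mul]
    · have hs : Tw.supp (Tw.single (alpha h) n f) = {n} := Finsupp.support_single n hf
      rw [hs, Finset.sum_singleton, Tw.coef_single, if_pos rfl]
  rw [e1]; rfl

lemma rep_col_le [SigmaFinite μ] (hp : p ≠ ∞) (R : CovRep h (Lp ℂ p μ)) (I : Finset ℤ)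
    (q : ℤ → C(X, ℂ)) (hq : ∀ i ∈ I, ∀ j ∈ I, i ≠ j → q i * q j = 0) (hn : ∀ i ∈ I, ‖q i‖ ≤ 1) :
    ‖R.int (colE h I q)‖ ≤ (I.card : ℝ) ^ (1 / p.toReal) := by
  have hr := toReal_pos' hp
  have hc0 : (0 : ℝ) ≤ (I.card : ℝ) ^ (1 / p.toReal) := Real.rpow_nonneg (Nat.cast_nonneg _) _
  refine ContinuousLinearMap.opNorm_le_bound _ hc0 fun ξ => ?_
  have e1 : R.int (colE h I q) ξ = ∑ i ∈ I, R.π (q i) (zop R.v i ξ) := by
    unfold colE
    rw [map_sum, _root_.sum_apply]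
    exact Finset.sum_congr rfl fun i _ => CovRep.int_single R i (q i) ξ
  rw [e1]
  have h1 := R.toCRep.p_additive hp I q hq (fun i => zop R.v i ξ)
  have h2 : ∑ i ∈ I, ‖R.π (q i) (zop R.v i ξ)‖ ^ p.toReal
      ≤ (I.card : ℝ) * ‖ξ‖ ^ p.toReal := by
    have := Finset.sum_le_card_nsmul I (fun i => ‖R.π (q i) (zop R.v i ξ)‖ ^ p.toReal)
      (‖ξ‖ ^ p.toReal) (fun i hi => by
        refine Real.rpow_le_rpow (norm_nonneg _) ?_ hr.le
        refine ((R.π (q i)).le_opNorm _).trans ?_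
        rw [norm_zop]
        have := (R.contractive (q i)).trans (hn i hi)
        nlinarith [norm_nonneg ξ])
    simpa using this
  have h3 : ‖∑ i ∈ I, R.π (q i) (zop R.v i ξ)‖ ^ p.toReal
      ≤ ((I.card : ℝ) ^ (1 / p.toReal) * ‖ξ‖) ^ p.toReal := by
    rw [Real.mul_rpow hc0 (norm_nonneg _), ← Real.rpow_mul (Nat.cast_nonneg _), one_div,
      inv_mul_cancel₀ hr.ne', Real.rpow_one]
    exact h1.le.trans h2
  exact (Real.rpow_le_rpow_iff (norm_nonneg _) (by positivity) hr).1 h3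

lemma rep_row_le [SigmaFinite μ] (hp : p ≠ ∞) (R : CovRep h (Lp ℂ p μ)) (I : Finset ℤ)
    (q : ℤ → C(X, ℂ)) (hq : ∀ i ∈ I, ∀ j ∈ I, i ≠ j → q i * q j = 0) (hn : ∀ i ∈ I, ‖q i‖ ≤ 1) :
    ‖R.int (rowE h I q)‖ ≤ (I.card : ℝ) ^ (1 - 1 / p.toReal) := by
  have hr := toReal_pos' hp
  have hr1 := one_le_toReal hp
  have hc0 : (0 : ℝ) ≤ (I.card : ℝ) ^ (1 - 1 / p.toReal) := Real.rpow_nonneg (Nat.cast_nonneg _) _
  refine ContinuousLinearMap.opNorm_le_bound _ hc0 fun ξ => ?_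
  have e1 : R.int (rowE h I q) ξ = ∑ i ∈ I, zop R.v (-i) (R.π (q i) ξ) := by
    unfold rowE
    rw [map_sum, _root_.sum_apply]
    refine Finset.sum_congr rfl fun i _ => ?_
    refine (CovRep.int_single R (-i) _ ξ).trans ?_
    exact (congrArg (fun T : Lp ℂ p μ →L[ℂ] Lp ℂ p μ => T ξ) (R.cov (-i) (q i))).symm
  rw [e1]
  have h0 : ‖∑ i ∈ I, zop R.v (-i) (R.π (q i) ξ)‖ ≤ ∑ i ∈ I, ‖R.π (q i) ξ‖ := by
    refine (norm_sum_le _ _).trans (le_of_eq ?_)
    exact Finset.sum_congr rfl fun i _ => norm_zop _ _ _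
  have h1 := R.toCRep.p_additive hp I q hq (fun _ => ξ)
  have h2 : ∑ i ∈ I, R.π (q i) ξ = R.π (∑ i ∈ I, q i) ξ := by
    rw [map_sum, _root_.sum_apply]
  have h3 : ‖∑ i ∈ I, R.π (q i) ξ‖ ≤ ‖ξ‖ := by
    rw [h2]
    refine ((R.π _).le_opNorm _).trans ?_
    have := (R.contractive (∑ i ∈ I, q i)).trans (norm_sum_disj_le I q hq hn)
    nlinarith [norm_nonneg ξ]
  have h4 : ∑ i ∈ I, ‖R.π (q i) ξ‖ ^ p.toReal ≤ ‖ξ‖ ^ p.toReal := by
    rw [← h1]; exact Real.rpow_le_rpow (norm_nonneg _) h3 hr.le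
  have h5 := Real.rpow_sum_le_const_mul_sum_rpow I (fun i => ‖R.π (q i) ξ‖) hr1
  simp only [abs_norm] at h5
  have h6 : (∑ i ∈ I, ‖R.π (q i) ξ‖) ^ p.toReal
      ≤ ((I.card : ℝ) ^ (1 - 1 / p.toReal) * ‖ξ‖) ^ p.toReal := by
    rw [Real.mul_rpow hc0 (norm_nonneg _), ← Real.rpow_mul (Nat.cast_nonneg _)]
    have : (1 - 1 / p.toReal) * p.toReal = p.toReal - 1 := by field_simp
    rw [this]
    exact h5.trans (mul_le_mul_of_nonneg_left h4 (Real.rpow_nonneg (Nat.cast_nonneg _) _))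
  exact h0.trans ((Real.rpow_le_rpow_iff (Finset.sum_nonneg fun i _ => norm_nonneg _)
    (by positivity) hr).1 h6)

lemma full_col_le (hp : p ≠ ∞) (I : Finset ℤ) (q : ℤ → C(X, ℂ))
    (hq : ∀ i ∈ I, ∀ j ∈ I, i ≠ j → q i * q j = 0) (hn : ∀ i ∈ I, ‖q i‖ ≤ 1) :
    famNorm (fullFam p h) (colE h I q) ≤ (I.card : ℝ) ^ (1 / p.toReal) :=
  famNorm_le _ (Real.rpow_nonneg (Nat.cast_nonneg _) _) fun R => rep_col_le hp R.rep I q hq hn

lemma full_row_le (hp : p ≠ ∞) (I : Finset ℤ) (q : ℤ → C(X, ℂ))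
    (hq : ∀ i ∈ I, ∀ j ∈ I, i ≠ j → q i * q j = 0) (hn : ∀ i ∈ I, ‖q i‖ ≤ 1) :
    famNorm (fullFam p h) (rowE h I q) ≤ (I.card : ℝ) ^ (1 - 1 / p.toReal) :=
  famNorm_le _ (Real.rpow_nonneg (Nat.cast_nonneg _) _) fun R => rep_row_le hp R.rep I q hq hn

end H309LP
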