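import Mathlib
import Pool.Agent.H309LP.ColRow

/-!
# Bounded homomorphisms out of the full crossed product: two-sided estimates
-/

open MeasureTheory ENNReal Filter Topology

noncomputable section

namespace H309LP

/-- A bounded algebra homomorphism from (the dense subalgebra of) `F^p(ℤ, X, h)` to `B(E)`. -/
structure Act {X : Type} [TopologicalSpace X] [CompactSpace X] (h : X ≃ₜ X) (p : ℝ≥0∞)
    [Fact (1 ≤ p)] (E : Type) [NormedAddCommGroup E] [NormedSpace ℂ E] where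
  /-- the homomorphism -/
  ψ : Cc h →ₙₐ[ℂ] (E →L[ℂ] E)
  /-- the bound -/
  C : ℝ
  C_pos : 0 < C
  bound : ∀ a, ‖ψ a‖ ≤ C * famNorm (fullFam p h) a

namespace Act

variable {X : Type} [TopologicalSpace X] [CompactSpace X] {h : X ≃ₜ X} {p : ℝ≥0∞}
  [hp1 : Fact (1 ≤ p)] {E : Type} [NormedAddCommGroup E] [NormedSpace ℂ E] (A : Act h p E)

/-- the action of functions -/
def P (f : C(X, ℂ)) : E →L[ℂ] E := A.ψ (Tw.single (alpha h) 0 f)

/-- the action of the group elements -/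
def V (n : ℤ) : E →L[ℂ] E := A.ψ (Tw.single (alpha h) n 1)

lemma P_mul (f g : C(X, ℂ)) (ξ : E) : A.P (f * g) ξ = A.P f (A.P g ξ) := by
  have : Tw.single (alpha h) 0 (f * g) = Tw.single (alpha h) 0 f * Tw.single (alpha h) 0 g := by
    rw [Tw.single_mul_single, (alpha h).act_zero, add_zero]
  unfold P
  rw [this, map_mul]; rfl

lemma P_add (f g : C(X, ℂ)) (ξ : E) : A.P (f + g) ξ = A.P f ξ + A.P g ξ := by
  unfold P; rw [Tw.single_add, map_add]; rfl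

lemma P_smul (c : ℂ) (f : C(X, ℂ)) (ξ : E) : A.P (c • f) ξ = c • A.P f ξ := by
  unfold P; rw [← Tw.smul_single, map_smul]; rfl

lemma P_zero (ξ : E) : A.P 0 ξ = 0 := by
  unfold P; rw [Tw.single_zero, map_zero]; rfl

lemma P_sub (f g : C(X, ℂ)) (ξ : E) : A.P (f - g) ξ = A.P f ξ - A.P g ξ := by
  have e : f - g = f + (-1 : ℂ) • g := by rw [neg_one_smul]; abel
  rw [e, P_add, P_smul, neg_one_smul]; abel

lemma P_sum {ι : Type} (s : Finset ι) (f : ι → C(X, ℂ)) (ξ : E) :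
    A.P (∑ i ∈ s, f i) ξ = ∑ i ∈ s, A.P (f i) ξ := by
  classical
  induction s using Finset.induction_on with
  | empty => simp [P_zero]
  | insert a s ha ih => rw [Finset.sum_insert ha, Finset.sum_insert ha, P_add, ih]

lemma norm_P_le (f : C(X, ℂ)) (ξ : E) : ‖A.P f ξ‖ ≤ A.C * ‖f‖ * ‖ξ‖ := by
  refine (A.P f).le_of_opNorm_le ?_ ξ
  refine (A.bound _).trans (mul_le_mul_of_nonneg_left ?_ A.C_pos.le)
  refine famNorm_le _ (norm_nonneg _) fun R => ?_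
  refine ContinuousLinearMap.opNorm_le_bound _ (norm_nonneg _) fun η => ?_
  rw [CovRep.int_single]
  refine ((((fullFam p h) R).rep.π f).le_opNorm _).trans ?_
  rw [norm_zop]
  exact mul_le_mul_of_nonneg_right (((fullFam p h) R).rep.contractive f) (norm_nonneg _)

lemma norm_P_le_one {f : C(X, ℂ)} (hf : ‖f‖ ≤ 1) (ξ : E) : ‖A.P f ξ‖ ≤ A.C * ‖ξ‖ := by
  refine (A.norm_P_le f ξ).trans ?_
  have := mul_le_mul_of_nonneg_left hf A.C_pos.le
  rw [mul_one] at this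
  exact mul_le_mul_of_nonneg_right this (norm_nonneg _)

lemma norm_V_le (n : ℤ) (ξ : E) : ‖A.V n ξ‖ ≤ A.C * ‖ξ‖ := by
  have : ‖A.V n‖ ≤ A.C * 1 := by
    refine (A.bound _).trans (mul_le_mul_of_nonneg_left ?_ A.C_pos.le)
    refine famNorm_le _ zero_le_one fun R => ?_
    refine ContinuousLinearMap.opNorm_le_bound _ zero_le_one fun η => ?_
    rw [CovRep.int_single, ((fullFam p h) R).rep.map_one]
    change ‖zop _ _ _‖ ≤ _
    rw [norm_zop, one_mul]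
  rw [mul_one] at this
  exact (A.V n).le_of_opNorm_le this ξ

/-- the group elements applied to functions -/
lemma V_P (n : ℤ) (f : C(X, ℂ)) (ξ : E) :
    A.V n (A.P f ξ) = A.ψ (Tw.single (alpha h) n ((alpha h).act n f)) ξ := by
  have : Tw.single (alpha h) n ((alpha h).act n f)
      = Tw.single (alpha h) n 1 * Tw.single (alpha h) 0 f := by
    rw [Tw.single_mul_single, one_mul, add_zero]
  rw [this, map_mul]; rfl

lemma P_V (n : ℤ) (f : C(X, ℂ)) (ξ : E) :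
    A.P f (A.V n ξ) = A.ψ (Tw.single (alpha h) n f) ξ := by
  have : Tw.single (alpha h) n f = Tw.single (alpha h) 0 f * Tw.single (alpha h) n 1 := by
    rw [Tw.single_mul_single, map_one, mul_one, zero_add]
  rw [this, map_mul]; rfl

/-- column estimate -/
lemma col_le (hp : p ≠ ∞) (I : Finset ℤ) (k : ℤ → C(X, ℂ))
    (hk : ∀ i ∈ I, ∀ j ∈ I, i ≠ j → (alpha h).act i (k i) * (alpha h).act j (k j) = 0)
    (hn : ∀ i ∈ I, ‖k i‖ ≤ 1) (ξ : E) :
    ‖∑ i ∈ I, A.V i (A.P (k i) ξ)‖ ≤ A.C * (I.card : ℝ) ^ (1 / p.toReal) * ‖ξ‖ := by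
  have e : ∑ i ∈ I, A.V i (A.P (k i) ξ)
      = A.ψ (colE h I fun i => (alpha h).act i (k i)) ξ := by
    unfold colE
    rw [map_sum, _root_.sum_apply]
    exact Finset.sum_congr rfl fun i _ => A.V_P i (k i) ξ
  rw [e]
  refine (A.ψ _).le_of_opNorm_le ((A.bound _).trans (mul_le_mul_of_nonneg_left ?_ A.C_pos.le)) ξ
  exact full_col_le hp I _ hk fun i hi => (norm_act_le h i (k i)).trans (hn i hi)

/-- row estimate -/
lemma row_le (hp : p ≠ ∞) (I : Finset ℤ) (k : ℤ → C(X, ℂ))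
    (hk : ∀ i ∈ I, ∀ j ∈ I, i ≠ j → (alpha h).act i (k i) * (alpha h).act j (k j) = 0)
    (hn : ∀ i ∈ I, ‖k i‖ ≤ 1) (ξ : E) :
    ‖∑ i ∈ I, A.P (k i) (A.V (-i) ξ)‖ ≤ A.C * (I.card : ℝ) ^ (1 - 1 / p.toReal) * ‖ξ‖ := by
  have e : ∑ i ∈ I, A.P (k i) (A.V (-i) ξ)
      = A.ψ (rowE h I fun i => (alpha h).act i (k i)) ξ := by
    unfold rowE
    rw [map_sum, _root_.sum_apply]
    refine Finset.sum_congr rfl fun i _ => ?_
    rw [A.P_V, ← (alpha h).act_add, neg_add_cancel, (alpha h).act_zero]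
  rw [e]
  refine (A.ψ _).le_of_opNorm_le ((A.bound _).trans (mul_le_mul_of_nonneg_left ?_ A.C_pos.le)) ξ
  exact full_row_le hp I _ hk fun i hi => (norm_act_le h i (k i)).trans (hn i hi)

omit [CompactSpace X] in
lemma act_mul_zero {i j : ℤ} {g : C(X, ℂ)}
    (hg : (alpha h).act i g * (alpha h).act j g = 0) (a b : C(X, ℂ)) :
    (alpha h).act i (a * g) * (alpha h).act j (b * g) = 0 := by
  rw [map_mul, map_mul]
  calc (alpha h).act i a * (alpha h).act i g * ((alpha h).act j b * (alpha h).act j g)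
      = (alpha h).act i a * (alpha h).act j b * ((alpha h).act i g * (alpha h).act j g) := by ring
    _ = 0 := by rw [hg, mul_zero]

/-- product of row and column entries -/
lemma entry (g a b : C(X, ℂ)) (i j : ℤ) (ξ : E) :
    A.P (a * g) (A.V (-i) (A.V j (A.P (b * g) ξ)))
      = A.ψ (Tw.single (alpha h) (j - i) (a * g * (alpha h).act (j - i) (b * g))) ξ := by
  have : Tw.single (alpha h) (j - i) (a * g * (alpha h).act (j - i) (b * g))
      = Tw.single (alpha h) 0 (a * g) * (Tw.single (alpha h) (-i) 1 *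
        (Tw.single (alpha h) j 1 * Tw.single (alpha h) 0 (b * g))) := by
    rw [Tw.single_mul_single, Tw.single_mul_single, Tw.single_mul_single]
    rw [(alpha h).act_zero, one_mul, one_mul, ← (alpha h).act_add]
    congr 1
    · ring
    · congr 2; ring_nf
  rw [this, map_mul, map_mul, map_mul]; rfl

variable (I : Finset ℤ) (g : C(X, ℂ)) (ρ σ : ℤ → C(X, ℂ))

lemma norm_mul_le_one {a g : C(X, ℂ)} (ha : ‖a‖ ≤ 1) (hg : ‖g‖ ≤ 1) : ‖a * g‖ ≤ 1 :=
  (norm_mul_le _ _).trans (by nlinarith [norm_nonneg a, norm_nonneg g])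

/-- upper estimate for `∑ V_i P(ρ_i) ξ₀` -/
lemma upper (hp : p ≠ ∞)
    (hg : ∀ i ∈ I, ∀ j ∈ I, i ≠ j → (alpha h).act i g * (alpha h).act j g = 0) (hg1 : ‖g‖ ≤ 1)
    (hρ : ∀ i ∈ I, ‖ρ i‖ ≤ 1) {ξ₀ : E} (hξ : A.P g ξ₀ = ξ₀) :
    ‖∑ i ∈ I, A.V i (A.P (ρ i) ξ₀)‖ ≤ A.C * (I.card : ℝ) ^ (1 / p.toReal) * ‖ξ₀‖ := by
  have h1 := A.col_le hp I (fun i => ρ i * g)
    (fun i hi j hj hij => act_mul_zero (hg i hi j hj hij) _ _)
    (fun i hi => norm_mul_le_one (hρ i hi) hg1) ξ₀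
  have e : ∑ i ∈ I, A.V i (A.P (ρ i * g) ξ₀) = ∑ i ∈ I, A.V i (A.P (ρ i) ξ₀) :=
    Finset.sum_congr rfl fun i _ => by rw [P_mul, hξ]
  rwa [e] at h1

/-- lower estimate for `∑ V_i P(ρ_i) ξ₀` -/
lemma lower (hp : p ≠ ∞)
    (hg : ∀ i ∈ I, ∀ j ∈ I, i ≠ j → (alpha h).act i g * (alpha h).act j g = 0) (hg1 : ‖g‖ ≤ 1)
    (hσ : ∀ i ∈ I, ‖σ i‖ ≤ 1) {ξ₀ : E} (hξ : A.P g ξ₀ = ξ₀) :
    ‖∑ i ∈ I, A.P (σ i * ρ i) ξ₀‖ ≤ A.C * (I.card : ℝ) ^ (1 - 1 / p.toReal)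
      * ‖∑ i ∈ I, A.V i (A.P (ρ i) ξ₀)‖ := by
  classical
  have h1 := A.row_le hp I (fun i => σ i * g)
    (fun i hi j hj hij => act_mul_zero (hg i hi j hj hij) _ _)
    (fun i hi => norm_mul_le_one (hσ i hi) hg1) (∑ i ∈ I, A.V i (A.P (ρ i) ξ₀))
  have e : ∑ i ∈ I, A.P (σ i * g) (A.V (-i) (∑ j ∈ I, A.V j (A.P (ρ j) ξ₀)))
      = ∑ i ∈ I, A.P (σ i * ρ i) ξ₀ := by
    refine Finset.sum_congr rfl fun i hi => ?_
    rw [map_sum, map_sum, Finset.sum_eq_single i]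
    · have e1 : A.P (ρ i) ξ₀ = A.P (ρ i * g) ξ₀ := by rw [P_mul, hξ]
      rw [e1, entry, sub_self, (alpha h).act_zero]
      change A.P _ ξ₀ = _
      have e2 : σ i * g * (ρ i * g) = (σ i * ρ i) * (g * g) := by ring
      rw [e2, A.P_mul (σ i * ρ i) (g * g), A.P_mul g g, hξ, hξ]
    · intro j hj hji
      have e1 : A.P (ρ j) ξ₀ = A.P (ρ j * g) ξ₀ := by rw [P_mul, hξ]
      rw [e1, entry]
      have h0 := act_mul_zero (hg i hi j hj hji.symm) (σ i) (ρ j)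
      have h2 : (alpha h).act (-i) ((alpha h).act i (σ i * g) * (alpha h).act j (ρ j * g)) = 0 := by
        rw [h0, map_zero]
      rw [map_mul, ← (alpha h).act_add, ← (alpha h).act_add, neg_add_cancel,
        (alpha h).act_zero, show -i + j = j - i by ring] at h2
      rw [h2, Tw.single_zero, map_zero]; rfl
    · intro h; exact absurd hi h
  rwa [e] at h1

/-! ### Finite unconditionality -/

/-- for a functional `L` and functions `d_i` with `∑ |d_i| ≤ 1`: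
`∑ |L(P(d_i) ξ)| ≤ ‖L‖ C ‖ξ‖` -/
lemma sum_functional_le {ι : Type} (F : Finset ι) (d : ι → C(X, ℂ))
    (hd : ∀ x, ∑ i ∈ F, ‖d i x‖ ≤ 1) (L : E →L[ℂ] ℂ) (ξ : E) :
    ∑ i ∈ F, ‖L (A.P (d i) ξ)‖ ≤ ‖L‖ * (A.C * ‖ξ‖) := by
  -- choose unimodular coefficients
  have hex : ∀ z : ℂ, ∃ u : ℂ, ‖u‖ ≤ 1 ∧ u * z = (‖z‖ : ℂ) := by
    intro z
    by_cases hz : z = 0
    · exact ⟨0, by simp, by simp [hz]⟩
    · have hz' : (‖z‖ : ℂ) ≠ 0 := by exact_mod_cast (norm_ne_zero_iff.2 hz)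
      refine ⟨(‖z‖ : ℂ) / z, ?_, ?_⟩
      · rw [norm_div, Complex.norm_real, norm_norm, div_self (norm_ne_zero_iff.2 hz)]
      · field_simp
  choose u hu1 hu2 using hex
  set c : ι → ℂ := fun i => u (L (A.P (d i) ξ)) with hc
  have h1 : L (A.P (∑ i ∈ F, c i • d i) ξ) = ((∑ i ∈ F, ‖L (A.P (d i) ξ)‖ : ℝ) : ℂ) := by
    rw [P_sum, map_sum]
    push_cast
    refine Finset.sum_congr rfl fun i _ => ?_
    rw [P_smul, map_smul, smul_eq_mul, hc]
    exact hu2 _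
  have h2 : ‖∑ i ∈ F, c i • d i‖ ≤ 1 := by
    rw [ContinuousMap.norm_le _ zero_le_one]
    intro x
    rw [ContinuousMap.sum_apply]
    refine (norm_sum_le _ _).trans ((Finset.sum_le_sum fun i _ => ?_).trans (hd x))
    rw [ContinuousMap.smul_apply, norm_smul]
    have := hu1 (L (A.P (d i) ξ))
    nlinarith [norm_nonneg (d i x), norm_nonneg (c i)]
  have h3 : ‖L (A.P (∑ i ∈ F, c i • d i) ξ)‖ ≤ ‖L‖ * (A.C * ‖ξ‖) :=
    (L.le_opNorm _).trans (mul_le_mul_of_nonneg_left (A.norm_P_le_one h2 ξ) (norm_nonneg _))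
  rw [h1, Complex.norm_real, Real.norm_eq_abs,
    abs_of_nonneg (Finset.sum_nonneg fun i _ => norm_nonneg _)] at h3
  exact h3

/-! ### Exhaustivity in `ℓ^p` -/

variable {p₂ : ℝ≥0∞} [hp2 : Fact (1 ≤ p₂)]

/-- coordinate functional -/
def coord (J : E →ₗᵢ[ℂ] Ell p₂) (c : ℤ) : E →L[ℂ] ℂ :=
  (lp.evalCLM (𝕜 := ℂ) (E := fun _ : ℤ => ℂ) (p := p₂) c) ∘L J.toContinuousLinearMap

lemma coord_apply (J : E →ₗᵢ[ℂ] Ell p₂) (c : ℤ) (ξ : E) : coord J c ξ = J ξ c := rfl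

lemma exhaust (J : E →ₗᵢ[ℂ] Ell p₂) (hp₂ : p₂ ≠ ∞) (d : ℕ → C(X, ℂ)) (hd : ∀ (F : Finset ℕ) (x : X),
    ∑ i ∈ F, ‖d i x‖ ≤ 1) (ξ : E) : Tendsto (fun n => A.P (d n) ξ) atTop (𝓝 0) := by
  have hr := toReal_pos' hp₂
  have hJ : ∀ c : ℤ, Tendsto (fun n => J (A.P (d n) ξ) c) atTop (𝓝 0) := by
    intro c
    have hs : Summable fun n => ‖J (A.P (d n) ξ) c‖ := by
      refine summable_of_sum_le (c := ‖coord J c‖ * (A.C * ‖ξ‖)) (fun _ => norm_nonneg _) fun F => ?_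
      exact A.sum_functional_le F d (fun x => hd F x) (coord J c) ξ
    exact tendsto_zero_iff_norm_tendsto_zero.2 hs.tendsto_atTop_zero
  rw [tendsto_zero_iff_norm_tendsto_zero]
  by_contra hcon
  rw [Metric.tendsto_atTop] at hcon
  push Not at hcon
  obtain ⟨δ, hδ, hfreq⟩ := hcon
  have hfreq' : ∃ᶠ n in atTop, δ ≤ ‖A.P (d n) ξ‖ := by
    rw [frequently_atTop]
    intro N
    obtain ⟨n, hn, h1⟩ := hfreq N
    refine ⟨n, hn, ?_⟩
    simpa using h1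
  obtain ⟨φ, hφ, hφδ⟩ := extraction_of_frequently_atTop hfreq'
  have hbound : ∀ n, ‖A.P (d n) ξ‖ ≤ A.C * ‖ξ‖ := by
    intro n
    refine A.norm_P_le_one ?_ ξ
    rw [ContinuousMap.norm_le _ zero_le_one]
    intro x
    simpa using hd {n} x
  obtain ⟨N, hN⟩ : ∃ N : ℕ, (A.C * ‖ξ‖) ^ p₂.toReal < (δ / 2) ^ p₂.toReal * N := by
    have hpos : 0 < (δ / 2) ^ p₂.toReal := Real.rpow_pos_of_pos (by positivity) _
    obtain ⟨N, hN⟩ := exists_nat_gt ((A.C * ‖ξ‖) ^ p₂.toReal / (δ / 2) ^ p₂.toReal)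
    exact ⟨N, by rwa [div_lt_iff₀' hpos] at hN⟩
  obtain ⟨κ, hκ, h1, -⟩ := glidingHump hp₂ (fun _ k => J (A.P (d (φ k)) ξ)) δ (A.C * ‖ξ‖) hδ
    (fun _ k => by rw [J.norm_map]; exact hφδ k) (fun _ k => by rw [J.norm_map]; exact hbound _)
    (fun _ c => (hJ c).comp hφ.tendsto_atTop) N
  have hinj : Set.InjOn (fun i => φ (κ i)) (Finset.range N : Set ℕ) := by
    intro i hi j hj hij
    have hij' : κ i = κ j := hφ.injective hij
    rw [Finset.coe_range, Set.mem_Iio] at hi hj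
    rcases lt_trichotomy i j with hlt | heq | hgt
    · exact absurd hij' (hκ i j hlt hj).ne
    · exact heq
    · exact absurd hij'.symm (hκ j i hgt hi).ne
  have h2 : ‖∑ i ∈ Finset.range N, J (A.P (d (φ (κ i))) ξ)‖ ≤ A.C * ‖ξ‖ := by
    rw [← map_sum, J.norm_map, ← P_sum]
    refine A.norm_P_le_one ?_ ξ
    rw [ContinuousMap.norm_le _ zero_le_one]
    intro x
    rw [ContinuousMap.sum_apply]
    refine (norm_sum_le _ _).trans ?_
    have := hd ((Finset.range N).image fun i => φ (κ i)) x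
    rwa [Finset.sum_image hinj] at this
  have h3 := Real.rpow_le_rpow (norm_nonneg _) h2 hr.le
  linarith

end Act

end H309LP
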