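import Mathlib
import Pool.Agent.H309LP.Core

/-!
# Bounded homomorphisms into operators on subspaces of `ℓ^{p₂}`: bumps, atoms, summability
-/

open MeasureTheory ENNReal Filter Topology

noncomputable section

namespace H309LP

/-! ### growth comparison -/

lemma growth_contra {r₁ r₂ c₁ c₂ c₃ c₄ : ℝ} (hr₁ : 0 < r₁) (hr₂ : 0 < r₂) (hne : r₁ ≠ r₂)
    (hc₁ : 0 < c₁) (hc₂ : 0 < c₂) (hc₃ : 0 < c₃) (_hc₄ : 0 < c₄)
    (H : ∀ N : ℕ, 0 < N → ∃ t : ℝ, 0 ≤ t ∧ c₁ * (N : ℝ) ^ (1 / r₁) ≤ t ∧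
      t ≤ c₂ * (N : ℝ) ^ (1 / r₁) ∧ c₃ * N ≤ t ^ r₂ ∧ t ^ r₂ ≤ c₄ * N) : False := by
  set s := r₂ / r₁ with hs
  have hs1 : s ≠ 1 := by
    intro h1
    rw [hs, div_eq_one_iff_eq hr₁.ne'] at h1
    exact hne h1.symm
  have hA : ∀ N : ℕ, 0 < N → c₃ * N ≤ c₂ ^ r₂ * (N : ℝ) ^ s ∧ c₁ ^ r₂ * (N : ℝ) ^ s ≤ c₄ * N := by
    intro N hN
    obtain ⟨t, ht, h1, h2, h3, h4⟩ := H N hN
    have hN0 : (0 : ℝ) ≤ N := Nat.cast_nonneg _
    have e : ∀ c : ℝ, 0 < c → (c * (N : ℝ) ^ (1 / r₁)) ^ r₂ = c ^ r₂ * (N : ℝ) ^ s := by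
      intro c hc
      rw [Real.mul_rpow hc.le (Real.rpow_nonneg hN0 _), ← Real.rpow_mul hN0]
      congr 2; rw [hs]; ring
    constructor
    · refine h3.trans ?_
      rw [← e c₂ hc₂]
      exact Real.rpow_le_rpow ht h2 hr₂.le
    · refine le_trans ?_ h4
      rw [← e c₁ hc₁]
      exact Real.rpow_le_rpow (by positivity) h1 hr₂.le
  have key : ∀ (a b : ℝ), 0 < a → 0 < b →
      ¬ ∀ N : ℕ, 0 < N → (N : ℝ) ^ a ≤ b := by
    intro a b ha hb hcon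
    have ht : Tendsto (fun N : ℕ => (N : ℝ) ^ a) atTop atTop :=
      (tendsto_rpow_atTop ha).comp tendsto_natCast_atTop_atTop
    obtain ⟨N, hN1, hN2⟩ := ((ht.eventually_gt_atTop b).and (eventually_gt_atTop 0)).exists
    exact absurd (hcon N hN2) (not_le.2 hN1)
  rcases lt_or_gt_of_ne hs1 with hlt | hgt
  · refine key (1 - s) (c₂ ^ r₂ / c₃) (by linarith) (by positivity) fun N hN => ?_
    have hNpos : (0 : ℝ) < N := by exact_mod_cast hN
    rw [le_div_iff₀ hc₃, Real.rpow_sub hNpos, Real.rpow_one]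
    have := (hA N hN).1
    rw [div_mul_eq_mul_div, div_le_iff₀ (Real.rpow_pos_of_pos hNpos _)]
    linarith
  · refine key (s - 1) ((|c₄| + 1) / c₁ ^ r₂) (by linarith) (by positivity) fun N hN => ?_
    have hNpos : (0 : ℝ) < N := by exact_mod_cast hN
    have hc1 : 0 < c₁ ^ r₂ := Real.rpow_pos_of_pos hc₁ _
    rw [le_div_iff₀ hc1, Real.rpow_sub hNpos, Real.rpow_one, div_mul_eq_mul_div,
      div_le_iff₀ hNpos]
    have := (hA N hN).2
    nlinarith [le_abs_self c₄]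

/-! ### Bump functions -/

section bump
variable {X : Type} [MetricSpace X]

/-- `1` for `dist x y ≤ ρ/2`, `0` for `dist x y ≥ ρ` -/
def bump (x : X) (ρ : ℝ) : C(X, ℝ) :=
  ⟨fun y => max 0 (min 1 (2 - 2 * dist x y / ρ)), by fun_prop⟩

lemma bump_nonneg (x : X) (ρ : ℝ) (y : X) : 0 ≤ bump x ρ y := le_max_left _ _
lemma bump_le_one (x : X) (ρ : ℝ) (y : X) : bump x ρ y ≤ 1 :=
  max_le zero_le_one (min_le_left _ _)

lemma bump_eq_one {x : X} {ρ : ℝ} (hρ : 0 < ρ) {y : X} (hy : dist x y ≤ ρ / 2) :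
    bump x ρ y = 1 := by
  change max 0 (min 1 (2 - 2 * dist x y / ρ)) = 1
  have : 1 ≤ 2 - 2 * dist x y / ρ := by
    have : 2 * dist x y / ρ ≤ 1 := by rw [div_le_one hρ]; linarith
    linarith
  rw [min_eq_left this, max_eq_right zero_le_one]

lemma bump_eq_zero {x : X} {ρ : ℝ} (hρ : 0 < ρ) {y : X} (hy : ρ ≤ dist x y) :
    bump x ρ y = 0 := by
  change max 0 (min 1 (2 - 2 * dist x y / ρ)) = 0
  have : 2 - 2 * dist x y / ρ ≤ 0 := by
    have : 2 ≤ 2 * dist x y / ρ := by rw [le_div_iff₀ hρ]; linarith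
    linarith
  exact max_eq_left ((min_le_right _ _).trans this)

lemma norm_cplx_le_one [CompactSpace X] {g : C(X, ℝ)} (hg : ∀ x, |g x| ≤ 1) : ‖cplx g‖ ≤ 1 := by
  rw [ContinuousMap.norm_le _ zero_le_one]
  intro x
  rw [cplx_apply, Complex.norm_real]; exact hg x

lemma cplx_mul (f g : C(X, ℝ)) : cplx (f * g) = cplx f * cplx g := by
  ext x; exact Complex.ofReal_mul _ _
lemma cplx_add (f g : C(X, ℝ)) : cplx (f + g) = cplx f + cplx g := by
  ext x; exact Complex.ofReal_add _ _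
lemma cplx_sub (f g : C(X, ℝ)) : cplx (f - g) = cplx f - cplx g := by
  ext x; exact Complex.ofReal_sub _ _
lemma cplx_one : cplx (1 : C(X, ℝ)) = 1 := by
  ext x; exact Complex.ofReal_one

variable [CompactSpace X] [Infinite X] {h : X ≃ₜ X}

omit [CompactSpace X] in
/-- minimal homeomorphisms of infinite spaces have no periodic points -/
lemma aperiodic (hmin : ∀ x, Dense (Set.range fun n : ℤ => (h ^ n : X ≃ₜ X) x)) (x : X) {i j : ℤ}
    (hij : i ≠ j) : (h ^ i : X ≃ₜ X) x ≠ (h ^ j : X ≃ₜ X) x := by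
  intro heq
  have hadd : ∀ (m n : ℤ) (y : X), (h ^ (m + n) : X ≃ₜ X) y
      = (h ^ m : X ≃ₜ X) ((h ^ n : X ≃ₜ X) y) := fun m n y => by rw [zpow_add]; rfl
  obtain ⟨n, hn, hnx⟩ : ∃ n : ℕ, 0 < n ∧ (h ^ (n : ℤ) : X ≃ₜ X) x = x := by
    rcases lt_or_gt_of_ne hij with hlt | hgt
    · refine ⟨(j - i).toNat, by omega, ?_⟩
      have : ((j - i).toNat : ℤ) = -i + j := by omega
      rw [this, hadd, ← heq, ← hadd, neg_add_cancel, zpow_zero]; rfl
    · refine ⟨(i - j).toNat, by omega, ?_⟩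
      have : ((i - j).toNat : ℤ) = -j + i := by omega
      rw [this, hadd, heq, ← hadd, neg_add_cancel, zpow_zero]; rfl
  have hmul : ∀ k : ℤ, (h ^ ((n : ℤ) * k) : X ≃ₜ X) x = x := by
    intro k
    induction k using Int.induction_on with
    | zero => rw [mul_zero, zpow_zero]; rfl
    | succ k ih => rw [mul_add, mul_one, hadd, hnx, ih]
    | pred k ih =>
      have h1 : (h ^ (-(n : ℤ)) : X ≃ₜ X) x = x := by
        conv_lhs => rw [← hnx]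
        rw [← hadd, neg_add_cancel, zpow_zero]; rfl
      rw [mul_sub, mul_one, sub_eq_add_neg, hadd, h1, ih]
  have hfin : (Set.range fun m : ℤ => (h ^ m : X ≃ₜ X) x).Finite := by
    refine (Set.Finite.image (fun m : ℕ => (h ^ (m : ℤ) : X ≃ₜ X) x)
      (Set.finite_lt_nat n)).subset ?_
    rintro _ ⟨m, rfl⟩
    refine ⟨(m % n).toNat, ?_, ?_⟩
    · have := Int.emod_lt_of_pos m (show (0 : ℤ) < n by exact_mod_cast hn)
      have h2 := Int.emod_nonneg m (show (n : ℤ) ≠ 0 by omega)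
      change (m % n).toNat < n
      omega
    · have h2 := Int.emod_nonneg m (show (n : ℤ) ≠ 0 by omega)
      have h3 : (((m % n).toNat : ℕ) : ℤ) = m % n := Int.toNat_of_nonneg h2
      change (h ^ (((m % n).toNat : ℕ) : ℤ) : X ≃ₜ X) x = (h ^ m : X ≃ₜ X) x
      rw [h3]
      conv_rhs => rw [← Int.emod_add_mul_ediv m n, hadd, hmul]
  have huniv : (Set.range fun m : ℤ => (h ^ m : X ≃ₜ X) x) = Set.univ := by
    have := (hmin x).closure_eq
    rwa [hfin.isClosed.closure_eq] at this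
  rw [huniv] at hfin
  exact Set.infinite_univ hfin

omit [CompactSpace X] in
/-- small balls have disjoint translates -/
lemma exists_radius (hmin : ∀ x, Dense (Set.range fun n : ℤ => (h ^ n : X ≃ₜ X) x)) (x : X)
    (I : Finset ℤ) : ∃ ρ > 0, ∀ i ∈ I, ∀ j ∈ I, i ≠ j → ∀ y z, dist x y < ρ → dist x z < ρ →
      (h ^ i : X ≃ₜ X) y ≠ (h ^ j : X ≃ₜ X) z := by
  have h1 : ∀ᶠ q : X × X in 𝓝 (x, x), ∀ i ∈ I, ∀ j ∈ I, i ≠ j →
      (h ^ i : X ≃ₜ X) q.1 ≠ (h ^ j : X ≃ₜ X) q.2 := by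
    rw [Filter.eventually_all_finset]
    intro i hi
    rw [Filter.eventually_all_finset]
    intro j hj
    by_cases hij : i = j
    · exact Eventually.of_forall fun q hne => absurd hij hne
    · have hopen : IsOpen {q : X × X | (h ^ i : X ≃ₜ X) q.1 ≠ (h ^ j : X ≃ₜ X) q.2} := by
        refine isOpen_ne_fun ?_ ?_
        · exact (h ^ i : X ≃ₜ X).continuous.comp continuous_fst
        · exact (h ^ j : X ≃ₜ X).continuous.comp continuous_snd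
      filter_upwards [hopen.mem_nhds (show (x, x) ∈ _ from aperiodic hmin x hij)] with q hq _
      exact hq
  obtain ⟨ρ, hρ, hball⟩ := Metric.eventually_nhds_iff.1 h1
  refine ⟨ρ, hρ, fun i hi j hj hij y z hy hz => ?_⟩
  have : dist (y, z) (x, x) < ρ := by
    rw [Prod.dist_eq]
    exact max_lt (by rw [dist_comm]; exact hy) (by rw [dist_comm]; exact hz)
  exact hball this i hi j hj hij

omit [CompactSpace X] [Infinite X] in
lemma act_bump_zero {x : X} {ρ : ℝ} {I : Finset ℤ}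
    (hI : ∀ i ∈ I, ∀ j ∈ I, i ≠ j → ∀ y z, dist x y < ρ → dist x z < ρ →
      (h ^ i : X ≃ₜ X) y ≠ (h ^ j : X ≃ₜ X) z) (g : C(X, ℂ)) (hg : ∀ y, g y ≠ 0 → dist x y < ρ) :
    ∀ i ∈ I, ∀ j ∈ I, i ≠ j → (alpha h).act i g * (alpha h).act j g = 0 := by
  intro i hi j hj hij
  ext w
  rw [ContinuousMap.mul_apply, alpha_apply, alpha_apply, ContinuousMap.zero_apply]
  by_contra hne
  rw [mul_eq_zero, not_or] at hne
  have h1 := hg _ hne.1
  have h2 := hg _ hne.2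
  refine hI i hi j hj hij _ _ h1 h2 ?_
  have e : ∀ i : ℤ, (h ^ i : X ≃ₜ X) ((h ^ (-i) : X ≃ₜ X) w) = w := by
    intro i
    have : (h ^ (i + -i) : X ≃ₜ X) w = (h ^ i : X ≃ₜ X) ((h ^ (-i) : X ≃ₜ X) w) := by
      rw [zpow_add]; rfl
    rw [← this, add_neg_cancel, zpow_zero]; rfl
  rw [e, e]

end bump

namespace Act

variable {X : Type} [MetricSpace X] [CompactSpace X] {h : X ≃ₜ X} {p : ℝ≥0∞}
  [hp1 : Fact (1 ≤ p)] {E : Type} [NormedAddCommGroup E] [NormedSpace ℂ E] (A : Act h p E)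

/-- A localized vector. -/
lemma exists_localized [Infinite X]
    (hmin : ∀ x, Dense (Set.range fun n : ℤ => (h ^ n : X ≃ₜ X) x)) (hne : A.P 1 ≠ 0)
    (I : Finset ℤ) : ∃ (g : C(X, ℂ)) (ξ₀ : E), ‖g‖ ≤ 1 ∧ ξ₀ ≠ 0 ∧ A.P g ξ₀ = ξ₀ ∧
      ∀ i ∈ I, ∀ j ∈ I, i ≠ j → (alpha h).act i g * (alpha h).act j g = 0 := by
  classical
  choose ρ hρ hI using fun x => exists_radius hmin x I
  obtain ⟨T, hT⟩ := isCompact_univ.elim_finite_subcover (fun x : X => Metric.ball x (ρ x / 2))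
    (fun x => Metric.isOpen_ball)
    (fun x _ => Set.mem_iUnion.2 ⟨x, Metric.mem_ball_self (half_pos (hρ x))⟩)
  set φ : X → C(X, ℝ) := fun x => ⟨fun y => max 0 (ρ x / 2 - dist x y), by fun_prop⟩ with hφ
  have hφn : ∀ x y, 0 ≤ φ x y := fun x y => le_max_left _ _
  have hφpos : ∀ y, 0 < ∑ x ∈ T, φ x y := by
    intro y
    obtain ⟨x, hx⟩ := Set.mem_iUnion.1 (hT (Set.mem_univ y))
    obtain ⟨hxT, hy⟩ := Set.mem_iUnion.1 hx
    refine Finset.sum_pos' (fun x _ => hφn x y) ⟨x, hxT, ?_⟩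
    rw [Metric.mem_ball, dist_comm] at hy
    exact lt_max_of_lt_right (by linarith)
  have hex : ∃ x ∈ T, A.P (cplx (φ x)) ≠ 0 := by
    by_contra hcon
    push Not at hcon
    apply hne
    have h1 : ∀ ξ, A.P (∑ x ∈ T, cplx (φ x)) ξ = 0 := by
      intro ξ
      rw [P_sum]
      exact Finset.sum_eq_zero fun x hx => by rw [hcon x hx]; rfl
    have hsum : ∀ y, (∑ x ∈ T, cplx (φ x)) y = ((∑ x ∈ T, φ x y : ℝ) : ℂ) := by
      intro y; rw [ContinuousMap.sum_apply]; push_cast; rfl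
    have hne' : ∀ y, (∑ x ∈ T, cplx (φ x)) y ≠ 0 := by
      intro y; rw [hsum]; exact_mod_cast (hφpos y).ne'
    set w : C(X, ℂ) := ⟨fun y => ((∑ x ∈ T, cplx (φ x)) y)⁻¹,
      (∑ x ∈ T, cplx (φ x)).continuous.inv₀ hne'⟩
    have hw : w * (∑ x ∈ T, cplx (φ x)) = 1 := by
      ext y; exact inv_mul_cancel₀ (hne' y)
    ext ξ
    rw [← hw, P_mul, h1, map_zero]; rfl
  obtain ⟨x, -, hx⟩ := hex
  obtain ⟨ξ, hξ⟩ : ∃ ξ, A.P (cplx (φ x)) ξ ≠ 0 := by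
    by_contra hcon
    push Not at hcon
    exact hx (by ext ξ; rw [hcon ξ]; rfl)
  refine ⟨cplx (bump x (ρ x)), A.P (cplx (φ x)) ξ, ?_, hξ, ?_, ?_⟩
  · refine norm_cplx_le_one fun y => ?_
    rw [abs_of_nonneg (bump_nonneg _ _ _)]; exact bump_le_one _ _ _
  · rw [← P_mul]
    congr 2
    ext y
    rw [ContinuousMap.mul_apply, cplx_apply, cplx_apply]
    by_cases hy : dist x y ≤ ρ x / 2
    · rw [bump_eq_one (hρ x) hy]; simp
    · have : φ x y = 0 := by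
        push Not at hy
        exact max_eq_left (by linarith)
      rw [this]; simp
  · refine act_bump_zero (hI x) _ fun y hy => ?_
    by_contra hcon
    push Not at hcon
    exact hy (by rw [cplx_apply, bump_eq_zero (hρ x) hcon]; simp)

lemma P_one_of {g : C(X, ℂ)} {ξ₀ : E} (hξ : A.P g ξ₀ = ξ₀) : A.P 1 ξ₀ = ξ₀ := by
  calc A.P 1 ξ₀ = A.P 1 (A.P g ξ₀) := by rw [hξ]
    _ = A.P (1 * g) ξ₀ := (A.P_mul _ _ _).symm
    _ = ξ₀ := by rw [one_mul, hξ]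

lemma P_const {g : C(X, ℂ)} {ξ₀ : E} (hξ : A.P g ξ₀ = ξ₀) (c : ℂ) :
    A.P (c • (1 : C(X, ℂ))) ξ₀ = c • ξ₀ := by rw [P_smul, A.P_one_of hξ]

/-- Two-sided estimate for signed sums of translates of a localized vector. -/
lemma two_sided (hp : p ≠ ∞) (I : Finset ℤ) (hI : I.Nonempty) {g : C(X, ℂ)} {ξ₀ : E}
    (hg1 : ‖g‖ ≤ 1) (hξ : A.P g ξ₀ = ξ₀)
    (hg : ∀ i ∈ I, ∀ j ∈ I, i ≠ j → (alpha h).act i g * (alpha h).act j g = 0)
    (ε : ℤ → ℂ) (hε : ∀ i, ‖ε i‖ ≤ 1) (hε2 : ∀ i, ε i * ε i = 1) :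
    A.C⁻¹ * (I.card : ℝ) ^ (1 / p.toReal) * ‖ξ₀‖ ≤ ‖∑ i ∈ I, ε i • A.V i ξ₀‖ ∧
    ‖∑ i ∈ I, ε i • A.V i ξ₀‖ ≤ A.C * (I.card : ℝ) ^ (1 / p.toReal) * ‖ξ₀‖ := by
  have hn : ∀ i ∈ I, ‖(ε i • (1 : C(X, ℂ)))‖ ≤ 1 := by
    intro i _
    rw [norm_smul]
    have h1 : ‖(1 : C(X, ℂ))‖ ≤ 1 := by
      rw [ContinuousMap.norm_le _ zero_le_one]; intro x; simp
    nlinarith [hε i, norm_nonneg (ε i), norm_nonneg (1 : C(X, ℂ))]
  have e : ∑ i ∈ I, A.V i (A.P (ε i • (1 : C(X, ℂ))) ξ₀) = ∑ i ∈ I, ε i • A.V i ξ₀ := by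
    refine Finset.sum_congr rfl fun i _ => ?_
    rw [A.P_const hξ, map_smul]
  have hup := A.upper I g (fun i => ε i • (1 : C(X, ℂ))) hp hg hg1 hn hξ
  have hlo := A.lower I g (fun i => ε i • (1 : C(X, ℂ))) (fun i => ε i • (1 : C(X, ℂ))) hp hg hg1
    hn hξ
  rw [e] at hup hlo
  refine ⟨?_, hup⟩
  have e2 : ∑ i ∈ I, A.P (ε i • (1 : C(X, ℂ)) * (ε i • (1 : C(X, ℂ)))) ξ₀
      = (I.card : ℂ) • ξ₀ := by
    have : ∀ i ∈ I, A.P (ε i • (1 : C(X, ℂ)) * (ε i • (1 : C(X, ℂ)))) ξ₀ = ξ₀ := by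
      intro i _
      have : ε i • (1 : C(X, ℂ)) * (ε i • (1 : C(X, ℂ))) = (1 : C(X, ℂ)) := by
        rw [smul_mul_smul_comm, hε2, one_smul, one_mul]
      rw [this, A.P_one_of hξ]
    rw [Finset.sum_congr rfl this, Finset.sum_const, Nat.cast_smul_eq_nsmul]
  rw [e2, norm_smul, Complex.norm_natCast] at hlo
  have hcard : (0 : ℝ) < I.card := by exact_mod_cast hI.card_pos
  rw [Real.rpow_sub hcard, Real.rpow_one] at hlo
  have hpos : 0 < (I.card : ℝ) ^ (1 / p.toReal) := Real.rpow_pos_of_pos hcard _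
  set S := ‖∑ i ∈ I, ε i • A.V i ξ₀‖
  have h1 : (I.card : ℝ) * ‖ξ₀‖ * (I.card : ℝ) ^ (1 / p.toReal) ≤ A.C * I.card * S := by
    have := mul_le_mul_of_nonneg_right hlo hpos.le
    calc (I.card : ℝ) * ‖ξ₀‖ * (I.card : ℝ) ^ (1 / p.toReal)
        ≤ A.C * ((I.card : ℝ) / (I.card : ℝ) ^ (1 / p.toReal)) * S
          * (I.card : ℝ) ^ (1 / p.toReal) := this
      _ = A.C * I.card * S := by field_simp
  rw [mul_assoc, inv_mul_le_iff₀ A.C_pos]
  nlinarith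

end Act

end H309LP
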