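import Mathlib
import Pool.Agent.H309LP.Atoms

/-!
# Joint eigenvectors are impossible in `ℓ^{p₂}`, and no homomorphism into `B(H)`
-/

open MeasureTheory ENNReal Filter Topology

noncomputable section

namespace H309LP

namespace Act

variable {X : Type} [MetricSpace X] [CompactSpace X] [Infinite X] {h : X ≃ₜ X} {p : ℝ≥0∞}
  [hp1 : Fact (1 ≤ p)] {E : Type} [NormedAddCommGroup E] [NormedSpace ℂ E] (A : Act h p E)

/-- two-sided estimate for an eigenvector -/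
lemma atom_two_sided (hp : p ≠ ∞)
    (hmin : ∀ x, Dense (Set.range fun n : ℤ => (h ^ n : X ≃ₜ X) x))
    {x : X} {ξ : E} (hξ : ∀ f, A.P f ξ = f x • ξ) (I : Finset ℤ) (hI : I.Nonempty)
    (ε : ℤ → ℂ) (hε : ∀ i, ‖ε i‖ ≤ 1) (hε2 : ∀ i, ε i * ε i = 1) :
    A.C⁻¹ * (I.card : ℝ) ^ (1 / p.toReal) * ‖ξ‖ ≤ ‖∑ i ∈ I, ε i • A.V i ξ‖ ∧
    ‖∑ i ∈ I, ε i • A.V i ξ‖ ≤ A.C * (I.card : ℝ) ^ (1 / p.toReal) * ‖ξ‖ := by
  obtain ⟨ρ, hρ, hdisj⟩ := exists_radius hmin x I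
  refine A.two_sided hp I hI (g := cplx (bump x ρ)) ?_ ?_ ?_ ε hε hε2
  · refine norm_cplx_le_one fun y => ?_
    rw [abs_of_nonneg (bump_nonneg _ _ _)]; exact bump_le_one _ _ _
  · rw [hξ, cplx_apply, bump_eq_one hρ (by rw [dist_self]; positivity)]
    simp
  · refine act_bump_zero hdisj _ fun y hy => ?_
    by_contra hcon
    push Not at hcon
    exact hy (by rw [cplx_apply, bump_eq_zero hρ hcon]; simp)

variable {p₂ : ℝ≥0∞} [hp2 : Fact (1 ≤ p₂)]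

/-- There is no joint eigenvector if `p₁ ≠ p₂`. -/
lemma no_atom (hp : p ≠ ∞) (J : E →ₗᵢ[ℂ] Ell p₂) (hp₂ : p₂ ≠ ∞) (hne : p ≠ p₂)
    (hmin : ∀ x, Dense (Set.range fun n : ℤ => (h ^ n : X ≃ₜ X) x))
    {x : X} {ξ : E} (hξ : ∀ f, A.P f ξ = f x • ξ) : ξ = 0 := by
  classical
  by_contra hξ0
  have hξn : 0 < ‖ξ‖ := norm_pos_iff.2 hξ0
  have hr1 := toReal_pos' hp
  have hr2 := toReal_pos' hp₂
  have hrne : p.toReal ≠ p₂.toReal := fun hh => hne ((ENNReal.toReal_eq_toReal_iff' hp hp₂).1 hh)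
  -- a subsequence with convergent coordinates
  set y : ℕ → (ℤ → ℂ) := fun n c => J (A.V n ξ) c with hy
  have hcomp : IsCompact (Set.pi Set.univ fun _ : ℤ => Metric.closedBall (0 : ℂ) (A.C * ‖ξ‖)) :=
    isCompact_univ_pi fun _ => isCompact_closedBall _ _
  have hyin : ∀ n, y n ∈ Set.pi Set.univ fun _ : ℤ => Metric.closedBall (0 : ℂ) (A.C * ‖ξ‖) := by
    intro n c _
    rw [mem_closedBall_zero_iff]
    calc ‖J (A.V n ξ) c‖ ≤ ‖J (A.V n ξ)‖ := lp.norm_apply_le_norm p_ne_zero _ _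
      _ = ‖A.V n ξ‖ := J.norm_map _
      _ ≤ A.C * ‖ξ‖ := A.norm_V_le _ _
  obtain ⟨l, -, φ, hφ, hlim⟩ := hcomp.tendsto_subseq hyin
  rw [tendsto_pi_nhds] at hlim
  have hinj : ∀ {a b : ℕ}, (φ a : ℤ) = φ b → a = b := fun h => hφ.injective (by exact_mod_cast h)
  -- signs
  set ε : ℤ → ℂ := fun i => if ∃ k : ℕ, i = φ (2 * k) then 1 else -1 with hεdef
  have hε : ∀ i, ‖ε i‖ ≤ 1 := by
    intro i; simp only [hεdef]; split_ifs <;> simp
  have hε2 : ∀ i, ε i * ε i = 1 := by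
    intro i; simp only [hεdef]; split_ifs <;> simp
  have hεe : ∀ k : ℕ, ε (φ (2 * k)) = 1 := fun k => by
    simp only [hεdef]; rw [if_pos ⟨k, rfl⟩]
  have hεo : ∀ k : ℕ, ε (φ (2 * k + 1)) = -1 := fun k => by
    simp only [hεdef]
    rw [if_neg]
    rintro ⟨j, hj⟩
    have := hinj hj
    omega
  set d : ℕ → E := fun k => A.V (φ (2 * k)) ξ - A.V (φ (2 * k + 1)) ξ with hd
  -- sums of `d` along injective selections
  have hsum : ∀ (N : ℕ) (κ : ℕ → ℕ), (∀ i j, i < j → j < N → κ i < κ j) → 0 < N →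
      A.C⁻¹ * ((2 * N : ℕ) : ℝ) ^ (1 / p.toReal) * ‖ξ‖ ≤ ‖∑ i ∈ Finset.range N, d (κ i)‖ ∧
      ‖∑ i ∈ Finset.range N, d (κ i)‖ ≤ A.C * ((2 * N : ℕ) : ℝ) ^ (1 / p.toReal) * ‖ξ‖ := by
    intro N κ hκ hN
    have hκinj : Set.InjOn κ (Finset.range N : Set ℕ) := by
      intro i hi j hj hij
      rw [Finset.coe_range, Set.mem_Iio] at hi hj
      rcases lt_trichotomy i j with hlt | heq | hgt
      · exact absurd hij (hκ i j hlt hj).ne
      · exact heq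
      · exact absurd hij.symm (hκ j i hgt hi).ne
    have hi0 : Set.InjOn (fun i => (φ (2 * κ i) : ℤ)) (Finset.range N : Set ℕ) := by
      intro i hi j hj hij
      have := hinj hij
      exact hκinj hi hj (by omega)
    have hi1 : Set.InjOn (fun i => (φ (2 * κ i + 1) : ℤ)) (Finset.range N : Set ℕ) := by
      intro i hi j hj hij
      have := hinj hij
      exact hκinj hi hj (by omega)
    set I0 := (Finset.range N).image fun i => (φ (2 * κ i) : ℤ) with hI0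
    set I1 := (Finset.range N).image fun i => (φ (2 * κ i + 1) : ℤ) with hI1
    have hdisj : Disjoint I0 I1 := by
      rw [Finset.disjoint_left]
      intro a ha hb
      obtain ⟨i, -, rfl⟩ := Finset.mem_image.1 ha
      obtain ⟨j, -, hj⟩ := Finset.mem_image.1 hb
      have := hinj hj
      omega
    have hcard : (I0 ∪ I1).card = 2 * N := by
      rw [Finset.card_union_of_disjoint hdisj, Finset.card_image_of_injOn hi0,
        Finset.card_image_of_injOn hi1, Finset.card_range]; ring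
    have hne' : (I0 ∪ I1).Nonempty := by
      rw [← Finset.card_pos, hcard]; omega
    have e : ∑ i ∈ I0 ∪ I1, ε i • A.V i ξ = ∑ i ∈ Finset.range N, d (κ i) := by
      rw [Finset.sum_union hdisj, Finset.sum_image hi0, Finset.sum_image hi1,
        ← Finset.sum_add_distrib]
      refine Finset.sum_congr rfl fun i _ => ?_
      rw [hεe, hεo, one_smul, neg_one_smul, ← sub_eq_add_neg]
    have := A.atom_two_sided hp hmin hξ (I0 ∪ I1) hne' ε hε hε2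
    rw [e, hcard] at this
    exact this
  have hd1 : ∀ k, A.C⁻¹ * (2 : ℝ) ^ (1 / p.toReal) * ‖ξ‖ ≤ ‖d k‖ ∧
      ‖d k‖ ≤ A.C * (2 : ℝ) ^ (1 / p.toReal) * ‖ξ‖ := by
    intro k
    have := hsum 1 (fun _ => k) (by intro i j hij hj; omega) one_pos
    simpa using this
  set δ := A.C⁻¹ * (2 : ℝ) ^ (1 / p.toReal) * ‖ξ‖ with hδdef
  set D := A.C * (2 : ℝ) ^ (1 / p.toReal) * ‖ξ‖ with hDdef
  have hC := A.C_pos
  have h2pos : (0 : ℝ) < (2 : ℝ) ^ (1 / p.toReal) := Real.rpow_pos_of_pos (by norm_num) _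
  have hδ : 0 < δ := by positivity
  have hD : 0 < D := by positivity
  have hcoord : ∀ c : ℤ, Tendsto (fun k => J (d k) c) atTop (𝓝 0) := by
    intro c
    have h1 := hlim c
    have h2 : Tendsto (fun k : ℕ => J (A.V (φ (2 * k)) ξ) c) atTop (𝓝 (l c)) :=
      h1.comp (tendsto_atTop_mono (fun k => by simp only [id]; omega) tendsto_id : Tendsto (fun k : ℕ => 2 * k)
        atTop atTop)
    have h3 : Tendsto (fun k : ℕ => J (A.V (φ (2 * k + 1)) ξ) c) atTop (𝓝 (l c)) :=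
      h1.comp (tendsto_atTop_mono (fun k => by simp only [id]; omega) tendsto_id : Tendsto (fun k : ℕ => 2 * k + 1)
        atTop atTop)
    have h4 := h2.sub h3
    rw [sub_self] at h4
    refine h4.congr fun k => ?_
    rw [hd]; simp only [map_sub]; rfl
  refine growth_contra (c₁ := A.C⁻¹ * (2 : ℝ) ^ (1 / p.toReal) * ‖ξ‖)
    (c₂ := A.C * (2 : ℝ) ^ (1 / p.toReal) * ‖ξ‖) (c₃ := (δ / 2) ^ p₂.toReal)
    (c₄ := (2 * D) ^ p₂.toReal) hr1 hr2 hrne (by positivity) (by positivity) (by positivity)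
    (by positivity) fun N hN => ?_
  obtain ⟨κ, hκ, h1, h2⟩ := glidingHump hp₂ (fun _ k => J (d k)) δ D hδ
    (fun _ k => by rw [J.norm_map]; exact (hd1 k).1) (fun _ k => by rw [J.norm_map]; exact (hd1 k).2)
    (fun _ c => hcoord c) N
  have e : ‖∑ i ∈ Finset.range N, J (d (κ i))‖ = ‖∑ i ∈ Finset.range N, d (κ i)‖ := by
    rw [← map_sum, J.norm_map]
  rw [e] at h1 h2
  obtain ⟨h3, h4⟩ := hsum N κ hκ hN
  have e2 : ((2 * N : ℕ) : ℝ) ^ (1 / p.toReal) = (2 : ℝ) ^ (1 / p.toReal) * (N : ℝ) ^ (1 / p.toReal)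
      := by
    push_cast
    exact Real.mul_rpow (by norm_num) (Nat.cast_nonneg _)
  rw [e2] at h3 h4
  refine ⟨_, norm_nonneg (∑ i ∈ Finset.range N, d (κ i)), ?_, ?_, h1, h2⟩
  · refine le_trans (le_of_eq ?_) h3; ring
  · refine h4.trans (le_of_eq ?_); ring

/-! ### The Hilbert space case -/

/-- signs with large, and signs with small, norm of the sum -/
lemma exists_signs (hpar : ∀ a b : E, ‖a + b‖ ^ 2 + ‖a - b‖ ^ 2 = 2 * (‖a‖ ^ 2 + ‖b‖ ^ 2))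
    (s : Finset ℤ) (y : ℤ → E) :
    (∃ ε : ℤ → ℂ, (∀ i, ε i = 1 ∨ ε i = -1) ∧
      ‖∑ i ∈ s, ε i • y i‖ ^ 2 ≤ ∑ i ∈ s, ‖y i‖ ^ 2) ∧
    (∃ ε : ℤ → ℂ, (∀ i, ε i = 1 ∨ ε i = -1) ∧
      ∑ i ∈ s, ‖y i‖ ^ 2 ≤ ‖∑ i ∈ s, ε i • y i‖ ^ 2) := by
  classical
  induction s using Finset.induction_on with
  | empty => exact ⟨⟨fun _ => 1, fun _ => Or.inl rfl, by simp⟩, ⟨fun _ => 1, fun _ => Or.inl rfl,
      by simp⟩⟩
  | insert a s ha ih =>
    obtain ⟨⟨ε, hε, h1⟩, ⟨ε', hε', h2⟩⟩ := ih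
    have hupd : ∀ (ε : ℤ → ℂ) (c : ℂ), ∑ i ∈ s, Function.update ε a c i • y i
        = ∑ i ∈ s, ε i • y i := by
      intro ε c
      refine Finset.sum_congr rfl fun i hi => ?_
      rw [Function.update_of_ne (fun h' : i = a => ha (by rw [← h']; exact hi))]
    have hsign : ∀ (ε : ℤ → ℂ) (c : ℂ), (∀ i, ε i = 1 ∨ ε i = -1) → (c = 1 ∨ c = -1) →
        ∀ i, Function.update ε a c i = 1 ∨ Function.update ε a c i = -1 := by
      intro ε c hε hc i
      by_cases hi : i = a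
      · subst hi; rw [Function.update_self]; exact hc
      · rw [Function.update_of_ne hi]; exact hε i
    constructor
    · have hp := hpar (∑ i ∈ s, ε i • y i) (y a)
      by_cases hle : ‖(∑ i ∈ s, ε i • y i) + y a‖ ^ 2 ≤ ‖∑ i ∈ s, ε i • y i‖ ^ 2 + ‖y a‖ ^ 2
      · refine ⟨Function.update ε a 1, hsign ε 1 hε (Or.inl rfl), ?_⟩
        rw [Finset.sum_insert ha, Finset.sum_insert ha, hupd, Function.update_self, one_smul,
          add_comm (y a)]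
        linarith
      · refine ⟨Function.update ε a (-1), hsign ε (-1) hε (Or.inr rfl), ?_⟩
        rw [Finset.sum_insert ha, Finset.sum_insert ha, hupd, Function.update_self, neg_one_smul,
          add_comm (-y a), ← sub_eq_add_neg]
        push Not at hle
        linarith
    · have hp := hpar (∑ i ∈ s, ε' i • y i) (y a)
      by_cases hle : ‖∑ i ∈ s, ε' i • y i‖ ^ 2 + ‖y a‖ ^ 2 ≤ ‖(∑ i ∈ s, ε' i • y i) + y a‖ ^ 2
      · refine ⟨Function.update ε' a 1, hsign ε' 1 hε' (Or.inl rfl), ?_⟩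
        rw [Finset.sum_insert ha, Finset.sum_insert ha, hupd, Function.update_self, one_smul,
          add_comm (y a)]
        linarith
      · refine ⟨Function.update ε' a (-1), hsign ε' (-1) hε' (Or.inr rfl), ?_⟩
        rw [Finset.sum_insert ha, Finset.sum_insert ha, hupd, Function.update_self, neg_one_smul,
          add_comm (-y a), ← sub_eq_add_neg]
        push Not at hle
        linarith

/-- No nonzero bounded homomorphism from `F^p(ℤ, X, h)`, `p ≠ 2`, to operators on a space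
satisfying the parallelogram law. -/
lemma hilbert_zero (hp : p ≠ ∞) (hp2 : p ≠ 2)
    (hpar : ∀ a b : E, ‖a + b‖ ^ 2 + ‖a - b‖ ^ 2 = 2 * (‖a‖ ^ 2 + ‖b‖ ^ 2))
    (hmin : ∀ x, Dense (Set.range fun n : ℤ => (h ^ n : X ≃ₜ X) x)) : A.P 1 = 0 := by
  classical
  by_contra hne
  have hr1 := toReal_pos' hp
  have hr2 : p.toReal ≠ 2 := by
    intro h2
    apply hp2
    rw [← ENNReal.ofReal_toReal hp, h2]; simp
  have hC := A.C_pos
  have key : ∀ N : ℕ, 0 < N → (A.C⁻¹ * (N : ℝ) ^ (1 / p.toReal)) ^ 2 ≤ A.C ^ 2 * N ∧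
      A.C⁻¹ ^ 2 * N ≤ (A.C * (N : ℝ) ^ (1 / p.toReal)) ^ 2 := by
    intro N hN
    set I : Finset ℤ := (Finset.range N).image fun i : ℕ => (i : ℤ) with hI
    have hcard : I.card = N := by
      rw [hI, Finset.card_image_of_injective _ Nat.cast_injective, Finset.card_range]
    have hIne : I.Nonempty := by rw [← Finset.card_pos, hcard]; exact hN
    obtain ⟨g, ξ₀, hg1, hξ0, hξ, hg⟩ := A.exists_localized hmin hne I
    have hξn : 0 < ‖ξ₀‖ := norm_pos_iff.2 hξ0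
    have hts := fun ε hε hε2 => A.two_sided hp I hIne hg1 hξ hg ε hε hε2
    rw [hcard] at hts
    have hV : ∀ i ∈ I, A.C⁻¹ * ‖ξ₀‖ ≤ ‖A.V i ξ₀‖ ∧ ‖A.V i ξ₀‖ ≤ A.C * ‖ξ₀‖ := by
      intro i _
      have := A.two_sided hp {i} (Finset.singleton_nonempty i) hg1 hξ
        (by intro a ha b hb hab; rw [Finset.mem_singleton] at ha hb; omega) (fun _ => 1)
        (fun _ => by simp) (fun _ => by simp)
      simpa using this
    obtain ⟨⟨ε, hε, h1⟩, ⟨ε', hε', h2⟩⟩ := exists_signs hpar I fun i => A.V i ξ₀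
    have hs1 : ∀ (ε : ℤ → ℂ), (∀ i, ε i = 1 ∨ ε i = -1) → ∀ i, ‖ε i‖ ≤ 1 := by
      intro ε hε i; rcases hε i with h | h <;> rw [h] <;> simp
    have hs2 : ∀ (ε : ℤ → ℂ), (∀ i, ε i = 1 ∨ ε i = -1) → ∀ i, ε i * ε i = 1 := by
      intro ε hε i; rcases hε i with h | h <;> rw [h] <;> simp
    have hsum_up : ∑ i ∈ I, ‖A.V i ξ₀‖ ^ 2 ≤ (N : ℝ) * (A.C * ‖ξ₀‖) ^ 2 := by
      have := Finset.sum_le_card_nsmul I (fun i => ‖A.V i ξ₀‖ ^ 2) ((A.C * ‖ξ₀‖) ^ 2)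
        (fun i hi => pow_le_pow_left₀ (norm_nonneg _) (hV i hi).2 2)
      rwa [hcard, nsmul_eq_mul] at this
    have hsum_lo : (N : ℝ) * (A.C⁻¹ * ‖ξ₀‖) ^ 2 ≤ ∑ i ∈ I, ‖A.V i ξ₀‖ ^ 2 := by
      have := Finset.card_nsmul_le_sum I (fun i => ‖A.V i ξ₀‖ ^ 2) ((A.C⁻¹ * ‖ξ₀‖) ^ 2)
        (fun i hi => pow_le_pow_left₀ (by positivity) (hV i hi).1 2)
      rwa [hcard, nsmul_eq_mul] at this
    have a1 := (hts ε (hs1 ε hε) (hs2 ε hε)).1
    have a2 := (hts ε' (hs1 ε' hε') (hs2 ε' hε')).2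
    constructor
    · have h3 : (A.C⁻¹ * (N : ℝ) ^ (1 / p.toReal) * ‖ξ₀‖) ^ 2 ≤ (N : ℝ) * (A.C * ‖ξ₀‖) ^ 2 :=
        ((pow_le_pow_left₀ (by positivity) a1 2).trans h1).trans hsum_up
      have h4 : (A.C⁻¹ * (N : ℝ) ^ (1 / p.toReal)) ^ 2 * ‖ξ₀‖ ^ 2 ≤ (A.C ^ 2 * N) * ‖ξ₀‖ ^ 2 := by
        calc _ = (A.C⁻¹ * (N : ℝ) ^ (1 / p.toReal) * ‖ξ₀‖) ^ 2 := by ring
          _ ≤ _ := h3
          _ = _ := by ring
      exact le_of_mul_le_mul_right h4 (by positivity)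
    · have h3 : (N : ℝ) * (A.C⁻¹ * ‖ξ₀‖) ^ 2 ≤ (A.C * (N : ℝ) ^ (1 / p.toReal) * ‖ξ₀‖) ^ 2 :=
        (hsum_lo.trans h2).trans (pow_le_pow_left₀ (norm_nonneg _) a2 2)
      have h4 : (A.C⁻¹ ^ 2 * N) * ‖ξ₀‖ ^ 2
          ≤ (A.C * (N : ℝ) ^ (1 / p.toReal)) ^ 2 * ‖ξ₀‖ ^ 2 := by
        calc _ = (N : ℝ) * (A.C⁻¹ * ‖ξ₀‖) ^ 2 := by ring
          _ ≤ _ := h3
          _ = _ := by ring
      exact le_of_mul_le_mul_right h4 (by positivity)
  -- contradiction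
  refine growth_contra (r₁ := p.toReal) (r₂ := 2) (c₁ := A.C⁻¹) (c₂ := A.C) (c₃ := A.C⁻¹ ^ 2)
    (c₄ := A.C ^ 2) hr1 two_pos hr2 (by positivity) (by positivity) (by positivity)
    (by positivity) fun N hN => ?_
  obtain ⟨k1, k2⟩ := key N hN
  have hCC : 1 ≤ A.C := by
    -- `C ≥ 1` since `P(1)` is a nonzero idempotent
    obtain ⟨g, ξ₀, hg1, hξ0, hξ, hg⟩ := A.exists_localized hmin hne ∅
    have h1 := A.norm_P_le_one hg1 ξ₀
    rw [hξ] at h1
    have hξn : 0 < ‖ξ₀‖ := norm_pos_iff.2 hξ0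
    by_contra hlt
    push Not at hlt
    nlinarith
  have hinv : A.C⁻¹ ≤ A.C := (inv_le_one_of_one_le₀ hCC).trans hCC
  set w := (N : ℝ) ^ (1 / p.toReal) with hw
  have hw0 : 0 < w := Real.rpow_pos_of_pos (by exact_mod_cast hN) _
  -- choose `t` between the bounds
  set t := max (A.C⁻¹ * w) (A.C⁻¹ * Real.sqrt N) with ht
  have hNs : Real.sqrt N ^ 2 = N := Real.sq_sqrt (Nat.cast_nonneg _)
  have hNs0 : 0 ≤ Real.sqrt N := Real.sqrt_nonneg _
  refine ⟨t, le_max_of_le_left (by positivity), le_max_left _ _, ?_, ?_, ?_⟩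
  · refine max_le (mul_le_mul_of_nonneg_right hinv hw0.le) ?_
    have : (A.C⁻¹ * Real.sqrt N) ^ 2 ≤ (A.C * w) ^ 2 := by
      rw [mul_pow, hNs]; exact k2
    exact (pow_le_pow_iff_left₀ (by positivity) (by positivity) two_ne_zero).1 this
  · have : (A.C⁻¹ * Real.sqrt N) ^ 2 ≤ t ^ 2 := pow_le_pow_left₀ (by positivity) (le_max_right _ _) 2
    rw [mul_pow, hNs] at this
    rw [Real.rpow_two]; exact this
  · rw [Real.rpow_two]
    rcases max_choice (A.C⁻¹ * w) (A.C⁻¹ * Real.sqrt N) with h | h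
    · rw [ht, h]; exact k1
    · rw [ht, h, mul_pow, hNs]
      exact mul_le_mul_of_nonneg_right (pow_le_pow_left₀ (by positivity) hinv 2)
        (Nat.cast_nonneg _)

end Act

end H309LP
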