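import Mathlib
import Pool.Agent.H309LP.CaseA

/-!
# The atomless case
-/

open MeasureTheory ENNReal Filter Topology

noncomputable section

namespace H309LP

namespace Act

variable {X : Type} [MetricSpace X] [CompactSpace X] {h : X ≃ₜ X} {p : ℝ≥0∞}
  [hp1 : Fact (1 ≤ p)] {E : Type} [NormedAddCommGroup E] [NormedSpace ℂ E] (A : Act h p E)
  {p₂ : ℝ≥0∞} [hp2 : Fact (1 ≤ p₂)]

/-- unconditional summability -/
lemma summable_P [CompleteSpace E] (J : E →ₗᵢ[ℂ] Ell p₂) (hp₂ : p₂ ≠ ∞) (d : ℕ → C(X, ℂ))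
    (hd : ∀ (F : Finset ℕ) (x : X), ∑ i ∈ F, ‖d i x‖ ≤ 1) (ξ : E) :
    Summable fun n => A.P (d n) ξ := by
  classical
  rw [summable_iff_vanishing_norm]
  by_contra hcon
  push Not at hcon
  obtain ⟨ε, hε, hbad⟩ := hcon
  obtain ⟨t, ht1, ht2⟩ := exists_seq_of_forall_finset_exists
    (fun t : Finset ℕ => ε ≤ ‖∑ i ∈ t, A.P (d i) ξ‖) (fun s t => Disjoint s t)
    (by
      intro S _
      obtain ⟨t, ht, htn⟩ := hbad (S.biUnion id)
      refine ⟨t, htn, fun s hs => ?_⟩
      exact (Finset.disjoint_biUnion_right t S id).1 ht s hs |>.symm)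
  have hdisj : ∀ i j, i ≠ j → Disjoint (t i) (t j) := by
    intro i j hij
    rcases lt_or_gt_of_ne hij with h | h
    · exact ht2 i j h
    · exact (ht2 j i h).symm
  have hD := A.exhaust J hp₂ (fun k => ∑ i ∈ t k, d i) (by
    intro F x
    calc ∑ k ∈ F, ‖(∑ i ∈ t k, d i) x‖ ≤ ∑ k ∈ F, ∑ i ∈ t k, ‖d i x‖ := by
          refine Finset.sum_le_sum fun k _ => ?_
          rw [ContinuousMap.sum_apply]; exact norm_sum_le _ _
      _ = ∑ i ∈ F.biUnion t, ‖d i x‖ := by
          rw [Finset.sum_biUnion]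
          intro i _ j _ hij
          exact hdisj i j hij
      _ ≤ 1 := hd _ x) ξ
  have h1 := (tendsto_zero_iff_norm_tendsto_zero.1 hD)
  have h2 : ∀ k, ε ≤ ‖A.P (∑ i ∈ t k, d i) ξ‖ := by
    intro k; rw [P_sum]; exact ht1 k
  have h3 := ge_of_tendsto' h1 h2
  linarith

/-- no atoms: neighbourhoods of small mass -/
lemma small_nhd [CompleteSpace E] (J : E →ₗᵢ[ℂ] Ell p₂) (hp₂ : p₂ ≠ ∞)
    (hna : ∀ (x : X) (ξ : E), (∀ f, A.P f ξ = f x • ξ) → ξ = 0) (ξ : E) (x : X) {ε : ℝ}
    (hε : 0 < ε) : ∃ ρ > 0, ∀ g : C(X, ℂ), ‖g‖ ≤ 1 → (∀ w, g w ≠ 0 → dist x w < ρ) →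
      ‖A.P g ξ‖ ≤ ε := by
  have hρ : ∀ n : ℕ, (0 : ℝ) < (1 / 2) ^ n := fun n => by positivity
  set G : ℕ → C(X, ℝ) := fun n => bump x ((1 / 2) ^ n) with hG
  have hG1 : ∀ n y, dist x y ≤ (1 / 2) ^ (n + 1) → G n y = 1 := by
    intro n y hy
    refine bump_eq_one (hρ n) (hy.trans (le_of_eq ?_))
    rw [pow_succ]; ring
  have hG0 : ∀ n y, (1 / 2 : ℝ) ^ n ≤ dist x y → G n y = 0 := fun n y hy =>
    bump_eq_zero (hρ n) hy
  have hmono : ∀ n y, G (n + 1) y ≤ G n y := by
    intro n y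
    rcases le_total (dist x y) ((1 / 2) ^ (n + 1)) with hy | hy
    · rw [hG1 n y hy]; exact bump_le_one _ _ _
    · rw [hG0 (n + 1) y hy]; exact bump_nonneg _ _ _
  set d : ℕ → C(X, ℂ) := fun n => cplx (G n - G (n + 1)) with hd
  have hdn : ∀ n y, ‖d n y‖ = G n y - G (n + 1) y := by
    intro n y
    rw [hd]; simp only [cplx_apply, ContinuousMap.sub_apply]
    rw [Complex.norm_real, Real.norm_eq_abs, abs_of_nonneg (sub_nonneg.2 (hmono n y))]
  have hsum1 : ∀ (F : Finset ℕ) (y : X), ∑ i ∈ F, ‖d i y‖ ≤ 1 := by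
    intro F y
    obtain ⟨N, hN⟩ : ∃ N, F ⊆ Finset.range N :=
      ⟨F.sup id + 1, fun i hi => Finset.mem_range.2 (Nat.lt_succ_of_le (Finset.le_sup (f := id) hi))⟩
    calc ∑ i ∈ F, ‖d i y‖ ≤ ∑ i ∈ Finset.range N, ‖d i y‖ :=
          Finset.sum_le_sum_of_subset_of_nonneg hN fun _ _ _ => norm_nonneg _
      _ = ∑ i ∈ Finset.range N, (G i y - G (i + 1) y) := Finset.sum_congr rfl fun i _ => hdn i y
      _ = G 0 y - G N y := Finset.sum_range_sub' (fun i => G i y) N
      _ ≤ 1 := by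
          have h1 := bump_le_one x ((1 / 2) ^ 0) y
          have h2 := bump_nonneg x ((1 / 2) ^ N) y
          change bump x ((1 / 2) ^ 0) y - bump x ((1 / 2) ^ N) y ≤ 1
          linarith
  have hS := (A.summable_P J hp₂ d hsum1 ξ).hasSum.tendsto_sum_nat
  have hpart : ∀ N, ∑ i ∈ Finset.range N, A.P (d i) ξ = A.P (cplx (G 0)) ξ - A.P (cplx (G N)) ξ := by
    intro N
    have : ∀ i, A.P (d i) ξ = A.P (cplx (G i)) ξ - A.P (cplx (G (i + 1))) ξ := by
      intro i; rw [hd]; simp only [cplx_sub]; rw [P_sub]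
    rw [Finset.sum_congr rfl fun i _ => this i]
    exact Finset.sum_range_sub' (fun i => A.P (cplx (G i)) ξ) N
  set ζ := A.P (cplx (G 0)) ξ - ∑' n, A.P (d n) ξ with hζ
  have hlim : Tendsto (fun N => A.P (cplx (G N)) ξ) atTop (𝓝 ζ) := by
    have h1 : Tendsto (fun N => A.P (cplx (G 0)) ξ - ∑ i ∈ Finset.range N, A.P (d i) ξ) atTop
        (𝓝 ζ) := tendsto_const_nhds.sub hS
    refine h1.congr fun N => ?_
    rw [hpart]; abel
  have hGle : ∀ n, ‖cplx (G n)‖ ≤ 1 := fun n => norm_cplx_le_one fun y => by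
    rw [abs_of_nonneg (bump_nonneg _ _ _)]; exact bump_le_one _ _ _
  have hatom : ∀ f : C(X, ℂ), A.P f ζ = f x • ζ := by
    intro f
    have h1 : Tendsto (fun N => A.P f (A.P (cplx (G N)) ξ)) atTop (𝓝 (A.P f ζ)) :=
      ((A.P f).continuous.tendsto ζ).comp hlim
    have h2 : Tendsto (fun N => f x • A.P (cplx (G N)) ξ) atTop (𝓝 (f x • ζ)) :=
      hlim.const_smul _
    have h3 : Tendsto (fun N => A.P f (A.P (cplx (G N)) ξ) - f x • A.P (cplx (G N)) ξ) atTop
        (𝓝 0) := by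
      rw [Metric.tendsto_atTop]
      intro η hη
      have hCx : 0 < A.C * (‖ξ‖ + 1) := mul_pos A.C_pos (by positivity)
      obtain ⟨δ, hδ, hfδ⟩ := Metric.continuous_iff.1 f.continuous x (η / 2 / (A.C * (‖ξ‖ + 1)))
        (by positivity)
      obtain ⟨N, hN⟩ := exists_pow_lt_of_lt_one hδ (by norm_num : (1 / 2 : ℝ) < 1)
      refine ⟨N, fun n hn => ?_⟩
      rw [dist_zero_right]
      have e : A.P f (A.P (cplx (G n)) ξ) - f x • A.P (cplx (G n)) ξ
          = A.P ((f - f x • (1 : C(X, ℂ))) * cplx (G n)) ξ := by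
        rw [sub_mul, P_sub, P_mul, smul_mul_assoc, one_mul, P_smul]
      rw [e]
      have hle : ‖(f - f x • (1 : C(X, ℂ))) * cplx (G n)‖ ≤ η / 2 / (A.C * (‖ξ‖ + 1)) := by
        rw [ContinuousMap.norm_le _ (by positivity)]
        intro y
        rw [ContinuousMap.mul_apply, norm_mul, cplx_apply, Complex.norm_real, Real.norm_eq_abs,
          abs_of_nonneg (bump_nonneg _ _ _)]
        rcases lt_or_ge (dist x y) ((1 / 2) ^ n) with hy | hy
        · have hyδ : dist y x < δ := by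
            rw [dist_comm]
            exact hy.trans_le ((pow_le_pow_of_le_one (by norm_num) (by norm_num) hn).trans hN.le)
          have h4 := (hfδ y hyδ).le
          rw [dist_eq_norm] at h4
          have h5 : (f - f x • (1 : C(X, ℂ))) y = f y - f x := by simp
          rw [h5]
          have h6 := bump_le_one x ((1 / 2) ^ n) y
          have h7 := bump_nonneg x ((1 / 2) ^ n) y
          calc ‖f y - f x‖ * bump x ((1 / 2) ^ n) y ≤ ‖f y - f x‖ * 1 :=
                mul_le_mul_of_nonneg_left h6 (norm_nonneg _)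
            _ ≤ _ := by rw [mul_one]; exact h4
        · have : G n y = 0 := hG0 n y hy
          change _ * bump x ((1 / 2) ^ n) y ≤ _
          have h8 : bump x ((1 / 2) ^ n) y = 0 := this
          rw [h8, mul_zero]; positivity
      calc ‖A.P ((f - f x • (1 : C(X, ℂ))) * cplx (G n)) ξ‖
          ≤ A.C * ‖(f - f x • (1 : C(X, ℂ))) * cplx (G n)‖ * ‖ξ‖ := A.norm_P_le _ _
        _ ≤ A.C * (η / 2 / (A.C * (‖ξ‖ + 1))) * ‖ξ‖ := by
            refine mul_le_mul_of_nonneg_right ?_ (norm_nonneg _)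
            exact mul_le_mul_of_nonneg_left hle A.C_pos.le
        _ = η / 2 * (‖ξ‖ / (‖ξ‖ + 1)) := by
            have := A.C_pos.ne'
            field_simp
        _ ≤ η / 2 * 1 := by
            refine mul_le_mul_of_nonneg_left ?_ (by positivity)
            rw [div_le_one (by positivity)]; linarith
        _ < η := by linarith
    have h4 := h1.sub h2
    exact sub_eq_zero.1 (tendsto_nhds_unique h4 h3)
  have hζ0 := hna x ζ hatom
  rw [hζ0] at hlim
  have hC := A.C_pos
  obtain ⟨N, hN⟩ := (Metric.tendsto_atTop.1 hlim) (ε / A.C) (by positivity)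
  refine ⟨(1 / 2) ^ (N + 1), by positivity, fun g hg hgs => ?_⟩
  have e : g = g * cplx (G N) := by
    ext w
    rw [ContinuousMap.mul_apply, cplx_apply]
    by_cases hw : g w = 0
    · rw [hw, zero_mul]
    · rw [hG1 N w (hgs w hw).le]; simp
  have h1 := hN N le_rfl
  rw [dist_zero_right, lt_div_iff₀ hC] at h1
  rw [e, P_mul]
  exact (A.norm_P_le_one hg _).trans (by linarith)

/-! ### Cells -/

/-- the cells of the partition generated by `g ∈ gs` and `1 - g` -/
def cells : List C(X, ℝ) → List C(X, ℝ)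
  | [] => [1]
  | g :: gs => (cells gs).map (fun c => (1 - g) * c) ++ (cells gs).map (fun c => g * c)

omit [CompactSpace X] in
lemma cube (gs : List C(X, ℝ)) : ∀ Ψ : C(X, ℝ) → ℝ,
    (∀ a b, Ψ (a + b) + Ψ (a - b) = 2 * (Ψ a + Ψ b)) →
    ∃ S : List C(X, ℝ), S.Sublist gs ∧
      Ψ ((S.map fun g => 1 - 2 * g).prod) ≤ ((cells gs).map Ψ).sum := by
  induction gs with
  | nil => intro Ψ _; exact ⟨[], List.Sublist.slnil, by simp [cells]⟩
  | cons g gs ih =>
    intro Ψ hΨ
    obtain ⟨S, hS, hle⟩ := ih (fun a => Ψ ((1 - g) * a) + Ψ (g * a)) (by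
      intro a b
      have h1 := hΨ ((1 - g) * a) ((1 - g) * b)
      have h2 := hΨ (g * a) (g * b)
      rw [← mul_add, ← mul_sub] at h1 h2
      linarith)
    set r := (S.map fun g => 1 - 2 * g).prod with hr
    have hsum : ((cells (g :: gs)).map Ψ).sum
        = ((cells gs).map fun a => Ψ ((1 - g) * a) + Ψ (g * a)).sum := by
      simp only [cells, List.map_append, List.map_map, List.sum_append]
      rw [← List.sum_map_add]
      rfl
    have h1 := hΨ ((1 - g) * r) (g * r)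
    have e1 : (1 - g) * r + g * r = r := by ring
    have e2 : (1 - g) * r - g * r = (1 - 2 * g) * r := by ring
    rw [e1, e2] at h1
    by_cases hc : Ψ r ≤ Ψ ((1 - g) * r) + Ψ (g * r)
    · refine ⟨S, hS.cons g, ?_⟩
      rw [hsum]; exact hc.trans hle
    · refine ⟨g :: S, hS.cons_cons g, ?_⟩
      rw [hsum, List.map_cons, List.prod_cons]
      push Not at hc
      have : Ψ ((1 - 2 * g) * r) ≤ Ψ ((1 - g) * r) + Ψ (g * r) := by linarith
      exact this.trans hle

omit [CompactSpace X] in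
lemma cells_nonneg (gs : List C(X, ℝ)) (h01 : ∀ g ∈ gs, ∀ x, 0 ≤ g x ∧ g x ≤ 1) :
    ∀ c ∈ cells gs, ∀ x, 0 ≤ c x := by
  induction gs with
  | nil => intro c hc x; simp only [cells, List.mem_singleton] at hc; subst hc; simp
  | cons g gs ih =>
    intro c hc x
    have ih' := ih fun g' hg' => h01 g' (List.mem_cons_of_mem _ hg')
    have hg := h01 g List.mem_cons_self x
    simp only [cells, List.mem_append, List.mem_map] at hc
    rcases hc with ⟨c', hc', rfl⟩ | ⟨c', hc', rfl⟩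
    · exact mul_nonneg (by change 0 ≤ 1 - g x; linarith) (ih' c' hc' x)
    · exact mul_nonneg hg.1 (ih' c' hc' x)

omit [CompactSpace X] in
lemma cells_sum (gs : List C(X, ℝ)) (x : X) : ((cells gs).map fun c => c x).sum = 1 := by
  induction gs with
  | nil => simp [cells]
  | cons g gs ih =>
    simp only [cells, List.map_append, List.map_map, List.sum_append]
    have e1 : (List.map ((fun c : C(X, ℝ) => c x) ∘ fun c => (1 - g) * c) (cells gs)).sum
        = (1 - g x) * ((cells gs).map fun c => c x).sum := by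
      rw [← List.sum_map_mul_left]; rfl
    have e2 : (List.map ((fun c : C(X, ℝ) => c x) ∘ fun c => g * c) (cells gs)).sum
        = g x * ((cells gs).map fun c => c x).sum := by
      rw [← List.sum_map_mul_left]; rfl
    rw [e1, e2, ih]; ring

omit [CompactSpace X] in
lemma cells_support (gs : List C(X, ℝ)) :
    ∀ c ∈ cells gs, c = (gs.map fun g => 1 - g).prod ∨ ∃ g ∈ gs, ∀ x, c x ≠ 0 → g x ≠ 0 := by
  induction gs with
  | nil => intro c hc; simp only [cells, List.mem_singleton] at hc; subst hc; simp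
  | cons g gs ih =>
    intro c hc
    simp only [cells, List.mem_append, List.mem_map] at hc
    rcases hc with ⟨c', hc', rfl⟩ | ⟨c', hc', rfl⟩
    · rcases ih c' hc' with rfl | ⟨g', hg', hsupp⟩
      · left; rw [List.map_cons, List.prod_cons]
      · right
        refine ⟨g', List.mem_cons_of_mem _ hg', fun x hx => hsupp x fun h0 => hx ?_⟩
        rw [ContinuousMap.mul_apply, h0, mul_zero]
    · right
      refine ⟨g, List.mem_cons_self, fun x hx h0 => hx ?_⟩
      rw [ContinuousMap.mul_apply, h0, zero_mul]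

omit [CompactSpace X] in
/-- the product of the reflections is bounded by one -/
lemma prod_le_one (S : List C(X, ℝ)) (h01 : ∀ g ∈ S, ∀ x, 0 ≤ g x ∧ g x ≤ 1) (x : X) :
    |(S.map fun g : C(X, ℝ) => 1 - 2 * g).prod x| ≤ 1 := by
  induction S with
  | nil => simp
  | cons g S ih =>
    rw [List.map_cons, List.prod_cons, ContinuousMap.mul_apply, abs_mul]
    have h1 := ih fun g' hg' => h01 g' (List.mem_cons_of_mem _ hg')
    have h2 := h01 g List.mem_cons_self x
    have h3 : |(1 - 2 * g) x| ≤ 1 := by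
      change |1 - 2 * g x| ≤ 1
      rw [abs_le]; constructor <;> linarith
    calc _ ≤ 1 * 1 := mul_le_mul h3 h1 (abs_nonneg _) zero_le_one
      _ = 1 := one_mul 1

/-- defect of the square of the product -/
lemma prod_defect (ξ : E) {η : ℝ} (S : List C(X, ℝ))
    (h01 : ∀ g ∈ S, ∀ x, 0 ≤ g x ∧ g x ≤ 1)
    (hη : ∀ g ∈ S, ‖A.P (cplx (g * (1 - g))) ξ‖ ≤ η) :
    ‖A.P (cplx (1 - (S.map fun g => 1 - 2 * g).prod * (S.map fun g => 1 - 2 * g).prod)) ξ‖
      ≤ 4 * A.C * (S.length * η) := by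
  induction S with
  | nil =>
    simp only [List.map_nil, List.prod_nil, mul_one, sub_self]
    have : cplx (0 : C(X, ℝ)) = 0 := by ext x; exact Complex.ofReal_zero
    rw [this, P_zero]; simp
  | cons g S ih =>
    have h1 := ih (fun g' hg' => h01 g' (List.mem_cons_of_mem _ hg'))
      (fun g' hg' => hη g' (List.mem_cons_of_mem _ hg'))
    rw [List.map_cons, List.prod_cons]
    set r := (S.map fun g => 1 - 2 * g).prod with hr
    have e : 1 - (1 - 2 * g) * r * ((1 - 2 * g) * r)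
        = (1 - r * r) + 4 * ((r * r) * (g * (1 - g))) := by ring
    have e4 : cplx (4 * ((r * r) * (g * (1 - g))))
        = (4 : ℂ) • (cplx (r * r) * cplx (g * (1 - g))) := by
      ext x
      change ((4 * ((r x * r x) * (g x * (1 - g x))) : ℝ) : ℂ)
        = (4 : ℂ) * (((r x * r x : ℝ) : ℂ) * ((g x * (1 - g x) : ℝ) : ℂ))
      push_cast; ring
    rw [e, cplx_add, P_add, e4, P_smul, P_mul]
    have h2 : ‖cplx (r * r)‖ ≤ 1 := norm_cplx_le_one fun x => by
      rw [ContinuousMap.mul_apply, abs_mul]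
      have := prod_le_one S (fun g' hg' => h01 g' (List.mem_cons_of_mem _ hg')) x
      nlinarith [abs_nonneg (r x)]
    have h3 : ‖A.P (cplx (r * r)) (A.P (cplx (g * (1 - g))) ξ)‖ ≤ A.C * η :=
      (A.norm_P_le_one h2 _).trans
        (mul_le_mul_of_nonneg_left (hη g List.mem_cons_self) A.C_pos.le)
    calc _ ≤ ‖A.P (cplx (1 - r * r)) ξ‖
          + ‖(4 : ℂ) • A.P (cplx (r * r)) (A.P (cplx (g * (1 - g))) ξ)‖ := norm_add_le _ _
      _ ≤ 4 * A.C * (S.length * η) + 4 * (A.C * η) := by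
          refine add_le_add h1 ?_
          rw [norm_smul]
          have : ‖(4 : ℂ)‖ = 4 := by simp
          rw [this]
          exact mul_le_mul_of_nonneg_left h3 (by norm_num)
      _ = _ := by rw [List.length_cons]; push_cast; ring

/-- list version of `sum_functional_le` -/
lemma sum_functional_list (ds : List C(X, ℝ)) (hd : ∀ x, (ds.map fun d => |d x|).sum ≤ 1)
    (L : E →L[ℂ] ℂ) (ξ : E) :
    (ds.map fun d => ‖L (A.P (cplx d) ξ)‖).sum ≤ ‖L‖ * (A.C * ‖ξ‖) := by
  have h1 := A.sum_functional_le (Finset.univ : Finset (Fin ds.length)) (fun i => cplx ds[i.1])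
    (fun x => by
      have e : ∀ i : Fin ds.length, ‖cplx ds[i.1] x‖ = |ds[i.1] x| := fun i => by
        rw [cplx_apply, Complex.norm_real, Real.norm_eq_abs]
      rw [Finset.sum_congr rfl fun i _ => e i, Fin.sum_univ_fun_getElem ds (fun d => |d x|)]
      exact hd x) L ξ
  rw [Fin.sum_univ_fun_getElem ds (fun d => ‖L (A.P (cplx d) ξ)‖)] at h1
  exact h1

lemma cells_quadratic (gs : List C(X, ℝ)) (h01 : ∀ g ∈ gs, ∀ x, 0 ≤ g x ∧ g x ≤ 1) (ξ : E)
    (L : E →L[ℂ] ℂ) {ε' : ℝ} (hε' : 0 ≤ ε') (hcell : ∀ c ∈ cells gs, ‖A.P (cplx c) ξ‖ ≤ ε') :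
    ((cells gs).map fun c => ‖L (A.P (cplx c) ξ)‖ ^ 2).sum
      ≤ ε' * (‖L‖ * (‖L‖ * (A.C * ‖ξ‖))) := by
  have h3 : ((cells gs).map fun c => ‖L (A.P (cplx c) ξ)‖ ^ 2).sum
      ≤ ((cells gs).map fun c => (‖L‖ * ε') * ‖L (A.P (cplx c) ξ)‖).sum := by
    refine List.sum_le_sum fun c hc => ?_
    rw [pow_two]
    refine mul_le_mul_of_nonneg_right ?_ (norm_nonneg _)
    exact (L.le_opNorm _).trans (mul_le_mul_of_nonneg_left (hcell c hc) (norm_nonneg _))
  refine h3.trans ?_
  rw [List.sum_map_mul_left]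
  have h4 := A.sum_functional_list (cells gs) (fun x => by
    have e : (cells gs).map (fun c : C(X, ℝ) => |c x|) = (cells gs).map fun c => c x :=
      List.map_congr_left fun c hc => abs_of_nonneg (cells_nonneg gs h01 c hc x)
    rw [e, cells_sum]) L ξ
  have h0 : 0 ≤ ‖L‖ * ε' := mul_nonneg (norm_nonneg _) hε'
  refine (mul_le_mul_of_nonneg_left h4 h0).trans (le_of_eq ?_)
  ring

/-- A cut-off function with a thin transition region. -/
lemma exists_cutoff (J : E →ₗᵢ[ℂ] Ell p₂) (hp₂ : p₂ ≠ ∞) (ξ : E) (x : X) {ρ : ℝ} (hρ : 0 < ρ)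
    {η : ℝ} (hη : 0 < η) : ∃ g : C(X, ℝ), (∀ y, 0 ≤ g y ∧ g y ≤ 1) ∧
      (∀ y, dist x y ≤ ρ / 2 → g y = 1) ∧ (∀ y, g y ≠ 0 → dist x y < ρ) ∧
      ‖A.P (cplx (g * (1 - g))) ξ‖ ≤ η := by
  set u := bump x ρ with hu
  have hu0 := bump_nonneg x ρ
  have hu1 := bump_le_one x ρ
  set g : ℕ → C(X, ℝ) := fun k =>
    ⟨fun y => max 0 (min 1 (2 - 2 ^ (k + 1) * (1 - u y))), by fun_prop⟩ with hg
  have hg01 : ∀ k y, 0 ≤ g k y ∧ g k y ≤ 1 := fun k y =>
    ⟨le_max_left _ _, max_le zero_le_one (min_le_left _ _)⟩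
  -- `g_k(y) (1 - g_k(y)) ≠ 0` only if `1 < 2^(k+1) (1-u) < 2`
  have htrans : ∀ k y, g k y * (1 - g k y) ≠ 0 →
      1 < 2 ^ (k + 1) * (1 - u y) ∧ 2 ^ (k + 1) * (1 - u y) < 2 := by
    intro k y hne
    by_contra hcon
    rw [not_and_or, not_lt, not_lt] at hcon
    apply hne
    change max 0 (min 1 (2 - 2 ^ (k + 1) * (1 - u y)))
      * (1 - max 0 (min 1 (2 - 2 ^ (k + 1) * (1 - u y)))) = 0
    rcases hcon with h1 | h1
    · rw [min_eq_left (by linarith), max_eq_right zero_le_one]; ring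
    · rw [max_eq_left ((min_le_right _ _).trans (by linarith))]; ring
  have hsum : ∀ (F : Finset ℕ) (y : X), ∑ k ∈ F, ‖cplx (g k * (1 - g k)) y‖ ≤ 1 := by
    intro F y
    have hnn : ∀ k, ‖cplx (g k * (1 - g k)) y‖ ≤ 1 := by
      intro k
      rw [cplx_apply, Complex.norm_real, Real.norm_eq_abs]
      change |g k y * (1 - g k y)| ≤ 1
      have := hg01 k y
      rw [abs_le]; constructor <;> nlinarith
    by_cases hex : ∃ k ∈ F, g k y * (1 - g k y) ≠ 0
    · obtain ⟨k, hk, hne⟩ := hex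
      rw [Finset.sum_eq_single k]
      · exact hnn k
      · intro j _ hjk
        have : g j y * (1 - g j y) = 0 := by
          by_contra hj
          obtain ⟨a1, a2⟩ := htrans k y hne
          obtain ⟨b1, b2⟩ := htrans j y hj
          have hpos : 0 < 1 - u y := by
            by_contra h
            push Not at h
            have : (2 : ℝ) ^ (k + 1) * (1 - u y) ≤ 0 := mul_nonpos_of_nonneg_of_nonpos (by positivity) h
            linarith
          have key : ∀ m n : ℕ, m < n → 1 < (2 : ℝ) ^ (m + 1) * (1 - u y) →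
              (2 : ℝ) ^ (n + 1) * (1 - u y) < 2 → False := by
            intro m n hmn h1 h2
            have : (2 : ℝ) ^ (m + 1) * 2 ≤ 2 ^ (n + 1) := by
              rw [← pow_succ]
              exact pow_le_pow_right₀ (by norm_num) (by omega)
            nlinarith
          rcases lt_or_gt_of_ne hjk with h | h
          · exact key j k h b1 a2
          · exact key k j h a1 b2
        rw [cplx_apply]
        change ‖((g j y * (1 - g j y) : ℝ) : ℂ)‖ = 0
        rw [this]; simp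
      · intro h; exact absurd hk h
    · push Not at hex
      rw [Finset.sum_eq_zero]
      · exact zero_le_one
      · intro k hk
        rw [cplx_apply]
        change ‖((g k y * (1 - g k y) : ℝ) : ℂ)‖ = 0
        rw [hex k hk]; simp
  have hlim := A.exhaust J hp₂ (fun k => cplx (g k * (1 - g k))) hsum ξ
  obtain ⟨N, hN⟩ := (Metric.tendsto_atTop.1 hlim) η hη
  refine ⟨g N, hg01 N, ?_, ?_, ?_⟩
  · intro y hy
    change max 0 (min 1 (2 - 2 ^ (N + 1) * (1 - u y))) = 1
    rw [hu, bump_eq_one hρ hy]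
    norm_num
  · intro y hy
    by_contra hcon
    push Not at hcon
    apply hy
    change max 0 (min 1 (2 - 2 ^ (N + 1) * (1 - u y))) = 0
    rw [hu, bump_eq_zero hρ hcon]
    refine max_eq_left ((min_le_right _ _).trans ?_)
    have : (2 : ℝ) ≤ 2 ^ (N + 1) := by
      rw [pow_succ]
      have : (1 : ℝ) ≤ 2 ^ N := one_le_pow₀ (by norm_num)
      linarith
    linarith
  · have := (hN N le_rfl).le
    rwa [dist_zero_right] at this

/-- Weakly small almost unimodular functions. -/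
lemma exists_rademacher [CompleteSpace E] (J : E →ₗᵢ[ℂ] Ell p₂) (hp₂ : p₂ ≠ ∞)
    (hna : ∀ (x : X) (ξ : E), (∀ f, A.P f ξ = f x • ξ) → ξ = 0) (ξ : E)
    (Λ : Finset (E →L[ℂ] ℂ)) {ε : ℝ} (hε : 0 < ε) :
    ∃ r : C(X, ℝ), (∀ x, |r x| ≤ 1) ∧ ‖A.P (cplx (1 - r * r)) ξ‖ ≤ ε ∧
      ∀ L ∈ Λ, ‖L (A.P (cplx r) ξ)‖ ≤ ε := by
  classical
  have hC := A.C_pos
  -- the constant
  set K : ℝ := ∑ L ∈ Λ, ‖L‖ * (‖L‖ * (A.C * ‖ξ‖)) with hK
  have hK0 : 0 ≤ K := Finset.sum_nonneg fun L _ => by positivity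
  set ε' := ε ^ 2 / (K + 1) with hε'
  have hε'0 : 0 < ε' := by positivity
  choose ρ hρ hsmall using fun x => A.small_nhd J hp₂ hna ξ x hε'0
  obtain ⟨T, hT⟩ := isCompact_univ.elim_finite_subcover (fun x : X => Metric.ball x (ρ x / 2))
    (fun x => Metric.isOpen_ball)
    (fun x _ => Set.mem_iUnion.2 ⟨x, Metric.mem_ball_self (half_pos (hρ x))⟩)
  set η := ε / (4 * A.C * (T.card + 1)) with hη
  have hη0 : 0 < η := by positivity
  choose g hg01 hg1 hgs hgη using fun x => A.exists_cutoff J hp₂ ξ x (hρ x) hη0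
  set gs := T.toList.map g with hgsdef
  have hmem : ∀ g' ∈ gs, ∃ x ∈ T, g' = g x := by
    intro g' hg'
    obtain ⟨x, hx, rfl⟩ := List.mem_map.1 hg'
    exact ⟨x, Finset.mem_toList.1 hx, rfl⟩
  have h01 : ∀ g' ∈ gs, ∀ x, 0 ≤ g' x ∧ g' x ≤ 1 := by
    intro g' hg'
    obtain ⟨x, -, rfl⟩ := hmem g' hg'
    exact hg01 x
  -- the quadratic form
  set Ψ : C(X, ℝ) → ℝ := fun a => ∑ L ∈ Λ, ‖L (A.P (cplx a) ξ)‖ ^ 2 with hΨ
  have hpar : ∀ a b, Ψ (a + b) + Ψ (a - b) = 2 * (Ψ a + Ψ b) := by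
    intro a b
    simp only [hΨ]
    rw [← Finset.sum_add_distrib, ← Finset.sum_add_distrib, Finset.mul_sum]
    refine Finset.sum_congr rfl fun L _ => ?_
    rw [cplx_add, cplx_sub, P_add, P_sub, map_add, map_sub]
    exact para _ _
  obtain ⟨S, hS, hSle⟩ := cube gs Ψ hpar
  have hSmem : ∀ g' ∈ S, g' ∈ gs := fun g' hg' => hS.subset hg'
  set r := (S.map fun g => 1 - 2 * g).prod with hr
  -- bound on each cell
  have hcell : ∀ c ∈ cells gs, ‖A.P (cplx c) ξ‖ ≤ ε' := by
    intro c hc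
    have hc0 := cells_nonneg gs h01 c hc
    have hc1 : ∀ x, c x ≤ 1 := by
      intro x
      have h1 := cells_sum gs x
      have h2 : c x ≤ ((cells gs).map fun c => c x).sum := by
        refine List.single_le_sum ?_ _ (List.mem_map.2 ⟨c, hc, rfl⟩)
        intro t ht
        obtain ⟨c', hc', rfl⟩ := List.mem_map.1 ht
        exact cells_nonneg gs h01 c' hc' x
      linarith
    have hcn : ‖cplx c‖ ≤ 1 := norm_cplx_le_one fun x => by
      rw [abs_of_nonneg (hc0 x)]; exact hc1 x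
    rcases cells_support gs c hc with h0 | ⟨g', hg', hsupp⟩
    · -- the product vanishes
      have hz : c = 0 := by
        rw [h0]
        ext y
        obtain ⟨x, hx⟩ := Set.mem_iUnion.1 (hT (Set.mem_univ y))
        obtain ⟨hxT, hy⟩ := Set.mem_iUnion.1 hx
        rw [Metric.mem_ball, dist_comm] at hy
        have hgy : g x y = 1 := hg1 x y hy.le
        have hmem' : g x ∈ gs := List.mem_map.2 ⟨x, Finset.mem_toList.2 hxT, rfl⟩
        have key : ∀ l : List C(X, ℝ), g x ∈ l →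
            (l.map fun g : C(X, ℝ) => 1 - g).prod y = 0 := by
          intro l hl
          induction l with
          | nil => simp at hl
          | cons a l ih =>
            rw [List.map_cons, List.prod_cons, ContinuousMap.mul_apply]
            rcases List.mem_cons.1 hl with rfl | hl'
            · change (1 - g x y) * _ = 0
              rw [hgy]; ring
            · rw [ih hl', mul_zero]
        exact key gs hmem'
      rw [hz]
      have : cplx (0 : C(X, ℝ)) = 0 := by ext x; exact Complex.ofReal_zero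
      rw [this, P_zero, norm_zero]; exact hε'0.le
    · obtain ⟨x, -, rfl⟩ := hmem g' hg'
      refine hsmall x (cplx c) hcn fun w hw => hgs x w (hsupp w ?_)
      intro h0
      exact hw (by rw [cplx_apply, h0]; simp)
  have hΨr : Ψ r ≤ ε ^ 2 := by
    refine hSle.trans ?_
    have h1 : ((cells gs).map Ψ).sum
        = ∑ L ∈ Λ, ((cells gs).map fun c => ‖L (A.P (cplx c) ξ)‖ ^ 2).sum := by
      simp only [hΨ]
      induction cells gs with
      | nil => simp
      | cons c l ih =>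
        simp only [List.map_cons, List.sum_cons]
        rw [ih, ← Finset.sum_add_distrib]
    rw [h1]
    have h2 : ∀ L ∈ Λ, ((cells gs).map fun c => ‖L (A.P (cplx c) ξ)‖ ^ 2).sum
        ≤ ε' * (‖L‖ * (‖L‖ * (A.C * ‖ξ‖))) := fun L _ =>
      A.cells_quadratic gs h01 ξ L hε'0.le hcell
    calc _ ≤ ∑ L ∈ Λ, ε' * (‖L‖ * (‖L‖ * (A.C * ‖ξ‖))) := Finset.sum_le_sum h2
      _ = ε' * K := by rw [← Finset.mul_sum]
      _ ≤ ε ^ 2 := by
          rw [hε', div_mul_eq_mul_div, div_le_iff₀ (by positivity)]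
          nlinarith [sq_nonneg ε]
  refine ⟨r, prod_le_one S fun g' hg' => h01 g' (hSmem g' hg'), ?_, ?_⟩
  · have h1 := A.prod_defect ξ (η := η) S (fun g' hg' => h01 g' (hSmem g' hg')) (fun g' hg' => by
      obtain ⟨x, -, rfl⟩ := hmem g' (hSmem g' hg')
      exact hgη x)
    refine h1.trans ?_
    have h2 : (S.length : ℝ) ≤ T.card := by
      have := hS.length_le
      rw [hgsdef, List.length_map, Finset.length_toList] at this
      exact_mod_cast this
    have h3 : 4 * A.C * (S.length * η) ≤ 4 * A.C * ((T.card + 1) * η) := by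
      refine mul_le_mul_of_nonneg_left ?_ (by positivity)
      exact mul_le_mul_of_nonneg_right (by linarith) hη0.le
    refine h3.trans (le_of_eq ?_)
    rw [hη]; field_simp
  · intro L hL
    have h1 : ‖L (A.P (cplx r) ξ)‖ ^ 2 ≤ Ψ r :=
      Finset.single_le_sum (f := fun L => ‖L (A.P (cplx r) ξ)‖ ^ 2) (fun L _ => sq_nonneg _) hL
    exact (pow_le_pow_iff_left₀ (norm_nonneg _) hε.le two_ne_zero).1 (h1.trans hΨr)

end Act

end H309LP
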