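import Mathlib
import Pool.Agent.H309LP.CaseA
import Pool.Agent.H309LP.CaseB

/-!
# No nonzero homomorphism into operators on a subspace of `ℓ^{p₂}`
-/

open MeasureTheory ENNReal Filter Topology

noncomputable section

namespace H309LP

namespace Act

variable {X : Type} [MetricSpace X] [CompactSpace X] {h : X ≃ₜ X} {p : ℝ≥0∞}
  [hp1 : Fact (1 ≤ p)] {E : Type} [NormedAddCommGroup E] [NormedSpace ℂ E] (A : Act h p E)

/-- two-sided estimate with almost unimodular coefficient functions -/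
lemma two_sided_r (hp : p ≠ ∞) (I : Finset ℤ) (hI : I.Nonempty) {g : C(X, ℂ)} {ξ₀ : E}
    (hg1 : ‖g‖ ≤ 1) (hξ : A.P g ξ₀ = ξ₀)
    (hg : ∀ i ∈ I, ∀ j ∈ I, i ≠ j → (alpha h).act i g * (alpha h).act j g = 0)
    (r : ℤ → C(X, ℝ)) (hr : ∀ i x, |r i x| ≤ 1)
    (hr2 : ∀ i, ‖A.P (cplx (1 - r i * r i)) ξ₀‖ ≤ ‖ξ₀‖ / 2) :
    (2 * A.C)⁻¹ * (I.card : ℝ) ^ (1 / p.toReal) * ‖ξ₀‖
        ≤ ‖∑ i ∈ I, A.V i (A.P (cplx (r i)) ξ₀)‖ ∧
    ‖∑ i ∈ I, A.V i (A.P (cplx (r i)) ξ₀)‖ ≤ A.C * (I.card : ℝ) ^ (1 / p.toReal) * ‖ξ₀‖ := by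
  have hC := A.C_pos
  have hn : ∀ i ∈ I, ‖cplx (r i)‖ ≤ 1 := fun i _ => norm_cplx_le_one (hr i)
  refine ⟨?_, A.upper I g (fun i => cplx (r i)) hp hg hg1 hn hξ⟩
  have h1 := A.lower I g (fun i => cplx (r i)) (fun i => cplx (r i)) hp hg hg1 hn hξ
  have hcard : (0 : ℝ) < I.card := by exact_mod_cast Finset.card_pos.2 hI
  have e : ∀ i ∈ I, A.P (cplx (r i) * cplx (r i)) ξ₀ = ξ₀ - A.P (cplx (1 - r i * r i)) ξ₀ := by
    intro i _
    rw [cplx_sub, cplx_one, P_sub, A.P_one_of hξ, cplx_mul]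
    abel
  rw [Finset.sum_congr rfl e, Finset.sum_sub_distrib, Finset.sum_const] at h1
  have h2 : ‖∑ i ∈ I, A.P (cplx (1 - r i * r i)) ξ₀‖ ≤ I.card * (‖ξ₀‖ / 2) := by
    refine (norm_sum_le _ _).trans ((Finset.sum_le_sum fun i _ => hr2 i).trans (le_of_eq ?_))
    rw [Finset.sum_const, nsmul_eq_mul]
  have h3 : ‖I.card • ξ₀‖ = I.card * ‖ξ₀‖ := by
    rw [← Nat.cast_smul_eq_nsmul ℂ, norm_smul, Complex.norm_natCast]
  have h4 : (I.card : ℝ) * (‖ξ₀‖ / 2)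
      ≤ A.C * (I.card : ℝ) ^ (1 - 1 / p.toReal) * ‖∑ i ∈ I, A.V i (A.P (cplx (r i)) ξ₀)‖ := by
    refine le_trans ?_ h1
    have := norm_sub_norm_le (I.card • ξ₀) (∑ i ∈ I, A.P (cplx (1 - r i * r i)) ξ₀)
    rw [h3] at this
    linarith
  rw [Real.rpow_sub hcard, Real.rpow_one] at h4
  have hpos : 0 < (I.card : ℝ) ^ (1 / p.toReal) := Real.rpow_pos_of_pos hcard _
  set S := ‖∑ i ∈ I, A.V i (A.P (cplx (r i)) ξ₀)‖
  have h5 : (I.card : ℝ) * (‖ξ₀‖ / 2) * (I.card : ℝ) ^ (1 / p.toReal) ≤ A.C * I.card * S := by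
    have := mul_le_mul_of_nonneg_right h4 hpos.le
    calc (I.card : ℝ) * (‖ξ₀‖ / 2) * (I.card : ℝ) ^ (1 / p.toReal)
        ≤ A.C * ((I.card : ℝ) / (I.card : ℝ) ^ (1 / p.toReal)) * S
          * (I.card : ℝ) ^ (1 / p.toReal) := this
      _ = A.C * I.card * S := by field_simp
  rw [mul_assoc, inv_mul_le_iff₀ (by positivity)]
  nlinarith

variable {p₂ : ℝ≥0∞} [hp2 : Fact (1 ≤ p₂)]

/-- No nonzero bounded homomorphism from `F^p(ℤ, X, h)` to operators on a closed subspace of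
`ℓ^{p₂}`, if `p ≠ p₂`. -/
lemma ell_zero [CompleteSpace E] [Infinite X] (hp : p ≠ ∞) (J : E →ₗᵢ[ℂ] Ell p₂) (hp₂ : p₂ ≠ ∞)
    (hne : p ≠ p₂) (hmin : ∀ x, Dense (Set.range fun n : ℤ => (h ^ n : X ≃ₜ X) x)) :
    A.P 1 = 0 := by
  classical
  by_contra hP
  have hC := A.C_pos
  have hr1 := toReal_pos' hp
  have hr2 := toReal_pos' hp₂
  have hrne : p.toReal ≠ p₂.toReal := fun hh => hne ((ENNReal.toReal_eq_toReal_iff' hp hp₂).1 hh)
  have hna : ∀ (x : X) (ξ : E), (∀ f, A.P f ξ = f x • ξ) → ξ = 0 :=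
    fun x ξ hξ => A.no_atom hp J hp₂ hne hmin hξ
  refine growth_contra (c₁ := (2 * A.C)⁻¹) (c₂ := A.C) (c₃ := ((2 * A.C)⁻¹ / 2) ^ p₂.toReal)
    (c₄ := (2 * (A.C * A.C)) ^ p₂.toReal) hr1 hr2 hrne (by positivity) (by positivity)
    (by positivity) (by positivity) fun N hN => ?_
  obtain ⟨I, hIdef⟩ : ∃ I : Finset ℤ, I = (Finset.range N).image fun i : ℕ => (i : ℤ) := ⟨_, rfl⟩
  have hcard : I.card = N := by
    rw [hIdef, Finset.card_image_of_injective _ Nat.cast_injective, Finset.card_range]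
  have hIne : I.Nonempty := by rw [← Finset.card_pos, hcard]; exact hN
  obtain ⟨g, ξ₀, hg1, hξ0, hξ, hg⟩ := A.exists_localized hmin hP I
  have hξn : 0 < ‖ξ₀‖ := norm_pos_iff.2 hξ0
  have hex : ∀ k : ℕ, ∃ r : C(X, ℝ), (∀ x, |r x| ≤ 1) ∧
      ‖A.P (cplx (1 - r * r)) ξ₀‖ ≤ min (1 / ((k : ℝ) + 1)) (‖ξ₀‖ / 2) ∧
      ∀ L ∈ (Finset.Icc (-(k : ℤ)) k ×ˢ Finset.range (k + 1)).image
        (fun q : ℤ × ℕ => (coord J q.1).comp (A.V (q.2 : ℤ))),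
        ‖L (A.P (cplx r) ξ₀)‖ ≤ min (1 / ((k : ℝ) + 1)) (‖ξ₀‖ / 2) := by
    intro k
    exact A.exists_rademacher J hp₂ hna ξ₀ _ (lt_min (by positivity) (by positivity))
  choose r hra hrb hrc using hex
  obtain ⟨y, hy⟩ : ∃ y : ℕ → ℕ → Ell p₂, ∀ i k, y i k = J (A.V (i : ℤ) (A.P (cplx (r k)) ξ₀)) :=
    ⟨fun i k => J (A.V (i : ℤ) (A.P (cplx (r k)) ξ₀)), fun _ _ => rfl⟩
  have hnorm : ∀ i k, ‖y i k‖ = ‖A.V (i : ℤ) (A.P (cplx (r k)) ξ₀)‖ := by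
    intro i k; rw [hy, J.norm_map]
  obtain ⟨κ, hκ, h1, h2⟩ := glidingHump hp₂ y ((2 * A.C)⁻¹ * ‖ξ₀‖) (A.C * A.C * ‖ξ₀‖)
    (by positivity)
    (fun i k => by
      rw [hnorm]
      have := (A.two_sided_r hp {(i : ℤ)} (Finset.singleton_nonempty _) hg1 hξ
        (by intro a ha b hb hab; rw [Finset.mem_singleton] at ha hb; omega)
        (fun _ => r k) (fun _ => hra k) (fun _ => (hrb k).trans (min_le_right _ _))).1
      simpa using this)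
    (fun i k => by
      rw [hnorm]
      refine (A.norm_V_le _ _).trans ?_
      rw [mul_assoc]
      exact mul_le_mul_of_nonneg_left (A.norm_P_le_one (norm_cplx_le_one (hra k)) _) hC.le)
    (fun i c => by
      refine squeeze_zero_norm' (a := fun k : ℕ => 1 / ((k : ℝ) + 1)) ?_
        tendsto_one_div_add_atTop_nhds_zero_nat
      filter_upwards [eventually_ge_atTop (max i c.natAbs)] with k hk
      have hmem : (coord J c).comp (A.V (i : ℤ)) ∈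
          (Finset.Icc (-(k : ℤ)) k ×ˢ Finset.range (k + 1)).image
            (fun q : ℤ × ℕ => (coord J q.1).comp (A.V (q.2 : ℤ))) := by
        refine Finset.mem_image.2 ⟨(c, i), ?_, rfl⟩
        rw [Finset.mem_product, Finset.mem_Icc, Finset.mem_range]
        have h1 := le_of_max_le_left hk
        have h2 := le_of_max_le_right hk
        refine ⟨⟨?_, ?_⟩, ?_⟩ <;> simp only <;> omega
      have := (hrc k _ hmem).trans (min_le_left _ _)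
      rw [hy]
      exact this) N
  have e : ∑ i ∈ Finset.range N, y i (κ i)
      = J (∑ i ∈ I, A.V i (A.P (cplx (r (κ i.toNat))) ξ₀)) := by
    rw [hIdef, Finset.sum_image (fun a _ b _ hab => Nat.cast_injective hab), map_sum]
    refine Finset.sum_congr rfl fun i _ => ?_
    rw [hy, Int.toNat_natCast]
  rw [e, J.norm_map] at h1 h2
  obtain ⟨h3, h4⟩ := A.two_sided_r hp I hIne hg1 hξ hg (fun i => r (κ i.toNat))
    (fun i => hra _) (fun i => (hrb _).trans (min_le_right _ _))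
  rw [hcard] at h3 h4
  obtain ⟨S, hS⟩ : ∃ S : ℝ, S = ‖∑ i ∈ I, A.V i (A.P (cplx (r (κ i.toNat))) ξ₀)‖ := ⟨_, rfl⟩
  have hS0 : 0 ≤ S := hS ▸ norm_nonneg _
  rw [← hS] at h1 h2 h3 h4
  have hξp : 0 < ‖ξ₀‖ ^ p₂.toReal := Real.rpow_pos_of_pos hξn _
  refine ⟨S / ‖ξ₀‖, by positivity, ?_, ?_, ?_, ?_⟩
  · rw [le_div_iff₀ hξn]; exact h3
  · rw [div_le_iff₀ hξn]; exact h4
  · rw [Real.div_rpow hS0 hξn.le, le_div_iff₀ hξp]
    refine le_trans (le_of_eq ?_) h1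
    have e3 : (2 * A.C)⁻¹ * ‖ξ₀‖ / 2 = (2 * A.C)⁻¹ / 2 * ‖ξ₀‖ := by ring
    rw [e3, Real.mul_rpow (by positivity) hξn.le]
    ring
  · rw [Real.div_rpow hS0 hξn.le, div_le_iff₀ hξp]
    refine h2.trans (le_of_eq ?_)
    have e3 : 2 * (A.C * A.C * ‖ξ₀‖) = 2 * (A.C * A.C) * ‖ξ₀‖ := by ring
    rw [e3, Real.mul_rpow (by positivity) hξn.le]
    ring

end Act

end H309LP
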