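import Mathlib
import Pool.Agent.H309LP.CaseC
import Pool.Agent.H309LP.PointReps

/-!
# Homomorphisms between `L^p` crossed products
-/

open MeasureTheory ENNReal Filter Topology

noncomputable section

namespace H309LP

section generic

variable {X₁ X₂ : Type} [TopologicalSpace X₁] [CompactSpace X₁] [TopologicalSpace X₂]
  [CompactSpace X₂] {h₁ : X₁ ≃ₜ X₁} {h₂ : X₂ ≃ₜ X₂} {p₁ : ℝ≥0∞} [Fact (1 ≤ p₁)]

/-- the map `C_c(ℤ, C(X), α) → F^p(ℤ, X, h)` -/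
def coeHom (p₁ : ℝ≥0∞) [Fact (1 ≤ p₁)] (h₁ : X₁ ≃ₜ X₁) : Cc h₁ →ₙₐ[ℂ] FullCP p₁ h₁ where
  toFun a := ((show NCc (fullFam p₁ h₁) from a : NCc (fullFam p₁ h₁)) : FullCP p₁ h₁)
  map_smul' c a := UniformSpace.Completion.coe_smul c (show NCc (fullFam p₁ h₁) from a)
  map_zero' := UniformSpace.Completion.coe_zero
  map_add' _ _ := UniformSpace.Completion.coe_add _ _
  map_mul' _ _ := UniformSpace.Completion.coe_mul _ _

lemma norm_coeHom (a : Cc h₁) : ‖coeHom p₁ h₁ a‖ = famNorm (fullFam p₁ h₁) a :=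
  UniformSpace.Completion.norm_coe (show NCc (fullFam p₁ h₁) from a)

lemma coeHom_one : coeHom p₁ h₁ (Tw.single (alpha h₁) 0 1) = 1 := UniformSpace.Completion.coe_one _

lemma ext_zero {ι : Type 1} (F : ι → SomeRep h₂) (φ : FullCP p₁ h₁ →ₙₐ[ℂ] Compl F)
    (hφ : Continuous φ) {E : Type} [NormedAddCommGroup E] [NormedSpace ℂ E]
    (ρ : Compl F →ₐ[ℂ] (E →L[ℂ] E)) (hρ : ∀ z, ‖ρ z‖ ≤ ‖z‖)
    (H : ∀ A : Act h₁ p₁ E, A.P 1 = 0) (z : FullCP p₁ h₁) : ρ (φ z) = 0 := by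
  obtain ⟨C, hC, hb⟩ : ∃ C : ℝ, 0 < C ∧ ∀ z, ‖φ z‖ ≤ C * ‖z‖ := by
    let L : FullCP p₁ h₁ →L[ℂ] Compl F :=
      ⟨{ toFun := φ, map_add' := map_add φ, map_smul' := fun c z => map_smul φ c z }, hφ⟩
    exact ⟨‖L‖ + 1, by positivity, fun z => (L.le_opNorm z).trans
      (mul_le_mul_of_nonneg_right (by linarith) (norm_nonneg z))⟩
  let A : Act h₁ p₁ E :=
    { ψ := (ρ : Compl F →ₙₐ[ℂ] (E →L[ℂ] E)).comp (φ.comp (coeHom p₁ h₁))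
      C := C
      C_pos := hC
      bound := fun a => by
        rw [← norm_coeHom]
        exact (hρ _).trans (hb _) }
  have h1 : ρ (φ 1) = 0 := by
    have h2 : A.P 1 = ρ (φ (coeHom p₁ h₁ (Tw.single (alpha h₁) 0 1))) := rfl
    rw [coeHom_one] at h2
    rw [← h2]
    exact H A
  calc ρ (φ z) = ρ (φ (1 * z)) := by rw [one_mul]
    _ = ρ (φ 1) * ρ (φ z) := by rw [map_mul, map_mul]
    _ = 0 := by rw [h1, zero_mul]

end generic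

/-! ### The parallelogram law -/

lemma lp_parallelogram {Ω : Type} [MeasurableSpace Ω] (μ : Measure Ω) (a b : Lp ℂ 2 μ) :
    ‖a + b‖ ^ 2 + ‖a - b‖ ^ 2 = 2 * (‖a‖ ^ 2 + ‖b‖ ^ 2) := by
  have := parallelogram_law_with_norm ℂ a b
  nlinarith

lemma ell_parallelogram {Ω : Type} [MeasurableSpace Ω] (μ : Measure Ω)
    (a b : lp (fun _ : ℤ => Lp ℂ 2 μ) 2) :
    ‖a + b‖ ^ 2 + ‖a - b‖ ^ 2 = 2 * (‖a‖ ^ 2 + ‖b‖ ^ 2) := by
  have := parallelogram_law_with_norm ℂ a b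
  nlinarith


/-! ### The main results -/

section main

variable {X₁ X₂ : Type} [MetricSpace X₁] [CompactSpace X₁] [Infinite X₁] [MetricSpace X₂]
  [CompactSpace X₂] [Nonempty X₂] {h₁ : X₁ ≃ₜ X₁} {h₂ : X₂ ≃ₜ X₂}
  {p₁ p₂ : ℝ≥0∞} [Fact (1 ≤ p₁)] [Fact (1 ≤ p₂)]

theorem full_zero (hp₁ : p₁ ≠ ∞) (hp₂ : p₂ ≠ ∞) (hne : p₁ ≠ p₂)
    (hm₁ : ∀ x, Dense (Set.range fun n : ℤ => (h₁ ^ n : X₁ ≃ₜ X₁) x))
    (φ : FullCP p₁ h₁ →ₙₐ[ℂ] FullCP p₂ h₂) (hφ : Continuous φ) : φ = 0 := by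
  by_contra hφ0
  obtain ⟨z, hz⟩ : ∃ z, φ z ≠ 0 := by
    by_contra hcon
    push Not at hcon
    exact hφ0 (by ext z; exact hcon z)
  by_cases h2 : p₂ = 2
  · subst h2
    obtain ⟨R, -, ρ, hρ, hρz⟩ := exists_ext_ne_zero (fullFam 2 h₂) Set.univ
      (fun R _ => by
        change CompleteSpace (Lp ℂ 2 R.μ)
        infer_instance)
      (fun a M hM H => famNorm_le _ hM fun i => H i trivial) (φ z) hz
    exact hρz (ext_zero _ φ hφ ρ hρ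
      (fun A => A.hilbert_zero hp₁ hne (lp_parallelogram R.μ) hm₁) z)
  · obtain ⟨E, _, _, _, J, ρ, hρ, hρz⟩ := full_separates hp₂ h2 (φ z) hz
    exact hρz (ext_zero _ φ hφ ρ hρ (fun A => A.ell_zero hp₁ J hp₂ hne hm₁) z)

theorem red_zero (hp₁ : p₁ ≠ ∞) (hp₂ : p₂ ≠ ∞) (hne : p₁ ≠ p₂)
    (hm₁ : ∀ x, Dense (Set.range fun n : ℤ => (h₁ ^ n : X₁ ≃ₜ X₁) x))
    (φ : FullCP p₁ h₁ →ₙₐ[ℂ] RedCP p₂ h₂) (hφ : Continuous φ) : φ = 0 := by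
  by_contra hφ0
  obtain ⟨z, hz⟩ : ∃ z, φ z ≠ 0 := by
    by_contra hcon
    push Not at hcon
    exact hφ0 (by ext z; exact hcon z)
  by_cases h2 : p₂ = 2
  · subst h2
    obtain ⟨R, -, ρ, hρ, hρz⟩ := exists_ext_ne_zero (redFam 2 h₂) Set.univ
      (fun R _ => by
        change CompleteSpace (lp (fun _ : ℤ => Lp ℂ 2 R.μ) 2)
        infer_instance)
      (fun a M hM H => famNorm_le _ hM fun i => H i trivial) (φ z) hz
    exact hρz (ext_zero _ φ hφ ρ hρ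
      (fun A => A.hilbert_zero hp₁ hne (ell_parallelogram R.μ) hm₁) z)
  · obtain ⟨E, _, _, _, J, ρ, hρ, hρz⟩ := red_separates hp₂ h2 (φ z) hz
    exact hρz (ext_zero _ φ hφ ρ hρ (fun A => A.ell_zero hp₁ J hp₂ hne hm₁) z)

end main

end H309LP
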