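import Mathlib

/-!
# `L^p` crossed products by a homeomorphism: the statement

All definitions used in the final statement.
-/

open MeasureTheory
open scoped ENNReal

noncomputable section

namespace H309LP.Stmt

variable {X : Type} [TopologicalSpace X] [CompactSpace X]

/-- `α^n(f) = f ∘ h^{-n}`. -/
def act (h : X ≃ₜ X) (n : ℤ) (f : C(X, ℂ)) : C(X, ℂ) := f.comp (h ^ (-n) : X ≃ₜ X)

/-- The product of `C_c(ℤ, C(X), α)`: `(a b)(n) = ∑_k a(k) α^k(b(n - k))`. -/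
def conv (h : X ≃ₜ X) (a b : ℤ →₀ C(X, ℂ)) : ℤ →₀ C(X, ℂ) :=
  a.sum fun k f => b.sum fun l g => Finsupp.single (k + l) (f * act h k g)

section reps

variable {E : Type} [NormedAddCommGroup E] [NormedSpace ℂ E]

/-- `π` is a nondegenerate contractive representation of `C(X)` on the Banach space `E`. -/
def IsRep (π : C(X, ℂ) →ₙₐ[ℂ] (E →L[ℂ] E)) : Prop :=
  (∀ f, ‖π f‖ ≤ ‖f‖) ∧ Dense (Submodule.span ℂ {ξ : E | ∃ f η, π f η = ξ} : Set E)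

/-- `(π, v)` is a contractive covariant representation on `E`. -/
def IsCov (h : X ≃ₜ X) (π : C(X, ℂ) →ₙₐ[ℂ] (E →L[ℂ] E)) (v : E ≃ₗᵢ[ℂ] E) : Prop :=
  IsRep π ∧ ∀ f ξ, v (π f (v.symm ξ)) = π (act h 1 f) ξ

/-- The integrated form: `integrated π v a = ∑_n π(a(n)) v^n`. -/
def integrated (π : C(X, ℂ) →ₙₐ[ℂ] (E →L[ℂ] E)) (v : E ≃ₗᵢ[ℂ] E) (a : ℤ →₀ C(X, ℂ)) (ξ : E) : E :=
  a.sum fun n f => π f ((v ^ n : E ≃ₗᵢ[ℂ] E) ξ)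

end reps

/-- `E` is (isometrically isomorphic to) `L^p(Ω, μ)` for some `σ`-finite measure `μ`. -/
def IsLpSpace (p : ℝ≥0∞) [Fact (1 ≤ p)] (E : Type) [NormedAddCommGroup E] [NormedSpace ℂ E] :
    Prop :=
  ∃ (Ω : Type) (_ : MeasurableSpace Ω) (μ : Measure Ω), SigmaFinite μ ∧
    Nonempty (E ≃ₗᵢ[ℂ] Lp ℂ p μ)

/-- The norm of `F^p(ℤ, X, h)`: the supremum of `‖∑_n π(a(n)) v^n‖` over all contractive
covariant representations `(π, v)` on `L^p`-spaces. -/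
def fullNorm (p : ℝ≥0∞) [Fact (1 ≤ p)] (h : X ≃ₜ X) (a : ℤ →₀ C(X, ℂ)) : ℝ :=
  sInf {M : ℝ | 0 ≤ M ∧ ∀ (E : Type) [NormedAddCommGroup E] [NormedSpace ℂ E], IsLpSpace p E →
    ∀ (π : C(X, ℂ) →ₙₐ[ℂ] (E →L[ℂ] E)) (v : E ≃ₗᵢ[ℂ] E), IsCov h π v →
      ∀ ξ, ‖integrated π v a ξ‖ ≤ M * ‖ξ‖}

/-- The norm of `ℓ^p(ℤ, E)` for `p < ∞`. -/
def ellNorm (p : ℝ≥0∞) {E : Type} [NormedAddCommGroup E] (ξ : ℤ → E) : ℝ :=
  (∑' n, ‖ξ n‖ ^ p.toReal) ^ (1 / p.toReal)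

/-- The norm of `F^p_r(ℤ, X, h)`: the supremum of `‖∑_k π(a(k)) v^k‖` over all regular
representations, `(π(f) ξ)(n) = π₀(α^{-n}(f)) ξ(n)` and `(v ξ)(n) = ξ(n - 1)` on `ℓ^p(ℤ, E)`,
where `π₀` is a nondegenerate contractive representation of `C(X)` on an `L^p`-space `E`. Thus
`(∑_k π(a(k)) v^k ξ)(n) = ∑_k π₀(α^{-n}(a(k))) ξ(n - k)`. -/
def redNorm (p : ℝ≥0∞) [Fact (1 ≤ p)] (h : X ≃ₜ X) (a : ℤ →₀ C(X, ℂ)) : ℝ :=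
  sInf {M : ℝ | 0 ≤ M ∧ ∀ (E : Type) [NormedAddCommGroup E] [NormedSpace ℂ E], IsLpSpace p E →
    ∀ π₀ : C(X, ℂ) →ₙₐ[ℂ] (E →L[ℂ] E), IsRep π₀ →
      ∀ ξ : ℤ → E, Summable (fun n => ‖ξ n‖ ^ p.toReal) →
        ellNorm p (fun n => a.sum fun k f => π₀ (act h (-n) f) (ξ (n - k))) ≤ M * ellNorm p ξ}

/-- The Banach algebra `B`, with the map `j`, is the completion of `C_c(ℤ, C(X), α)` in the
norm `N`. -/
def IsCompletion (h : X ≃ₜ X) (N : (ℤ →₀ C(X, ℂ)) → ℝ) {B : Type} [NormedRing B]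
    [NormedAlgebra ℂ B] (j : (ℤ →₀ C(X, ℂ)) →ₗ[ℂ] B) : Prop :=
  CompleteSpace B ∧ (∀ a b, j (conv h a b) = j a * j b) ∧ (∀ a, ‖j a‖ = N a) ∧ DenseRange j

/-- `F^p(ℤ, X, h)` is `(B, j)`. -/
def IsFullCP (p : ℝ≥0∞) [Fact (1 ≤ p)] (h : X ≃ₜ X) {B : Type} [NormedRing B]
    [NormedAlgebra ℂ B] (j : (ℤ →₀ C(X, ℂ)) →ₗ[ℂ] B) : Prop := IsCompletion h (fullNorm p h) j

/-- `F^p_r(ℤ, X, h)` is `(B, j)`. -/
def IsRedCP (p : ℝ≥0∞) [Fact (1 ≤ p)] (h : X ≃ₜ X) {B : Type} [NormedRing B]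
    [NormedAlgebra ℂ B] (j : (ℤ →₀ C(X, ℂ)) →ₗ[ℂ] B) : Prop := IsCompletion h (redNorm p h) j

end H309LP.Stmt
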