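import Mathlib
import Pool.Agent.H309LP.Main
import Pool.Agent.H309LP.Stmt

/-!
# From the concrete completions to arbitrary models of the crossed products
-/

open MeasureTheory ENNReal Filter Topology

noncomputable section

namespace H309LP

open Stmt

section basic

variable {X : Type} [TopologicalSpace X] [CompactSpace X] {h : X ≃ₜ X} {p : ℝ≥0∞}
  [hp1 : Fact (1 ≤ p)]

omit [CompactSpace X] in
lemma conv_eq (a b : ℤ →₀ C(X, ℂ)) : Stmt.conv h a b = Tw.mulHom (alpha h) a b := by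
  unfold Stmt.conv Tw.mulHom
  rw [Finsupp.liftAddHom_apply, Finsupp.sum, Finsupp.sum, AddMonoidHom.finsetSum_apply]
  refine Finset.sum_congr rfl fun k _ => ?_
  change _ = (Finsupp.liftAddHom _) b
  rw [Finsupp.liftAddHom_apply]
  rfl

/-- bundle a representation -/
def repOf {E : Type} [NormedAddCommGroup E] [NormedSpace ℂ E]
    (π : C(X, ℂ) →ₙₐ[ℂ] (E →L[ℂ] E)) (H : IsRep π) : CRep X E :=
  { π := π, contractive := H.1, nondegenerate := H.2 }

/-- bundle a covariant representation -/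
def covOf {E : Type} [NormedAddCommGroup E] [NormedSpace ℂ E]
    (π : C(X, ℂ) →ₙₐ[ℂ] (E →L[ℂ] E)) (v : E ≃ₗᵢ[ℂ] E) (H : IsCov h π v) : CovRep h E :=
  { toCRep := repOf π H.1, v := v, covariant := H.2 }

lemma integrated_eq {E : Type} [NormedAddCommGroup E] [NormedSpace ℂ E] (R : CovRep h E)
    (a : ℤ →₀ C(X, ℂ)) (ξ : E) : Stmt.integrated R.π R.v a ξ = R.int (show Cc h from a) ξ := by
  rw [CovRep.int_apply, _root_.sum_apply]; rfl

lemma full_bound {a : ℤ →₀ C(X, ℂ)} {M : ℝ} (hM0 : 0 ≤ M) {E : Type}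
    [NormedAddCommGroup E] [NormedSpace ℂ E] (R : CovRep h E)
    (hM : ∀ ξ, ‖integrated R.π R.v a ξ‖ ≤ M * ‖ξ‖) : ‖R.int (show Cc h from a)‖ ≤ M := by
  refine ContinuousLinearMap.opNorm_le_bound _ hM0 fun ξ => ?_
  rw [← integrated_eq]
  exact hM ξ

lemma full_mem {a : ℤ →₀ C(X, ℂ)} (E : Type) [NormedAddCommGroup E] [NormedSpace ℂ E]
    (hE : IsLpSpace p E) (π : C(X, ℂ) →ₙₐ[ℂ] (E →L[ℂ] E)) (v : E ≃ₗᵢ[ℂ] E) (hc : IsCov h π v)
    (ξ : E) : ‖integrated π v a ξ‖ ≤ famNorm (fullFam p h) (show Cc h from a) * ‖ξ‖ := by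
  obtain ⟨Ω, mΩ, μ, hσ, ⟨e⟩⟩ := hE
  have h1 : integrated π v a ξ = (covOf π v hc).int (show Cc h from a) ξ :=
    integrated_eq (covOf π v hc) a ξ
  rw [h1]
  refine ((covOf π v hc).int (show Cc h from a)).le_of_opNorm_le ?_ ξ
  refine (norm_int_le_transport e _ _).trans ?_
  exact le_famNorm (fullFam p h) (show Cc h from a) ⟨Ω, μ, (covOf π v hc).transport e⟩

lemma fullNorm_eq (a : ℤ →₀ C(X, ℂ)) :
    fullNorm p h a = famNorm (fullFam p h) (show Cc h from a) := by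
  unfold fullNorm
  refine le_antisymm (csInf_le ⟨0, fun M hM => hM.1⟩ ⟨famNorm_nonneg _ _, ?_⟩)
    (le_csInf ⟨famNorm (fullFam p h) (show Cc h from a), famNorm_nonneg _ _, ?_⟩ ?_)
  · intro E _ _ hE π v hc ξ
    exact full_mem E hE π v hc ξ
  · intro E _ _ hE π v hc ξ
    exact full_mem E hE π v hc ξ
  · rintro M ⟨hM0, hM⟩
    refine famNorm_le _ hM0 fun R => ?_
    exact full_bound hM0 R.rep (hM (Lp ℂ p R.μ)
      ⟨R.Ω, R.mΩ, R.μ, R.sf, ⟨LinearIsometryEquiv.refl ℂ _⟩⟩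
      R.rep.π R.rep.v ⟨⟨R.rep.contractive, R.rep.nondegenerate⟩, R.rep.covariant⟩)

/-- transport of a representation along an isometric isomorphism -/
def CRep.transport {E E' : Type} [NormedAddCommGroup E] [NormedSpace ℂ E]
    [NormedAddCommGroup E'] [NormedSpace ℂ E'] (Φ : E ≃ₗᵢ[ℂ] E') (R : CRep X E) :
    CRep X E' := CRep.ofAlgHom
    (AlgHom.ofLinearMap
      { toFun := fun f => (Φ : E →L[ℂ] E') ∘L (R.π f) ∘L (Φ.symm : E' →L[ℂ] E)
        map_add' := fun f g => by ext ξ; simp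
        map_smul' := fun c f => by ext ξ; simp }
      (by ext ξ; simp [R.map_one])
      (fun f g => by ext ξ; simp))
    (by
      intro f
      refine ContinuousLinearMap.opNorm_le_bound _ (norm_nonneg _) fun ξ => ?_
      change ‖Φ (R.π f (Φ.symm ξ))‖ ≤ _
      rw [Φ.norm_map]
      refine ((R.π f).le_opNorm _).trans ?_
      rw [Φ.symm.norm_map]
      exact mul_le_mul_of_nonneg_right (R.contractive f) (norm_nonneg _))

lemma CRep.transport_apply {E E' : Type} [NormedAddCommGroup E] [NormedSpace ℂ E]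
    [NormedAddCommGroup E'] [NormedSpace ℂ E'] (Φ : E ≃ₗᵢ[ℂ] E') (R : CRep X E) (f : C(X, ℂ))
    (ξ : E) : (R.transport Φ).π f (Φ ξ) = Φ (R.π f ξ) := by
  change Φ (R.π f (Φ.symm (Φ ξ))) = _
  rw [Φ.symm_apply_apply]

lemma ellNorm_eq (hp : p ≠ ∞) {E : Type} [NormedAddCommGroup E] (ξ : lp (fun _ : ℤ => E) p) :
    ellNorm p (fun n => ξ n) = ‖ξ‖ := (lp.norm_eq_tsum_rpow (toReal_pos' hp) ξ).symm

omit hp1 in
lemma ellNorm_congr {E E' : Type} [NormedAddCommGroup E] [NormedAddCommGroup E'] {ξ : ℤ → E}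
    {η : ℤ → E'} (H : ∀ n, ‖ξ n‖ = ‖η n‖) : ellNorm p ξ = ellNorm p η := by
  unfold ellNorm
  simp only [H]

lemma red_mem (hp : p ≠ ∞) {a : ℤ →₀ C(X, ℂ)} (E : Type) [NormedAddCommGroup E]
    [NormedSpace ℂ E] (hE : IsLpSpace p E) (π₀ : C(X, ℂ) →ₙₐ[ℂ] (E →L[ℂ] E)) (hc : IsRep π₀)
    (ξ : ℤ → E) (hξ : Summable (fun n => ‖ξ n‖ ^ p.toReal)) :
    ellNorm p (fun n => a.sum fun k f => π₀ (Stmt.act h (-n) f) (ξ (n - k)))
      ≤ famNorm (redFam p h) (show Cc h from a) * ellNorm p ξ := by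
  obtain ⟨Ω, mΩ, μ, hσ, ⟨e⟩⟩ := hE
  obtain ⟨R, hR⟩ : ∃ R : CRep X (Lp ℂ p μ), R = (repOf π₀ hc).transport e := ⟨_, rfl⟩
  have hmem : Memℓp (fun n => e (ξ n)) p :=
    memℓp_gen (hξ.congr fun n => by rw [e.norm_map])
  obtain ⟨ζ, hζ⟩ : ∃ ζ : lp (fun _ : ℤ => Lp ℂ p μ) p, ∀ n, ζ n = e (ξ n) :=
    ⟨⟨fun n => e (ξ n), hmem⟩, fun _ => rfl⟩
  have h1 : ∀ n, (regular p h R).int (show Cc h from a) ζ n
      = e (a.sum fun k f => π₀ (Stmt.act h (-n) f) (ξ (n - k))) := by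
    intro n
    rw [regular_int_apply, Finsupp.sum, map_sum]
    refine Finset.sum_congr rfl fun k _ => ?_
    rw [hζ, hR]
    exact CRep.transport_apply e _ _ _
  have h2 : ellNorm p (fun n => a.sum fun k f => π₀ (Stmt.act h (-n) f) (ξ (n - k)))
      = ‖(regular p h R).int (show Cc h from a) ζ‖ := by
    rw [← ellNorm_eq hp]
    exact ellNorm_congr fun n => by rw [h1, e.norm_map]
  have h3 : ellNorm p ξ = ‖ζ‖ := by
    rw [← ellNorm_eq hp]
    exact ellNorm_congr fun n => by rw [hζ, e.norm_map]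
  rw [h2, h3]
  exact ((regular p h R).int (show Cc h from a)).le_of_opNorm_le
    (le_famNorm (redFam p h) (show Cc h from a) ⟨Ω, μ, R⟩) ζ

lemma red_bound (hp : p ≠ ∞) {a : ℤ →₀ C(X, ℂ)} {M : ℝ} (hM0 : 0 ≤ M) (E : Type)
    [NormedAddCommGroup E] [NormedSpace ℂ E] (R : CRep X E)
    (hM : ∀ ξ : ℤ → E, Summable (fun n => ‖ξ n‖ ^ p.toReal) →
        ellNorm p (fun n => a.sum fun k f => R.π (Stmt.act h (-n) f) (ξ (n - k)))
          ≤ M * ellNorm p ξ) : ‖(regular p h R).int (show Cc h from a)‖ ≤ M := by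
  refine ContinuousLinearMap.opNorm_le_bound _ hM0 fun ξ => ?_
  have := hM (fun n => ξ n) ((lp.memℓp ξ).summable (toReal_pos' hp))
  rw [ellNorm_eq hp] at this
  rw [← ellNorm_eq hp]
  refine le_trans (le_of_eq ?_) this
  congr 1
  ext n
  rw [regular_int_apply]; rfl

lemma redNorm_eq (hp : p ≠ ∞) (a : ℤ →₀ C(X, ℂ)) :
    redNorm p h a = famNorm (redFam p h) (show Cc h from a) := by
  unfold redNorm
  refine le_antisymm (csInf_le ⟨0, fun M hM => hM.1⟩ ⟨famNorm_nonneg _ _, ?_⟩)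
    (le_csInf ⟨famNorm (redFam p h) (show Cc h from a), famNorm_nonneg _ _, ?_⟩ ?_)
  · intro E _ _ hE π₀ hc ξ hξ
    exact red_mem hp E hE π₀ hc ξ hξ
  · intro E _ _ hE π₀ hc ξ hξ
    exact red_mem hp E hE π₀ hc ξ hξ
  · rintro M ⟨hM0, hM⟩
    refine famNorm_le _ hM0 fun R => ?_
    exact red_bound hp hM0 (Lp ℂ p R.μ) R.rep
      (hM (Lp ℂ p R.μ) ⟨R.Ω, R.mΩ, R.μ, R.sf, ⟨LinearIsometryEquiv.refl ℂ _⟩⟩
      R.rep.π ⟨R.rep.contractive, R.rep.nondegenerate⟩)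

end basic

section iso

variable {X : Type} [TopologicalSpace X] [CompactSpace X] {h : X ≃ₜ X} {ι : Type 1}
  (F : ι → SomeRep h)

instance complNormedAlgebra : NormedAlgebra ℂ (Compl F) where
  norm_smul_le := norm_smul_le

/-- The completion is a model. -/
lemma isCompletion_compl : ∃ (B : Type) (_ : NormedRing B) (_ : NormedAlgebra ℂ B)
    (j : (ℤ →₀ C(X, ℂ)) →ₗ[ℂ] B),
    IsCompletion h (fun a => famNorm F (show Cc h from a)) j := by
  let j : (ℤ →₀ C(X, ℂ)) →ₗ[ℂ] Compl F :=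
    { toFun := fun a => ((show NCc F from a : NCc F) : Compl F)
      map_add' := fun _ _ => UniformSpace.Completion.coe_add _ _
      map_smul' := fun c a => UniformSpace.Completion.coe_smul c (show NCc F from a) }
  refine ⟨Compl F, inferInstance, complNormedAlgebra F, j, inferInstance, fun a b => ?_,
    fun a => ?_, ?_⟩
  · have e : j (conv h a b) = j (Tw.mulHom (alpha h) a b) := congrArg j (conv_eq a b)
    rw [e]
    exact UniformSpace.Completion.coe_mul (show NCc F from a) (show NCc F from b)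
  · exact UniformSpace.Completion.norm_coe (show NCc F from a)
  · exact UniformSpace.Completion.denseRange_coe (α := NCc F)

variable {B : Type} [NormedRing B] [NormedAlgebra ℂ B]

/-- Uniqueness of the completion. -/
lemma exists_iso (j : (ℤ →₀ C(X, ℂ)) →ₗ[ℂ] B)
    (hj : IsCompletion h (fun a => famNorm F (show Cc h from a)) j) :
    ∃ g : Compl F ≃ₐ[ℂ] B, ∀ z, ‖g z‖ = ‖z‖ := by
  obtain ⟨hc, hmul, hnorm, hdense⟩ := hj
  have hone : j (Finsupp.single 0 1) = 1 := by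
    have h1 : ∀ z : B, j (Finsupp.single 0 1) * z = z := by
      intro z
      have hcl : IsClosed {z : B | j (Finsupp.single 0 1) * z = z} :=
        isClosed_eq (continuous_const.mul continuous_id) continuous_id
      refine hcl.closure_subset_iff.2 ?_ (hdense z)
      rintro _ ⟨a, rfl⟩
      change j _ * j a = j a
      rw [← hmul, conv_eq, Tw.mulHom_one_left]
    have := h1 1
    rwa [mul_one] at this
  obtain ⟨f, hf⟩ : ∃ f : NCc F →+* B, ∀ a, f a = j (show ℤ →₀ C(X, ℂ) from a) :=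
    ⟨{ toFun := fun a => j (show ℤ →₀ C(X, ℂ) from a)
       map_one' := hone
       map_mul' := fun a b => by
        rw [← hmul, conv_eq]; rfl
       map_zero' := map_zero j
       map_add' := fun a b => map_add j _ _ }, fun _ => rfl⟩
  have hfn : ∀ a : NCc F, ‖f a‖ = ‖a‖ := fun a => by rw [hf]; exact hnorm _
  have hfc : Continuous f :=
    AddMonoidHomClass.continuous_of_bound f 1 fun a => by rw [hfn, one_mul]
  obtain ⟨g, hg⟩ : ∃ g : Compl F →+* B, g = UniformSpace.Completion.extensionHom f hfc :=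
    ⟨_, rfl⟩
  have hgc : Continuous g := hg ▸ UniformSpace.Completion.continuous_extension
  have hga : ∀ a : NCc F, g (a : Compl F) = f a := fun a => by
    rw [hg]; exact UniformSpace.Completion.extensionHom_coe f hfc a
  have hgs : ∀ (c : ℂ) (z : Compl F), g (c • z) = c • g z := by
    intro c z
    induction z using UniformSpace.Completion.induction_on with
    | hp => exact isClosed_eq (hgc.comp (continuous_const_smul c)) (hgc.const_smul c)
    | ih a =>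
      rw [← UniformSpace.Completion.coe_smul, hga, hga, hf, hf]
      exact map_smul j c (show ℤ →₀ C(X, ℂ) from a)
  have hgn : ∀ z, ‖g z‖ = ‖z‖ := by
    intro z
    induction z using UniformSpace.Completion.induction_on with
    | hp => exact isClosed_eq hgc.norm continuous_norm
    | ih a => rw [hga, UniformSpace.Completion.norm_coe, hfn]
  have hgi : Isometry g := AddMonoidHomClass.isometry_of_norm g hgn
  have hgsurj : Function.Surjective g := by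
    have hcl : IsClosed (Set.range g) := hgi.isClosedEmbedding.isClosed_range
    have hd : Dense (Set.range g) := by
      refine hdense.mono ?_
      rintro _ ⟨a, rfl⟩
      exact ⟨((show NCc F from a : NCc F) : Compl F), by rw [hga, hf]⟩
    exact Set.range_eq_univ.1 (by rw [← hcl.closure_eq, hd.closure_eq])
  let G : Compl F →ₐ[ℂ] B := AlgHom.ofLinearMap
    { toFun := g, map_add' := map_add g, map_smul' := hgs } (map_one g) (map_mul g)
  exact ⟨AlgEquiv.ofBijective G ⟨hgi.injective, hgsurj⟩, hgn⟩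

/-- vanishing of all continuous homomorphisms, for arbitrary models -/
lemma hom_zero {X₁ : Type} [TopologicalSpace X₁] [CompactSpace X₁] {h₁ : X₁ ≃ₜ X₁} {ι₁ : Type 1}
    (F₁ : ι₁ → SomeRep h₁) (H : ∀ φ : Compl F₁ →ₙₐ[ℂ] Compl F, Continuous φ → φ = 0)
    {B₁ : Type} [NormedRing B₁] [NormedAlgebra ℂ B₁]
    (j₁ : (ℤ →₀ C(X₁, ℂ)) →ₗ[ℂ] B₁)
    (hj₁ : IsCompletion h₁ (fun a => famNorm F₁ (show Cc h₁ from a)) j₁)
    (j : (ℤ →₀ C(X, ℂ)) →ₗ[ℂ] B)
    (hj : IsCompletion h (fun a => famNorm F (show Cc h from a)) j)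
    (φ : B₁ →ₙₐ[ℂ] B) (hφ : Continuous φ) : φ = 0 := by
  obtain ⟨g₁, hg₁⟩ := exists_iso F₁ j₁ hj₁
  obtain ⟨g, hg⟩ := exists_iso F j hj
  have c1 : Continuous g₁ := (AddMonoidHomClass.isometry_of_norm g₁ hg₁).continuous
  have c2 : Continuous g.symm := (AddMonoidHomClass.isometry_of_norm g.symm (fun z => by
    rw [← hg, g.apply_symm_apply])).continuous
  have h0 := H ((g.symm : B →ₙₐ[ℂ] Compl F).comp (φ.comp (g₁ : Compl F₁ →ₙₐ[ℂ] B₁)))
    (c2.comp (hφ.comp c1))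
  ext z
  obtain ⟨w, rfl⟩ := g₁.surjective z
  have h1 : g.symm (φ (g₁ w)) = 0 := DFunLike.congr_fun h0 w
  have h2 := congrArg g h1
  rw [g.apply_symm_apply, map_zero] at h2
  exact h2

end iso

section final

variable {X₁ X₂ : Type} [MetricSpace X₁] [CompactSpace X₁] [Infinite X₁] [MetricSpace X₂]
  [CompactSpace X₂] [Nonempty X₂] {h₁ : X₁ ≃ₜ X₁} {h₂ : X₂ ≃ₜ X₂}
  {p₁ p₂ : ℝ≥0∞} [Fact (1 ≤ p₁)] [Fact (1 ≤ p₂)]

omit [Infinite X₁] in
lemma isFull_iff {B : Type} [NormedRing B] [NormedAlgebra ℂ B] (j : (ℤ →₀ C(X₁, ℂ)) →ₗ[ℂ] B) :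
    IsFullCP p₁ h₁ j ↔ IsCompletion h₁ (fun a => famNorm (fullFam p₁ h₁) (show Cc h₁ from a)) j := by
  have : fullNorm p₁ h₁ = fun a => famNorm (fullFam p₁ h₁) (show Cc h₁ from a) :=
    funext fullNorm_eq
  unfold IsFullCP
  rw [this]
  rfl

omit [Infinite X₁] in
lemma isReduced_iff (hp : p₁ ≠ ∞) {B : Type} [NormedRing B] [NormedAlgebra ℂ B]
    (j : (ℤ →₀ C(X₁, ℂ)) →ₗ[ℂ] B) : IsRedCP p₁ h₁ j ↔
      IsCompletion h₁ (fun a => famNorm (redFam p₁ h₁) (show Cc h₁ from a)) j := by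
  have : redNorm p₁ h₁ = fun a => famNorm (redFam p₁ h₁) (show Cc h₁ from a) :=
    funext (redNorm_eq hp)
  unfold IsRedCP
  rw [this]
  rfl

omit [Infinite X₁] in
theorem exists_isFull (p₁ : ℝ≥0∞) [Fact (1 ≤ p₁)] (h₁ : X₁ ≃ₜ X₁) :
    ∃ (B : Type) (_ : NormedRing B) (_ : NormedAlgebra ℂ B)
      (j : (ℤ →₀ C(X₁, ℂ)) →ₗ[ℂ] B), IsFullCP p₁ h₁ j := by
  obtain ⟨B, _, _, j, hj⟩ := isCompletion_compl (fullFam p₁ h₁)
  exact ⟨B, _, _, j, (isFull_iff j).2 hj⟩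

omit [Infinite X₁] in
theorem exists_isReduced (p₁ : ℝ≥0∞) [Fact (1 ≤ p₁)] (hp : p₁ ≠ ∞) (h₁ : X₁ ≃ₜ X₁) :
    ∃ (B : Type) (_ : NormedRing B) (_ : NormedAlgebra ℂ B)
      (j : (ℤ →₀ C(X₁, ℂ)) →ₗ[ℂ] B), IsRedCP p₁ h₁ j := by
  obtain ⟨B, _, _, j, hj⟩ := isCompletion_compl (redFam p₁ h₁)
  exact ⟨B, _, _, j, (isReduced_iff hp j).2 hj⟩

theorem final_zero (hp₁ : p₁ ≠ ∞) (hp₂ : p₂ ≠ ∞) (hne : p₁ ≠ p₂)
    (hm₁ : ∀ x, Dense (Set.range fun n : ℤ => (h₁ ^ n : X₁ ≃ₜ X₁) x))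
    {B₁ B₂ : Type} [NormedRing B₁] [NormedAlgebra ℂ B₁] [NormedRing B₂] [NormedAlgebra ℂ B₂]
    (j₁ : (ℤ →₀ C(X₁, ℂ)) →ₗ[ℂ] B₁) (j₂ : (ℤ →₀ C(X₂, ℂ)) →ₗ[ℂ] B₂)
    (H₁ : IsFullCP p₁ h₁ j₁) (H₂ : IsFullCP p₂ h₂ j₂ ∨ IsRedCP p₂ h₂ j₂)
    (φ : B₁ →ₙₐ[ℂ] B₂) (hφ : Continuous φ) : φ = 0 := by
  rcases H₂ with H₂ | H₂
  · exact hom_zero (fullFam p₂ h₂) (fullFam p₁ h₁) (full_zero hp₁ hp₂ hne hm₁) j₁
      ((isFull_iff j₁).1 H₁) j₂ ((isFull_iff j₂).1 H₂) φ hφ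
  · exact hom_zero (redFam p₂ h₂) (fullFam p₁ h₁) (red_zero hp₁ hp₂ hne hm₁) j₁
      ((isFull_iff j₁).1 H₁) j₂ ((isReduced_iff hp₂ j₂).1 H₂) φ hφ

end final

end H309LP
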